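import Pool.Agent.Lib.MP_bd7e44_co.W2.Check

/-!
Width two: the certificates (machine generated).
-/

namespace Pool.Agent.Lib.MP_bd7e44_co.W2

set_option maxRecDepth 100000

/-- The vector lies between two rays. -/
def InC (x1 y1 x2 y2 : ℤ) (f : List ℤ) : Prop :=
  x1 * nth f 1 ≤ y1 * nth f 0 ∧ y2 * nth f 0 ≤ x2 * nth f 1

instance (x1 y1 x2 y2 : ℤ) (f : List ℤ) : Decidable (InC x1 y1 x2 y2 f) :=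
  inferInstanceAs (Decidable (_ ∧ _))

/-- The state at the end of a period. -/
def lfP (k : ℕ) (n1 n2 : List ℤ) (x1 y1 x2 y2 : ℤ) (s : St) : Bool :=
  decide (s.W = 2 ∧ s.k = k ∧ s.h ≠ [] ∧ s.m1 = n1 ∧ s.m2 = n2 ∧ InC x1 y1 x2 y2 s.f1 ∧
    InC x1 y1 x2 y2 s.f2)

/-- The end of a three-element component, or the state at the end of a period. -/
def lfC (d k : ℕ) (n1 n2 : List ℤ) (x1 y1 x2 y2 : ℤ) (s : St) : Bool :=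
  decide (s.W = 1 ∧ s.h = [(1, 0), (d, d)]) || lfP k n1 n2 x1 y1 x2 y2 s

/-- A certificate. -/
def c1 : Tr := (.node [0, 2]
(.far [0, 0, 0, 0, 1]) .leaf (.node [4, 1]
(.far [0, 1, 0, 0, 2]) (.far [0, 0, 1, 0, 4]) (.far [0, 3, 0, 0, 4]) (.far [0, 0, 7, 0, 64, 43]) (.far [0, 1, 0, 0, 2]) (.far [0, 0, 1, 0, 4]) (.far [0, 3, 0, 0, 4]) (.far [0, 0, 7, 0, 64, 43])) (.far [1, 0, 2]) (.far [0, 0, 0, 0, 1]) .leaf (.node [4, 5, 1]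
(.far [0, 1, 0, 0, 4]) (.far [0, 0, 1, 0, 8]) (.far [0, 1, 0, 1, 1]) (.node [4, 5, 6, 0]
(.node [4, 1]
(.far [0, 0, 0, 0, 16, 3]) (.far [0, 0, 0, 0, 16, 3]) (.far [0, 0, 0, 0, 16, 3]) (.far [0, 0, 0, 0, 16, 3]) (.far [0, 0, 0, 0, 16, 3]) (.far [0, 0, 0, 0, 16, 3]) (.far [0, 0, 0, 0, 16, 3]) (.far [0, 0, 0, 0, 16, 3])) (.far [13, 0, 16]) (.node [4, 7, 1]
(.far [0, 0, 0, 0, 64, 4, 17]) (.far [0, 0, 0, 0, 64, 4, 17]) (.far [0, 3, 0, 0, 0, 16, 6]) (.node [4, 5, 6, 0]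
(.far [0, 0, 0, 0, 8, 0, 3, 1]) (.far [0, 0, 0, 0, 8, 0, 3, 1]) (.node [4, 5, 6, 7]
(.far [0, 0, 0, 0, 128, 38, 61]) (.far [0, 0, 0, 0, 128, 38, 61]) (.far [0, 0, 0, 0, 8, 0, 6, 3]) (.far [0, 0, 0, 0, 8, 0, 6, 3]) (.far [0, 0, 0, 0, 128, 38, 61]) (.far [0, 0, 0, 0, 128, 38, 61]) (.far [0, 0, 0, 0, 8, 0, 6, 3]) (.far [0, 0, 0, 0, 8, 0, 6, 3])) (.far [1, 0, 0, 0, 8, 0, 6, 2]) (.far [0, 0, 0, 0, 8, 0, 3, 1]) (.far [0, 0, 0, 0, 8, 0, 3, 1]) (.node [4, 5, 6, 7]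
(.far [0, 0, 0, 0, 128, 38, 61]) (.far [0, 0, 0, 0, 128, 38, 61]) (.far [0, 0, 0, 0, 8, 0, 6, 3]) (.far [0, 0, 0, 0, 8, 0, 6, 3]) (.far [0, 0, 0, 0, 128, 38, 61]) (.far [0, 0, 0, 0, 128, 38, 61]) (.far [0, 0, 0, 0, 8, 0, 6, 3]) (.far [0, 0, 0, 0, 8, 0, 6, 3])) (.far [1, 0, 0, 0, 8, 0, 6, 2])) (.far [0, 0, 0, 0, 64, 4, 17]) (.far [0, 0, 0, 0, 64, 4, 17]) (.far [0, 3, 0, 0, 0, 16, 6]) (.node [4, 6, 0]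
(.far [0, 0, 0, 0, 8, 3, 1]) (.far [0, 0, 0, 0, 8, 3, 1]) (.node [4, 5, 6]
(.far [0, 0, 0, 0, 32, 12, 3]) (.far [0, 0, 0, 0, 32, 12, 3]) (.far [0, 0, 0, 0, 8, 6, 3]) (.far [0, 0, 0, 0, 8, 6, 3]) (.far [0, 0, 0, 0, 32, 12, 3]) (.far [0, 0, 0, 0, 32, 12, 3]) (.far [0, 0, 0, 0, 8, 6, 3]) (.far [0, 0, 0, 0, 8, 6, 3])) (.far [1, 0, 0, 0, 8, 6, 2]) (.far [0, 0, 0, 0, 8, 3, 1]) (.far [0, 0, 0, 0, 8, 3, 1]) (.far [0, 0, 0, 3, 32, 16]) (.far [1, 0, 0, 0, 4, 3]))) (.far [11, 0, 8, 0, 0, 32]) (.node [4, 6, 1]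
(.far [0, 1, 0, 0, 8]) (.node [4, 6, 0]
(.far [0, 0, 0, 0, 0, 0, 1]) .leaf (.node [4, 1]
(.far [0, 0, 0, 0, 64, 3]) (.far [0, 0, 0, 0, 64, 3]) (.far [0, 0, 0, 0, 64, 3]) (.far [0, 0, 0, 0, 64, 3]) (.far [0, 0, 0, 0, 64, 3]) (.far [0, 0, 0, 0, 64, 3]) (.far [0, 0, 0, 0, 64, 3]) (.far [0, 0, 0, 0, 64, 3])) (.far [3, 0, 4]) (.far [0, 0, 0, 0, 0, 0, 1]) .leaf (.node [4, 5, 1]
(.far [0, 1, 0, 0, 64]) (.far [0, 0, 1, 0, 256]) (.far [0, 1, 0, 1, 32]) (.node [4, 5, 6, 0]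
(.node [4, 1]
(.far [0, 0, 0, 0, 256, 3]) (.far [0, 0, 0, 0, 256, 3]) (.far [0, 0, 0, 0, 256, 3]) (.far [0, 0, 0, 0, 256, 3]) (.far [0, 0, 0, 0, 256, 3]) (.far [0, 0, 0, 0, 256, 3]) (.far [0, 0, 0, 0, 256, 3]) (.far [0, 0, 0, 0, 256, 3])) (.far [9, 0, 0, 0, 0, 0, 16]) (.node [4, 6, 7, 1]
(.far [0, 0, 0, 0, 256, 0, 0, 3]) (.far [0, 0, 0, 0, 256, 0, 0, 3]) (.far [0, 3, 0, 0, 0, 0, 16, 6]) (.node [4, 7, 0]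
(.far [0, 0, 0, 0, 512, 7]) (.far [0, 0, 0, 0, 512, 7]) (.far [0, 0, 2, 0, 1024, 37, 18]) (.far [1, 0, 0, 0, 128, 5, 1]) (.far [0, 0, 0, 0, 512, 7]) (.far [0, 0, 0, 0, 512, 7]) (.far [0, 0, 2, 0, 1024, 37, 18]) (.far [1, 0, 0, 0, 128, 5, 1])) (.far [0, 0, 0, 0, 256, 0, 0, 3]) (.far [0, 0, 0, 0, 256, 0, 0, 3]) (.far [0, 3, 0, 0, 0, 0, 16, 6]) (.node [4, 5, 7, 0]
(.far [0, 0, 0, 0, 1024, 0, 17, 5]) (.far [0, 0, 0, 0, 1024, 0, 17, 5]) (.far [0, 0, 7, 0, 4096, 0, 148, 77]) (.far [1, 0, 0, 0, 128, 0, 5, 1]) (.far [0, 0, 0, 0, 512, 0, 7]) (.far [0, 0, 0, 0, 512, 0, 7]) (.far [0, 0, 0, 11, 0, 64]) (.far [1, 0, 0, 0, 128, 0, 5]))) (.far [9, 0, 0, 0, 0, 0, 16]) (.node [4, 5, 6, 1]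
(.far [0, 1, 0, 0, 256]) (.node [4, 6, 0]
(.far [0, 0, 0, 0, 0, 0, 1]) .leaf (.node [4, 5, 1]
(.far [0, 1, 0, 0, 512]) (.node [4, 0, 2]
(.far [0, 0, 0, 0, 0, 1]) .leaf (.far [0, 1, 0, 0, 2048]) (.far [2, 0, 0, 0, 2048, 0, 5]) (.far [0, 0, 0, 0, 0, 1]) .leaf (.far [0, 1, 0, 0, 2048]) (.far [2, 0, 0, 0, 2048, 0, 5])) (.far [0, 1, 0, 0, 512]) (.node [4, 6]
(.node [4, 1]
(.far [0, 0, 0, 0, 2048, 3]) (.far [0, 0, 0, 0, 2048, 3]) (.far [0, 0, 0, 0, 2048, 3]) (.far [0, 0, 0, 0, 2048, 3]) (.far [0, 0, 0, 0, 2048, 3]) (.far [0, 0, 0, 0, 2048, 3]) (.far [0, 0, 0, 0, 2048, 3]) (.far [0, 0, 0, 0, 2048, 3])) (.far [1, 0, 0, 0, 1024, 4]) (.node [4, 1]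
(.far [0, 0, 0, 0, 2048, 3]) (.far [0, 0, 0, 0, 2048, 3]) (.far [0, 0, 0, 0, 8192, 13]) (.far [0, 0, 0, 0, 8192, 13]) (.far [0, 0, 0, 0, 2048, 3]) (.far [0, 0, 0, 0, 2048, 3]) (.far [0, 0, 0, 0, 8192, 13]) (.far [0, 0, 0, 0, 8192, 13])) (.far [1, 0, 0, 0, 1024, 4]) (.node [4, 1]
(.far [0, 0, 0, 0, 2048, 3]) (.far [0, 0, 0, 0, 2048, 3]) (.far [0, 0, 0, 0, 2048, 3]) (.far [0, 0, 0, 0, 2048, 3]) (.far [0, 0, 0, 0, 2048, 3]) (.far [0, 0, 0, 0, 2048, 3]) (.far [0, 0, 0, 0, 2048, 3]) (.far [0, 0, 0, 0, 2048, 3])) (.far [1, 0, 0, 0, 1024, 4]) (.node [4, 1]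
(.far [0, 0, 0, 0, 2048, 3]) (.far [0, 0, 0, 0, 2048, 3]) (.far [0, 0, 0, 0, 8192, 13]) (.far [0, 0, 0, 0, 8192, 13]) (.far [0, 0, 0, 0, 2048, 3]) (.far [0, 0, 0, 0, 2048, 3]) (.far [0, 0, 0, 0, 8192, 13]) (.far [0, 0, 0, 0, 8192, 13])) (.far [1, 0, 0, 0, 1024, 4])) (.far [0, 1, 0, 0, 512]) (.node [4, 5, 0]
(.far [0, 0, 0, 0, 0, 0, 1]) .leaf (.far [0, 1, 0, 0, 2048]) (.far [1, 0, 2]) (.far [0, 0, 0, 0, 0, 0, 1]) .leaf (.far [0, 1, 0, 0, 2048]) (.far [1, 0, 0, 0, 0, 32])) (.far [0, 1, 0, 0, 512]) (.node [4, 5, 6, 0]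
(.node [4, 1]
(.far [0, 0, 0, 0, 8192, 9]) (.far [0, 0, 0, 0, 8192, 9]) (.far [0, 0, 0, 0, 8192, 9]) (.far [0, 0, 0, 0, 8192, 9]) (.far [0, 0, 0, 0, 8192, 9]) (.far [0, 0, 0, 0, 8192, 9]) (.far [0, 0, 0, 0, 8192, 9]) (.far [0, 0, 0, 0, 8192, 9])) (.far [7, 0, 0, 0, 0, 128]) (.node [4, 6, 7, 1]
(.far [0, 0, 0, 0, 8192, 0, 0, 9]) (.far [0, 0, 0, 0, 8192, 0, 0, 9]) (.far [0, 1, 0, 0, 8192, 10, 0, 2]) (.node [4, 6, 7]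
(.far [0, 0, 0, 0, 8192, 0, 9]) (.far [0, 0, 0, 0, 8192, 0, 9]) (.far [0, 0, 0, 0, 1024, 6, 5]) (.far [0, 0, 0, 0, 1024, 6, 5]) (.far [0, 0, 0, 0, 8192, 0, 9]) (.far [0, 0, 0, 0, 8192, 0, 9]) (.far [0, 0, 0, 0, 1024, 6, 5]) (.far [0, 0, 0, 0, 1024, 6, 5])) (.far [0, 0, 0, 0, 8192, 0, 0, 9]) (.far [0, 0, 0, 0, 8192, 0, 0, 9]) (.far [0, 1, 0, 0, 8192, 10, 0, 2]) (.node [4, 6, 7]
(.far [0, 0, 0, 0, 8192, 0, 9]) (.far [0, 0, 0, 0, 8192, 0, 9]) (.far [0, 0, 0, 0, 1024, 6, 5]) (.far [0, 0, 0, 0, 1024, 6, 5]) (.far [0, 0, 0, 0, 8192, 0, 9]) (.far [0, 0, 0, 0, 8192, 0, 9]) (.far [0, 0, 0, 0, 1024, 6, 5]) (.far [0, 0, 0, 0, 1024, 6, 5]))) (.far [7, 0, 0, 0, 0, 128]) (.node [4, 5, 1]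
(.far [0, 1, 0, 0, 2048]) (.node [4, 5, 0]
(.far [0, 0, 0, 0, 0, 0, 1]) .leaf (.node [4, 5, 1]
(.far [0, 1, 0, 0, 8192]) (.far [0, 0, 5, 0, 65536]) (.far [0, 3, 0, 0, 16384]) (.node [4, 6]
(.node [4, 1]
(.far [0, 0, 0, 0, 8192, 1]) (.far [0, 0, 0, 0, 8192, 1]) (.far [0, 0, 0, 0, 8192, 1]) (.far [0, 0, 0, 0, 8192, 1]) (.far [0, 0, 0, 0, 8192, 1]) (.far [0, 0, 0, 0, 8192, 1]) (.far [0, 0, 0, 0, 8192, 1]) (.far [0, 0, 0, 0, 8192, 1])) (.far [1, 0, 0, 0, 16384, 6]) (.node [4, 1]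
(.far [0, 0, 0, 0, 8192, 1]) (.far [0, 0, 0, 0, 8192, 1]) (.far [0, 0, 0, 0, 65536, 9]) (.far [0, 0, 0, 0, 65536, 9]) (.far [0, 0, 0, 0, 8192, 1]) (.far [0, 0, 0, 0, 8192, 1]) (.far [0, 0, 0, 0, 65536, 9]) (.far [0, 0, 0, 0, 65536, 9])) (.far [1, 0, 0, 0, 16384, 6]) (.node [4, 1]
(.far [0, 0, 0, 0, 8192, 1]) (.far [0, 0, 0, 0, 8192, 1]) (.far [0, 0, 0, 0, 8192, 1]) (.far [0, 0, 0, 0, 8192, 1]) (.far [0, 0, 0, 0, 8192, 1]) (.far [0, 0, 0, 0, 8192, 1]) (.far [0, 0, 0, 0, 8192, 1]) (.far [0, 0, 0, 0, 8192, 1])) (.far [1, 0, 0, 0, 16384, 6]) (.node [4, 1]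
(.far [0, 0, 0, 0, 8192, 1]) (.far [0, 0, 0, 0, 8192, 1]) (.far [0, 0, 0, 0, 65536, 9]) (.far [0, 0, 0, 0, 65536, 9]) (.far [0, 0, 0, 0, 8192, 1]) (.far [0, 0, 0, 0, 8192, 1]) (.far [0, 0, 0, 0, 65536, 9]) (.far [0, 0, 0, 0, 65536, 9])) (.far [1, 0, 0, 0, 16384, 6])) (.far [0, 1, 0, 0, 8192]) (.far [0, 0, 5, 0, 65536]) (.far [0, 3, 0, 0, 16384]) (.node [4, 5, 6]
(.node [4, 1]
(.far [0, 0, 0, 0, 32768, 3]) (.far [0, 0, 0, 0, 32768, 3]) (.far [0, 0, 0, 0, 32768, 3]) (.far [0, 0, 0, 0, 32768, 3]) (.far [0, 0, 0, 0, 32768, 3]) (.far [0, 0, 0, 0, 32768, 3]) (.far [0, 0, 0, 0, 32768, 3]) (.far [0, 0, 0, 0, 32768, 3])) (.far [9, 0, 0, 0, 0, 0, 16]) (.node [4, 6, 1]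
(.far [0, 0, 0, 0, 32768, 0, 3]) (.far [0, 0, 0, 0, 32768, 0, 3]) (.far [0, 0, 0, 0, 65536, 5, 4]) (.far [0, 0, 0, 0, 65536, 5, 4]) (.far [0, 0, 0, 0, 32768, 0, 3]) (.far [0, 0, 0, 0, 32768, 0, 3]) (.far [0, 0, 0, 0, 65536, 5, 4]) (.far [0, 0, 0, 0, 65536, 5, 4])) (.far [9, 0, 0, 0, 0, 0, 16]) (.node [4, 5, 6, 1]
(.far [0, 1, 0, 0, 32768]) (.node [4, 7, 0]
(.far [0, 0, 0, 0, 0, 0, 1]) .leaf (.far [0, 3, 0, 0, 262144]) (.far [3, 0, 4]) (.far [0, 0, 0, 0, 0, 0, 1]) .leaf (.far [0, 3, 0, 0, 262144]) (.far [1, 0, 0, 0, 0, 8])) (.far [0, 1, 0, 1, 8192]) (.node [4, 5, 6, 7, 0]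
(.node [4, 7, 1]
(.far [0, 1, 0, 0, 65536]) (.node [4, 5, 0]
(.far [0, 0, 0, 0, 0, 0, 1]) .leaf (.node [4, 6, 1]
(.far [0, 1, 0, 0, 0, 2]) (.far [0, 0, 5, 0, 0, 16]) (.far [0, 3, 0, 0, 262144]) (.node [4, 6]
(.far [0, 1, 0, 0, 262144]) (.far [1, 0, 0, 0, 131072, 4]) (.node [4, 1]
(.far [0, 0, 0, 0, 131072, 1]) (.far [0, 0, 0, 0, 131072, 1]) (.far [0, 0, 0, 0, 524288, 5]) (.far [0, 0, 0, 0, 524288, 5]) (.far [0, 0, 0, 0, 131072, 1]) (.far [0, 0, 0, 0, 131072, 1]) (.far [0, 0, 0, 0, 524288, 5]) (.far [0, 0, 0, 0, 524288, 5])) (.far [1, 0, 0, 0, 131072, 4]) (.far [0, 1, 0, 0, 262144]) (.far [1, 0, 0, 0, 131072, 4]) (.node [4, 1]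
(.far [0, 0, 0, 0, 131072, 1]) (.far [0, 0, 0, 0, 131072, 1]) (.far [0, 0, 0, 0, 524288, 5]) (.far [0, 0, 0, 0, 524288, 5]) (.far [0, 0, 0, 0, 131072, 1]) (.far [0, 0, 0, 0, 131072, 1]) (.far [0, 0, 0, 0, 524288, 5]) (.far [0, 0, 0, 0, 524288, 5])) (.far [1, 0, 0, 0, 131072, 4])) (.far [0, 1, 0, 0, 0, 2]) (.far [0, 0, 5, 0, 0, 16]) (.far [0, 3, 0, 0, 262144]) (.node [4, 6]
(.far [0, 1, 0, 0, 262144]) (.far [1, 0, 0, 0, 131072, 4]) (.node [4, 1]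
(.far [0, 0, 0, 0, 131072, 1]) (.far [0, 0, 0, 0, 131072, 1]) (.far [0, 0, 0, 0, 524288, 5]) (.far [0, 0, 0, 0, 524288, 5]) (.far [0, 0, 0, 0, 131072, 1]) (.far [0, 0, 0, 0, 131072, 1]) (.far [0, 0, 0, 0, 524288, 5]) (.far [0, 0, 0, 0, 524288, 5])) (.far [1, 0, 0, 0, 131072, 4]) (.far [0, 1, 0, 0, 262144]) (.far [1, 0, 0, 0, 131072, 4]) (.node [4, 1]
(.far [0, 0, 0, 0, 131072, 1]) (.far [0, 0, 0, 0, 131072, 1]) (.far [0, 0, 0, 0, 524288, 5]) (.far [0, 0, 0, 0, 524288, 5]) (.far [0, 0, 0, 0, 131072, 1]) (.far [0, 0, 0, 0, 131072, 1]) (.far [0, 0, 0, 0, 524288, 5]) (.far [0, 0, 0, 0, 524288, 5])) (.far [1, 0, 0, 0, 131072, 4]))) (.far [1, 0, 2]) (.far [0, 0, 0, 0, 0, 0, 1]) .leaf (.node [4, 5, 6, 1]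
(.far [0, 1, 0, 0, 0, 0, 2]) (.far [0, 0, 5, 0, 0, 0, 16]) (.far [0, 3, 0, 0, 262144]) (.node [4, 7]
(.far [0, 1, 0, 0, 262144]) (.far [3, 0, 0, 0, 524288, 13]) (.node [4, 1]
(.far [0, 0, 0, 0, 131072, 1]) (.far [0, 0, 0, 0, 131072, 1]) (.far [0, 0, 0, 0, 1048576, 9]) (.far [0, 0, 0, 0, 1048576, 9]) (.far [0, 0, 0, 0, 131072, 1]) (.far [0, 0, 0, 0, 131072, 1]) (.far [0, 0, 0, 0, 1048576, 9]) (.far [0, 0, 0, 0, 1048576, 9])) (.far [3, 0, 0, 0, 524288, 13]) (.far [0, 1, 0, 0, 262144]) (.far [3, 0, 0, 0, 524288, 13]) (.node [4, 1]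
(.far [0, 0, 0, 0, 131072, 1]) (.far [0, 0, 0, 0, 131072, 1]) (.far [0, 0, 0, 0, 1048576, 9]) (.far [0, 0, 0, 0, 1048576, 9]) (.far [0, 0, 0, 0, 131072, 1]) (.far [0, 0, 0, 0, 131072, 1]) (.far [0, 0, 0, 0, 1048576, 9]) (.far [0, 0, 0, 0, 1048576, 9])) (.far [3, 0, 0, 0, 524288, 13])) (.far [0, 1, 0, 0, 0, 0, 2]) (.far [0, 0, 5, 0, 0, 0, 16]) (.far [0, 3, 0, 0, 262144]) (.node [4, 5, 7]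
(.far [0, 1, 0, 0, 262144]) (.far [69, 0, 0, 0, 0, 0, 128]) (.node [4, 6, 1]
(.far [0, 0, 0, 0, 524288, 0, 3]) (.far [0, 0, 0, 0, 524288, 0, 3]) (.far [0, 0, 0, 0, 8388608, 29, 38]) (.far [0, 0, 0, 0, 8388608, 29, 38]) (.far [0, 0, 0, 0, 524288, 0, 3]) (.far [0, 0, 0, 0, 524288, 0, 3]) (.far [0, 0, 0, 0, 8388608, 29, 38]) (.far [0, 0, 0, 0, 8388608, 29, 38])) (.far [69, 0, 0, 0, 0, 0, 128]) (.far [0, 1, 0, 0, 262144]) (.far [1, 0, 0, 0, 0, 16]) (.node [4, 5, 1]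
(.far [0, 1, 0, 2]) (.node [4, 5, 6, 0]
(.node [4, 5, 6, 1]
(.far [0, 1, 0, 0, 524288]) (.node [4, 6, 7, 0]
(.far [0, 0, 0, 0, 0, 0, 0, 1]) .leaf (.node [4, 1]
(.far [0, 1, 0, 0, 2097152]) (.far [0, 0, 3, 0, 8388608]) (.far [0, 1, 0, 0, 1048576]) (.node [4, 5]
(.far [0, 5, 0, 0, 16777216]) (.far [1, 0, 0, 0, 2097152, 4]) (.far [0, 1, 0, 0, 8388608, 4]) (.far [1, 0, 0, 0, 2097152, 4]) (.far [0, 5, 0, 0, 16777216]) (.far [1, 0, 0, 0, 2097152, 4]) (.far [0, 1, 0, 0, 8388608, 4]) (.far [1, 0, 0, 0, 2097152, 4])) (.far [0, 1, 0, 0, 2097152]) (.far [0, 0, 3, 0, 8388608]) (.far [0, 1, 0, 0, 1048576]) (.node [4, 5]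
(.far [0, 5, 0, 0, 16777216]) (.far [1, 0, 0, 0, 2097152, 4]) (.far [0, 1, 0, 0, 8388608, 4]) (.far [1, 0, 0, 0, 2097152, 4]) (.far [0, 5, 0, 0, 16777216]) (.far [1, 0, 0, 0, 2097152, 4]) (.far [0, 1, 0, 0, 8388608, 4]) (.far [1, 0, 0, 0, 2097152, 4]))) (.far [1, 0, 1, 0, 0, 0, 2]) (.far [0, 0, 0, 0, 0, 0, 0, 1]) .leaf (.node [4, 5, 1]
(.far [0, 1, 0, 0, 2097152]) (.far [0, 0, 3, 0, 8388608]) (.far [0, 1, 0, 0, 1048576]) (.node [4, 6]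
(.far [0, 5, 0, 0, 16777216]) (.far [1, 0, 0, 0, 2097152, 4]) (.far [0, 1, 0, 0, 8388608, 4]) (.far [1, 0, 0, 0, 2097152, 4]) (.far [0, 5, 0, 0, 16777216]) (.far [1, 0, 0, 0, 2097152, 4]) (.far [0, 1, 0, 0, 8388608, 4]) (.far [1, 0, 0, 0, 2097152, 4])) (.far [0, 1, 0, 0, 2097152]) (.far [0, 0, 3, 0, 8388608]) (.far [0, 1, 0, 0, 1048576]) (.node [4, 5, 6]
(.far [0, 5, 0, 0, 16777216]) (.far [2, 0, 0, 0, 16777216, 0, 19]) (.far [0, 1, 0, 0, 8388608, 0, 4]) (.far [2, 0, 0, 0, 16777216, 0, 19]) (.far [0, 5, 0, 0, 16777216]) (.far [1, 0, 0, 0, 0, 16]) (.far [0, 1, 0, 0, 8388608, 0, 4]) (.far [1, 0, 0, 0, 0, 16]))) (.far [1, 0, 2])) (.far [0, 1, 0, 0, 524288]) (.node [6, 7, 0]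
(.far [0, 0, 0, 0, 32, 14, 25]) (.far [0, 0, 0, 0, 32, 14, 25]) (.far [0, 0, 0, 0, 32, 14, 25]) (.far [0, 0, 0, 0, 32, 14, 25]) (.far [0, 0, 0, 0, 8, 0, 3]) (.far [0, 0, 0, 0, 8, 0, 3]) (.far [0, 0, 0, 0, 8, 0, 3]) (.far [0, 0, 0, 0, 8, 0, 3])) (.far [0, 1, 0, 0, 524288]) (.node [4, 5, 6, 0]
(.far [0, 0, 0, 0, 0, 0, 0, 1]) .leaf (.node [4, 6, 1]
(.far [0, 1, 0, 0, 2097152]) (.far [0, 0, 5, 0, 16777216]) (.far [0, 3, 0, 0, 4194304]) (.node [4, 6]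
(.node [4, 1]
(.far [0, 0, 0, 0, 2097152, 1]) (.far [0, 0, 0, 0, 2097152, 1]) (.far [0, 0, 0, 0, 2097152, 1]) (.far [0, 0, 0, 0, 2097152, 1]) (.far [0, 0, 0, 0, 2097152, 1]) (.far [0, 0, 0, 0, 2097152, 1]) (.far [0, 0, 0, 0, 2097152, 1]) (.far [0, 0, 0, 0, 2097152, 1])) (.far [1, 0, 0, 0, 4194304, 6]) (.node [4, 5, 1]
(.far [0, 0, 0, 0, 2097152, 0, 1]) (.far [0, 0, 0, 0, 2097152, 0, 1]) (.far [0, 0, 0, 0, 67108864, 10, 27]) (.far [0, 0, 0, 0, 67108864, 10, 27]) (.far [0, 0, 0, 0, 2097152, 0, 1]) (.far [0, 0, 0, 0, 2097152, 0, 1]) (.far [0, 0, 0, 0, 67108864, 10, 27]) (.far [0, 0, 0, 0, 67108864, 10, 27])) (.far [1, 0, 0, 0, 4194304, 6]) (.node [4, 1]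
(.far [0, 0, 0, 0, 2097152, 1]) (.far [0, 0, 0, 0, 2097152, 1]) (.far [0, 0, 0, 0, 2097152, 1]) (.far [0, 0, 0, 0, 2097152, 1]) (.far [0, 0, 0, 0, 2097152, 1]) (.far [0, 0, 0, 0, 2097152, 1]) (.far [0, 0, 0, 0, 2097152, 1]) (.far [0, 0, 0, 0, 2097152, 1])) (.far [1, 0, 0, 0, 4194304, 6]) (.node [4, 5, 1]
(.far [0, 0, 0, 0, 2097152, 0, 1]) (.far [0, 0, 0, 0, 2097152, 0, 1]) (.far [0, 0, 0, 0, 67108864, 10, 27]) (.far [0, 0, 0, 0, 67108864, 10, 27]) (.far [0, 0, 0, 0, 2097152, 0, 1]) (.far [0, 0, 0, 0, 2097152, 0, 1]) (.far [0, 0, 0, 0, 67108864, 10, 27]) (.far [0, 0, 0, 0, 67108864, 10, 27])) (.far [1, 0, 0, 0, 4194304, 6])) (.far [0, 1, 0, 0, 2097152]) (.far [0, 0, 5, 0, 16777216]) (.far [0, 3, 0, 0, 4194304]) (.node [4, 5, 0]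
(.node [4, 1]
(.far [0, 0, 0, 0, 8388608, 3]) (.far [0, 0, 0, 0, 8388608, 3]) (.far [0, 0, 0, 0, 8388608, 3]) (.far [0, 0, 0, 0, 8388608, 3]) (.far [0, 0, 0, 0, 8388608, 3]) (.far [0, 0, 0, 0, 8388608, 3]) (.far [0, 0, 0, 0, 8388608, 3]) (.far [0, 0, 0, 0, 8388608, 3])) (.far [3, 0, 0, 0, 0, 32]) (.node [4, 6, 1]
(.far [0, 0, 0, 0, 8388608, 0, 3]) (.far [0, 0, 0, 0, 8388608, 0, 3]) (.far [0, 1, 0, 0, 0, 4, 2]) (.far [0, 0, 0, 22, 268435456, 267, 279]) (.far [0, 0, 0, 0, 8388608, 0, 3]) (.far [0, 0, 0, 0, 8388608, 0, 3]) (.far [0, 1, 0, 0, 0, 4, 2]) (.far [0, 0, 0, 22, 268435456, 267, 279])) (.far [3, 0, 0, 0, 0, 32]) (.node [4, 5, 1]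
(.far [0, 1, 0, 0, 8388608]) (.node [4, 5, 0]
(.far [0, 0, 0, 0, 0, 0, 1]) .leaf (.node [4, 1]
(.far [0, 0, 0, 0, 16777216, 1]) (.far [0, 0, 0, 0, 16777216, 1]) (.far [0, 0, 0, 0, 16777216, 1]) (.far [0, 0, 0, 0, 16777216, 1]) (.far [0, 0, 0, 0, 16777216, 1]) (.far [0, 0, 0, 0, 16777216, 1]) (.far [0, 0, 0, 0, 16777216, 1]) (.far [0, 0, 0, 0, 16777216, 1])) (.far [3, 0, 4]) (.far [0, 0, 0, 0, 0, 0, 1]) .leaf (.node [4, 5, 1]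
(.far [0, 1, 0, 0, 67108864]) (.far [0, 0, 1, 0, 134217728]) (.far [0, 1, 0, 1, 16777216]) (.node [4, 5, 6, 0]
(.node [4, 1]
(.far [0, 0, 0, 0, 67108864, 1]) (.far [0, 0, 0, 0, 67108864, 1]) (.far [0, 0, 0, 0, 67108864, 1]) (.far [0, 0, 0, 0, 67108864, 1]) (.far [0, 0, 0, 0, 67108864, 1]) (.far [0, 0, 0, 0, 67108864, 1]) (.far [0, 0, 0, 0, 67108864, 1]) (.far [0, 0, 0, 0, 67108864, 1])) (.far [5, 0, 0, 0, 0, 1024]) (.node [4, 5, 7, 1]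
(.far [0, 0, 0, 0, 2147483648, 0, 0, 37]) (.far [0, 0, 0, 0, 2147483648, 0, 0, 37]) (.far [0, 3, 0, 0, 0, 0, 16, 6]) (.node [4, 7, 0]
(.far [0, 0, 0, 0, 536870912, 11]) (.far [0, 0, 0, 0, 536870912, 11]) (.far [0, 0, 8, 0, 2147483648, 117, 57]) (.far [1, 0, 0, 0, 67108864, 4, 1]) (.far [0, 0, 0, 0, 536870912, 11]) (.far [0, 0, 0, 0, 536870912, 11]) (.far [0, 0, 8, 0, 2147483648, 117, 57]) (.far [1, 0, 0, 0, 67108864, 4, 1])) (.far [0, 0, 0, 0, 2147483648, 0, 0, 37]) (.far [0, 0, 0, 0, 2147483648, 0, 0, 37]) (.far [0, 3, 0, 0, 0, 0, 16, 6]) (.node [4, 5, 7, 0]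
(.far [0, 0, 0, 0, 268435456, 0, 7, 2]) (.far [0, 0, 0, 0, 268435456, 0, 7, 2]) (.far [0, 0, 11, 0, 4294967296, 0, 233, 122]) (.far [1, 0, 0, 0, 134217728, 0, 7, 2]) (.far [0, 0, 0, 0, 536870912, 0, 11]) (.far [0, 0, 0, 0, 536870912, 0, 11]) (.far [0, 0, 0, 95, 0, 65536]) (.far [1, 0, 0, 0, 67108864, 0, 4]))) (.far [5, 0, 0, 0, 0, 1024]) (.node [4, 5, 1]
(.far [0, 1, 0, 0, 134217728]) (.node [4, 5, 0]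
(.far [0, 0, 0, 0, 0, 0, 1]) .leaf (.node [4, 5, 1]
(.far [0, 1, 0, 0, 536870912]) (.far [0, 0, 11, 0, 8589934592]) (.far [0, 3, 0, 0, 1073741824]) (.node [4, 6]
(.node [4, 1]
(.far [0, 0, 0, 0, 536870912, 1]) (.far [0, 0, 0, 0, 536870912, 1]) (.far [0, 0, 0, 0, 536870912, 1]) (.far [0, 0, 0, 0, 536870912, 1]) (.far [0, 0, 0, 0, 536870912, 1]) (.far [0, 0, 0, 0, 536870912, 1]) (.far [0, 0, 0, 0, 536870912, 1]) (.far [0, 0, 0, 0, 536870912, 1])) (.far [1, 0, 0, 0, 1073741824, 7]) (.node [4, 1]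
(.far [0, 0, 0, 0, 536870912, 1]) (.far [0, 0, 0, 0, 536870912, 1]) (.far [0, 0, 0, 0, 2147483648, 5]) (.far [0, 0, 0, 0, 2147483648, 5]) (.far [0, 0, 0, 0, 536870912, 1]) (.far [0, 0, 0, 0, 536870912, 1]) (.far [0, 0, 0, 0, 2147483648, 5]) (.far [0, 0, 0, 0, 2147483648, 5])) (.far [1, 0, 0, 0, 1073741824, 7]) (.node [4, 1]
(.far [0, 0, 0, 0, 536870912, 1]) (.far [0, 0, 0, 0, 536870912, 1]) (.far [0, 0, 0, 0, 536870912, 1]) (.far [0, 0, 0, 0, 536870912, 1]) (.far [0, 0, 0, 0, 536870912, 1]) (.far [0, 0, 0, 0, 536870912, 1]) (.far [0, 0, 0, 0, 536870912, 1]) (.far [0, 0, 0, 0, 536870912, 1])) (.far [1, 0, 0, 0, 1073741824, 7]) (.node [4, 1]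
(.far [0, 0, 0, 0, 536870912, 1]) (.far [0, 0, 0, 0, 536870912, 1]) (.far [0, 0, 0, 0, 2147483648, 5]) (.far [0, 0, 0, 0, 2147483648, 5]) (.far [0, 0, 0, 0, 536870912, 1]) (.far [0, 0, 0, 0, 536870912, 1]) (.far [0, 0, 0, 0, 2147483648, 5]) (.far [0, 0, 0, 0, 2147483648, 5])) (.far [1, 0, 0, 0, 1073741824, 7])) (.far [0, 1, 0, 0, 536870912]) (.far [0, 0, 11, 0, 8589934592]) (.far [0, 3, 0, 0, 1073741824]) (.node [4, 5, 6]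
(.node [4, 1]
(.far [0, 0, 0, 0, 4294967296, 7]) (.far [0, 0, 0, 0, 4294967296, 7]) (.far [0, 0, 0, 0, 4294967296, 7]) (.far [0, 0, 0, 0, 4294967296, 7]) (.far [0, 0, 0, 0, 4294967296, 7]) (.far [0, 0, 0, 0, 4294967296, 7]) (.far [0, 0, 0, 0, 4294967296, 7]) (.far [0, 0, 0, 0, 4294967296, 7])) (.far [9, 0, 0, 0, 0, 0, 16]) (.node [4, 6, 1]
(.far [0, 0, 0, 0, 4294967296, 0, 7]) (.far [0, 0, 0, 0, 4294967296, 0, 7]) (.far [0, 0, 0, 0, 68719476736, 87, 71]) (.far [0, 0, 0, 0, 68719476736, 87, 71]) (.far [0, 0, 0, 0, 4294967296, 0, 7]) (.far [0, 0, 0, 0, 4294967296, 0, 7]) (.far [0, 0, 0, 0, 68719476736, 87, 71]) (.far [0, 0, 0, 0, 68719476736, 87, 71])) (.far [9, 0, 0, 0, 0, 0, 16]) .leaf (.far [1, 0, 0, 0, 0, 4096]) (.node [4, 5, 6, 1]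
(.far [0, 1, 0, 1, 536870912]) (.node [5, 6, 0]
(.node [5, 6]
(.far [0, 1, 0, 0, 0, 2]) (.far [7, 0, 0, 0, 128, 19]) (.far [0, 3, 0, 0, 64, 28]) (.far [7, 0, 0, 0, 128, 19]) (.far [0, 1, 0, 0, 0, 2]) (.far [1, 0, 0, 0, 8]) (.far [0, 3, 0, 0, 64, 28]) (.far [1, 0, 0, 0, 8])) (.far [11, 0, 0, 0, 65536]) (.node [5, 6]
(.far [0, 2, 0, 0, 16, 11]) (.far [7, 0, 0, 0, 128, 19]) (.far [0, 2, 0, 0, 16, 11]) (.far [7, 0, 0, 0, 128, 19]) (.far [0, 2, 0, 0, 16, 11]) (.far [1, 0, 0, 0, 8]) (.far [0, 2, 0, 0, 16, 11]) (.far [1, 0, 0, 0, 8])) (.far [11, 0, 0, 0, 65536]) (.far [0, 0, 0, 1, 0, 8]) (.far [1, 0, 0, 0, 8192]) (.far [0, 0, 0, 1, 0, 8]) (.far [1, 0, 0, 0, 8192])) (.far [0, 1, 0, 1, 536870912]) (.node [5, 6, 0]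
(.node [5, 6]
(.far [0, 2, 0, 0, 8, 7]) (.far [7, 0, 0, 0, 128, 19]) (.far [0, 2, 0, 0, 8, 7]) (.far [7, 0, 0, 0, 128, 19]) (.far [0, 2, 0, 0, 8, 7]) (.far [1, 0, 0, 0, 8]) (.far [0, 2, 0, 0, 8, 7]) (.far [1, 0, 0, 0, 8])) (.far [11, 0, 0, 0, 65536]) (.node [5, 6]
(.far [0, 2, 0, 0, 8, 7]) (.far [7, 0, 0, 0, 128, 19]) (.far [0, 2, 0, 0, 8, 7]) (.far [7, 0, 0, 0, 128, 19]) (.far [0, 2, 0, 0, 8, 7]) (.far [1, 0, 0, 0, 8]) (.far [0, 2, 0, 0, 8, 7]) (.far [1, 0, 0, 0, 8])) (.far [11, 0, 0, 0, 65536]) (.far [0, 0, 0, 1, 0, 8]) (.far [1, 0, 0, 0, 8192]) (.far [0, 0, 0, 1, 0, 8]) (.far [1, 0, 0, 0, 8192])) .leaf (.far [0, 0, 0, 0, 0, 0, 0, 1]) .leaf (.far [0, 0, 0, 0, 0, 0, 0, 1])) (.far [1, 0, 0, 0, 0, 4096]))) (.far [3, 0, 4]) (.far [0, 0, 0, 0, 0, 0, 1]) .leaf (.node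 [5, 1, 3]
(.far [0, 1, 0, 0, 0, 0, 2]) (.far [11, 0, 0, 0, 65536]) (.far [0, 2, 0, 2, 0, 0, 1]) (.far [11, 0, 0, 0, 65536]) .leaf (.far [0, 0, 0, 0, 0, 1]) .leaf (.far [0, 0, 0, 0, 0, 1])) (.far [1, 0, 0, 0, 0, 2048])) (.far [0, 1, 0, 1, 67108864]) (.node [5, 0]
(.node [4, 5]
(.far [0, 0, 0, 0, 16384, 31]) (.far [0, 0, 0, 0, 16384, 31]) (.far [0, 0, 0, 0, 16384, 31]) (.far [0, 0, 0, 0, 16384, 31]) (.far [0, 0, 0, 0, 16384, 31]) (.far [0, 0, 0, 0, 16384, 31]) (.far [0, 0, 0, 0, 16384, 31]) (.far [0, 0, 0, 0, 16384, 31])) (.far [1, 0, 0, 0, 512]) (.node [4, 5]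
(.far [0, 0, 0, 0, 16384, 31]) (.far [0, 0, 0, 0, 16384, 31]) (.far [0, 0, 0, 0, 16384, 31]) (.far [0, 0, 0, 0, 16384, 31]) (.far [0, 0, 0, 0, 16384, 31]) (.far [0, 0, 0, 0, 16384, 31]) (.far [0, 0, 0, 0, 16384, 31]) (.far [0, 0, 0, 0, 16384, 31])) (.far [1, 0, 0, 0, 512]) (.far [0, 0, 0, 1, 1024]) (.far [1, 0, 0, 0, 1024]) (.far [0, 0, 0, 1, 1024]) (.far [1, 0, 0, 0, 1024])) .leaf (.far [0, 0, 0, 0, 0, 0, 1]) .leaf (.far [0, 0, 0, 0, 0, 0, 1])) (.far [1, 0, 0, 0, 0, 256]) (.node [5, 6, 1, 3]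
(.far [0, 1, 0, 0, 256, 0, 0, 2]) (.node [4, 5, 0]
(.far [0, 0, 0, 1, 0, 16, 4]) (.far [1, 0, 0, 0, 512]) (.far [0, 0, 0, 1, 0, 16, 4]) (.far [1, 0, 0, 0, 512]) (.far [0, 0, 0, 1, 1024]) (.far [1, 0, 0, 0, 512]) (.far [0, 0, 0, 1, 1024]) (.far [1, 0, 0, 0, 512])) (.far [0, 1, 0, 0, 256, 0, 0, 2]) (.node [4, 5, 0]
(.far [0, 0, 0, 1, 0, 16, 4]) (.far [1, 0, 0, 0, 512]) (.far [0, 0, 0, 1, 0, 16, 4]) (.far [1, 0, 0, 0, 512]) (.far [0, 0, 0, 1, 1024]) (.far [1, 0, 0, 0, 512]) (.far [0, 0, 0, 1, 1024]) (.far [1, 0, 0, 0, 512])) .leaf (.far [0, 0, 0, 0, 0, 0, 1]) .leaf (.far [0, 0, 0, 0, 0, 0, 1])) (.far [1, 0, 0, 0, 0, 256])) .leaf (.far [0, 0, 0, 0, 0, 0, 1]) .leaf (.far [0, 0, 0, 0, 0, 0, 1])) (.far [1, 0, 0, 0, 0, 128])) (.far [0, 1, 0, 1, 4194304]) (.node [4, 5, 0]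
(.node [4, 5, 6]
(.far [0, 1, 0, 0, 16777216]) (.far [1, 0, 0, 0, 0, 256, 6]) (.far [0, 275, 0, 0, 0, 0, 512]) (.far [1, 0, 0, 0, 0, 256, 6]) (.far [0, 1, 0, 0, 16777216]) (.far [3, 0, 0, 0, 0, 256]) (.far [0, 275, 0, 0, 0, 0, 512]) (.far [3, 0, 0, 0, 0, 256])) (.far [1, 0, 0, 0, 0, 32]) (.node [5, 6]
(.far [0, 275, 0, 0, 0, 512]) (.far [1, 0, 0, 0, 256, 6]) (.far [0, 275, 0, 0, 0, 512]) (.far [1, 0, 0, 0, 256, 6]) (.far [0, 275, 0, 0, 0, 512]) (.far [3, 0, 0, 0, 256]) (.far [0, 275, 0, 0, 0, 512]) (.far [3, 0, 0, 0, 256])) (.far [1, 0, 0, 0, 0, 32]) (.far [0, 0, 0, 1, 0, 64]) (.far [1, 0, 0, 0, 0, 32]) (.far [0, 0, 0, 1, 0, 64]) (.far [1, 0, 0, 0, 0, 32])) .leaf (.far [0, 0, 0, 0, 0, 0, 1]) .leaf (.far [0, 0, 0, 0, 0, 0, 1])) (.far [1, 0, 0, 0, 0, 16]) (.node [4,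 5, 1]
(.far [0, 1, 0, 1, 2097152]) (.node [5, 0]
(.far [0, 0, 0, 1, 128, 5]) (.far [1, 0, 0, 0, 32]) (.far [0, 0, 0, 1, 128, 5]) (.far [1, 0, 0, 0, 32]) (.far [0, 0, 0, 1, 64]) (.far [1, 0, 0, 0, 32]) (.far [0, 0, 0, 1, 64]) (.far [1, 0, 0, 0, 32])) (.far [0, 1, 0, 1, 2097152]) (.node [5, 0]
(.far [0, 0, 0, 1, 128, 5]) (.far [1, 0, 0, 0, 32]) (.far [0, 0, 0, 1, 128, 5]) (.far [1, 0, 0, 0, 32]) (.far [0, 0, 0, 1, 64]) (.far [1, 0, 0, 0, 32]) (.far [0, 0, 0, 1, 64]) (.far [1, 0, 0, 0, 32])) .leaf (.far [0, 0, 0, 0, 0, 0, 1]) .leaf (.far [0, 0, 0, 0, 0, 0, 1])) (.far [1, 0, 0, 0, 0, 16]))) (.far [1, 0, 2]) (.far [0, 0, 0, 0, 0, 0, 0, 1]) .leaf (.far [0, 0, 0, 15, 0, 0, 256]) (.far [1, 0, 0, 0, 0, 128])) (.far [0, 1, 0, 0, 524288]) (.node [6, 0]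
(.far [0, 0, 0, 0, 8, 3]) (.far [0, 0, 0, 0, 8, 3]) (.far [0, 0, 0, 0, 8, 3]) (.far [0, 0, 0, 0, 8, 3]) (.far [0, 0, 0, 0, 8, 3]) (.far [0, 0, 0, 0, 8, 3]) (.far [0, 0, 0, 0, 8, 3]) (.far [0, 0, 0, 0, 8, 3]))) (.far [5, 0, 0, 0, 0, 0, 8]) (.node [6, 7]
(.far [0, 35, 0, 0, 0, 64]) (.node [4, 0]
(.far [0, 0, 0, 0, 64, 35]) (.far [0, 0, 0, 0, 64, 35]) (.far [0, 0, 0, 0, 64, 35]) (.far [0, 0, 0, 0, 64, 35]) (.far [0, 0, 0, 0, 2, 1]) (.far [0, 0, 0, 0, 2, 1]) (.far [0, 0, 0, 0, 2, 1]) (.far [0, 0, 0, 0, 2, 1])) (.far [0, 35, 0, 0, 0, 64]) (.node [4, 0]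
(.far [0, 0, 0, 0, 64, 35]) (.far [0, 0, 0, 0, 64, 35]) (.far [0, 0, 0, 0, 64, 35]) (.far [0, 0, 0, 0, 64, 35]) (.far [0, 0, 0, 0, 2, 1]) (.far [0, 0, 0, 0, 2, 1]) (.far [0, 0, 0, 0, 2, 1]) (.far [0, 0, 0, 0, 2, 1])) (.far [0, 35, 0, 0, 0, 64]) (.node [4, 0]
(.far [0, 0, 0, 0, 2, 1]) (.far [0, 0, 0, 0, 2, 1]) (.far [0, 0, 0, 0, 2, 1]) (.far [0, 0, 0, 0, 2, 1]) (.far [0, 0, 0, 0, 2, 1]) (.far [0, 0, 0, 0, 2, 1]) (.far [0, 0, 0, 0, 2, 1]) (.far [0, 0, 0, 0, 2, 1])) (.far [0, 35, 0, 0, 0, 64]) (.node [4, 0]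
(.far [0, 0, 0, 0, 2, 1]) (.far [0, 0, 0, 0, 2, 1]) (.far [0, 0, 0, 0, 2, 1]) (.far [0, 0, 0, 0, 2, 1]) (.far [0, 0, 0, 0, 2, 1]) (.far [0, 0, 0, 0, 2, 1]) (.far [0, 0, 0, 0, 2, 1]) (.far [0, 0, 0, 0, 2, 1]))) (.far [5, 0, 0, 0, 0, 0, 8]) (.far [0, 0, 0, 0, 4194304, 0, 19]) (.far [0, 0, 0, 0, 4194304, 0, 19]) (.far [0, 0, 0, 1, 16777216, 0, 78]) (.far [1, 0, 0, 0, 8388608, 0, 41])) (.far [0, 1, 0, 2]) (.node [4, 6, 0]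
(.node [5, 6]
(.far [0, 35, 0, 0, 0, 64]) (.node [4, 0]
(.far [0, 0, 0, 0, 16, 9]) (.far [0, 0, 0, 0, 16, 9]) (.far [0, 0, 0, 0, 16, 9]) (.far [0, 0, 0, 0, 16, 9]) (.far [0, 0, 0, 0, 2, 1]) (.far [0, 0, 0, 0, 2, 1]) (.far [0, 0, 0, 0, 2, 1]) (.far [0, 0, 0, 0, 2, 1])) (.far [0, 35, 0, 0, 0, 64]) (.node [4, 0]
(.far [0, 0, 0, 0, 16, 9]) (.far [0, 0, 0, 0, 16, 9]) (.far [0, 0, 0, 0, 16, 9]) (.far [0, 0, 0, 0, 16, 9]) (.far [0, 0, 0, 0, 2, 1]) (.far [0, 0, 0, 0, 2, 1]) (.far [0, 0, 0, 0, 2, 1]) (.far [0, 0, 0, 0, 2, 1])) (.far [0, 35, 0, 0, 0, 64]) (.node [4, 0]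
(.far [0, 0, 0, 0, 2, 1]) (.far [0, 0, 0, 0, 2, 1]) (.far [0, 0, 0, 0, 2, 1]) (.far [0, 0, 0, 0, 2, 1]) (.far [0, 0, 0, 0, 2, 1]) (.far [0, 0, 0, 0, 2, 1]) (.far [0, 0, 0, 0, 2, 1]) (.far [0, 0, 0, 0, 2, 1])) (.far [0, 35, 0, 0, 0, 64]) (.node [4, 0]
(.far [0, 0, 0, 0, 2, 1]) (.far [0, 0, 0, 0, 2, 1]) (.far [0, 0, 0, 0, 2, 1]) (.far [0, 0, 0, 0, 2, 1]) (.far [0, 0, 0, 0, 2, 1]) (.far [0, 0, 0, 0, 2, 1]) (.far [0, 0, 0, 0, 2, 1]) (.far [0, 0, 0, 0, 2, 1]))) (.far [5, 0, 0, 0, 0, 8]) (.node [5, 6]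
(.far [0, 35, 0, 0, 0, 64]) (.node [4, 0]
(.far [0, 0, 0, 0, 16, 9]) (.far [0, 0, 0, 0, 16, 9]) (.far [0, 0, 0, 0, 16, 9]) (.far [0, 0, 0, 0, 16, 9]) (.far [0, 0, 0, 0, 2, 1]) (.far [0, 0, 0, 0, 2, 1]) (.far [0, 0, 0, 0, 2, 1]) (.far [0, 0, 0, 0, 2, 1])) (.far [0, 35, 0, 0, 0, 64]) (.node [4, 0]
(.far [0, 0, 0, 0, 16, 9]) (.far [0, 0, 0, 0, 16, 9]) (.far [0, 0, 0, 0, 16, 9]) (.far [0, 0, 0, 0, 16, 9]) (.far [0, 0, 0, 0, 2, 1]) (.far [0, 0, 0, 0, 2, 1]) (.far [0, 0, 0, 0, 2, 1]) (.far [0, 0, 0, 0, 2, 1])) (.far [0, 35, 0, 0, 0, 64]) (.node [4, 0]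
(.far [0, 0, 0, 0, 2, 1]) (.far [0, 0, 0, 0, 2, 1]) (.far [0, 0, 0, 0, 2, 1]) (.far [0, 0, 0, 0, 2, 1]) (.far [0, 0, 0, 0, 2, 1]) (.far [0, 0, 0, 0, 2, 1]) (.far [0, 0, 0, 0, 2, 1]) (.far [0, 0, 0, 0, 2, 1])) (.far [0, 35, 0, 0, 0, 64]) (.node [4, 0]
(.far [0, 0, 0, 0, 2, 1]) (.far [0, 0, 0, 0, 2, 1]) (.far [0, 0, 0, 0, 2, 1]) (.far [0, 0, 0, 0, 2, 1]) (.far [0, 0, 0, 0, 2, 1]) (.far [0, 0, 0, 0, 2, 1]) (.far [0, 0, 0, 0, 2, 1]) (.far [0, 0, 0, 0, 2, 1]))) (.far [5, 0, 0, 0, 0, 8]) (.far [0, 0, 0, 1, 4194304, 22]) (.far [1, 0, 0, 0, 2097152, 12]) (.far [0, 0, 0, 1, 1048576, 8]) (.far [1, 0, 0, 0, 262144, 3])) .leaf (.far [0, 0, 0, 0, 0, 0, 1]) .leaf (.far [0, 0, 0, 0, 0, 0, 1])) (.far [1, 0, 0, 0, 0, 16]))) (.far [1, 0, 2])) (.far [0, 13, 0, 0, 524288]) (.node [5,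 6, 0]
(.far [0, 0, 0, 0, 16, 8, 13]) (.far [0, 0, 0, 0, 16, 8, 13]) (.far [0, 0, 0, 0, 16, 8, 13]) (.far [0, 0, 0, 0, 16, 8, 13]) (.far [0, 0, 0, 0, 8, 0, 3]) (.far [0, 0, 0, 0, 8, 0, 3]) (.far [0, 0, 0, 0, 8, 0, 3]) (.far [0, 0, 0, 0, 8, 0, 3])) (.far [0, 1, 0, 0, 65536]) (.far [15, 0, 0, 0, 0, 64]) (.far [0, 13, 0, 0, 524288]) (.far [15, 0, 0, 0, 0, 64])) (.far [27, 0, 0, 0, 0, 0, 128]) (.node [7, 8]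
(.far [0, 3, 0, 0, 12, 16]) (.node [4, 5, 0]
(.far [0, 0, 0, 0, 16, 3, 6]) (.far [0, 0, 0, 0, 16, 3, 6]) (.far [0, 0, 0, 0, 16, 3, 6]) (.far [0, 0, 0, 0, 16, 3, 6]) (.far [0, 0, 0, 0, 2, 0, 1]) (.far [0, 0, 0, 0, 2, 0, 1]) (.far [0, 0, 0, 0, 2, 0, 1]) (.far [0, 0, 0, 0, 2, 0, 1])) (.far [0, 3, 0, 0, 12, 16]) (.node [4, 5, 0]
(.far [0, 0, 0, 0, 16, 3, 6]) (.far [0, 0, 0, 0, 16, 3, 6]) (.far [0, 0, 0, 0, 16, 3, 6]) (.far [0, 0, 0, 0, 16, 3, 6]) (.far [0, 0, 0, 0, 2, 0, 1]) (.far [0, 0, 0, 0, 2, 0, 1]) (.far [0, 0, 0, 0, 2, 0, 1]) (.far [0, 0, 0, 0, 2, 0, 1])) (.far [0, 3, 0, 0, 12, 16]) (.far [15, 0, 0, 0, 64]) (.far [0, 3, 0, 0, 12, 16]) (.far [15, 0, 0, 0, 64])) (.far [27, 0, 0, 0, 0, 0, 128]) (.far [0, 0, 0, 1, 0, 0, 0, 4]) (.far [1, 0, 0, 0, 0, 1024]) (.far [0,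 0, 0, 1, 0, 0, 0, 4]) (.far [1, 0, 0, 0, 0, 1024])) .leaf (.far [0, 0, 0, 0, 0, 0, 0, 1]) .leaf (.far [0, 0, 0, 0, 0, 0, 0, 1])) (.far [1, 0, 0, 0, 0, 256]) (.node [4, 5, 6, 1]
(.far [0, 1, 0, 1, 8192]) (.node [5, 6, 7, 0]
(.node [5, 6, 7]
(.far [0, 1, 0, 0, 0, 0, 2]) (.node [5, 0]
(.far [0, 0, 0, 0, 0, 1]) .leaf (.node [4, 5, 1]
(.far [0, 1, 0, 0, 0, 2]) (.far [0, 0, 5, 0, 0, 16]) (.far [0, 5, 0, 0, 0, 8]) (.node [4, 5, 6]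
(.far [0, 0, 0, 0, 2048, 1401, 566]) (.far [0, 0, 0, 0, 2048, 1401, 566]) (.far [0, 0, 0, 0, 2048, 1401, 566]) (.far [0, 0, 0, 0, 2048, 1401, 566]) (.far [0, 0, 0, 0, 16, 7, 2]) (.far [0, 0, 0, 0, 16, 7, 2]) (.far [0, 0, 0, 0, 16, 7, 2]) (.far [0, 0, 0, 0, 16, 7, 2])) (.far [0, 0, 0, 0, 8, 3]) (.far [0, 0, 0, 0, 8, 3]) (.far [0, 0, 0, 0, 16, 6, 1]) (.far [0, 0, 0, 0, 16, 6, 1])) (.far [1, 0, 2]) (.far [0, 0, 0, 0, 0, 1]) .leaf (.far [0, 0, 0, 0, 64, 19]) (.far [0, 0, 0, 0, 64, 19])) (.far [0, 6, 0, 0, 0, 64, 63]) (.node [4, 6, 0]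
(.far [0, 0, 0, 0, 32, 3, 4]) (.far [0, 0, 0, 0, 32, 3, 4]) (.far [0, 0, 0, 0, 32, 3, 4]) (.far [0, 0, 0, 0, 32, 3, 4]) (.far [0, 0, 0, 0, 8, 0, 1]) (.far [0, 0, 0, 0, 8, 0, 1]) (.far [0, 0, 0, 0, 8, 0, 1]) (.far [0, 0, 0, 0, 8, 0, 1])) (.far [0, 1, 0, 0, 0, 0, 2]) (.far [7, 0, 0, 0, 64]) (.far [0, 6, 0, 0, 0, 64, 63]) (.far [7, 0, 0, 0, 64])) (.far [15, 0, 0, 0, 8192]) (.node [5, 7]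
(.far [0, 2, 0, 0, 16, 11]) (.node [4, 0]
(.far [0, 0, 0, 0, 4, 1]) (.far [0, 0, 0, 0, 4, 1]) (.far [0, 0, 0, 0, 4, 1]) (.far [0, 0, 0, 0, 4, 1]) (.far [0, 0, 0, 0, 4, 1]) (.far [0, 0, 0, 0, 4, 1]) (.far [0, 0, 0, 0, 4, 1]) (.far [0, 0, 0, 0, 4, 1])) (.far [0, 2, 0, 0, 16, 11]) (.node [4, 0]
(.far [0, 0, 0, 0, 4, 1]) (.far [0, 0, 0, 0, 4, 1]) (.far [0, 0, 0, 0, 4, 1]) (.far [0, 0, 0, 0, 4, 1]) (.far [0, 0, 0, 0, 4, 1]) (.far [0, 0, 0, 0, 4, 1]) (.far [0, 0, 0, 0, 4, 1]) (.far [0, 0, 0, 0, 4, 1])) (.far [0, 2, 0, 0, 16, 11]) (.far [7, 0, 0, 0, 64]) (.far [0, 2, 0, 0, 16, 11]) (.far [7, 0, 0, 0, 64])) (.far [15, 0, 0, 0, 8192]) (.far [0, 0, 0, 5, 0, 32]) (.far [1, 0, 0, 0, 1024]) (.far [0, 0, 0, 5, 0, 32]) (.far [1, 0, 0, 0, 1024])) (.far [0, 1, 0, 1, 8192]) (.node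 [5, 6, 0]
(.node [5, 6]
(.far [0, 2, 0, 0, 8, 7]) (.node [4, 0]
(.far [0, 0, 0, 0, 4, 1]) (.far [0, 0, 0, 0, 4, 1]) (.far [0, 0, 0, 0, 4, 1]) (.far [0, 0, 0, 0, 4, 1]) (.far [0, 0, 0, 0, 4, 1]) (.far [0, 0, 0, 0, 4, 1]) (.far [0, 0, 0, 0, 4, 1]) (.far [0, 0, 0, 0, 4, 1])) (.far [0, 2, 0, 0, 8, 7]) (.node [4, 0]
(.far [0, 0, 0, 0, 4, 1]) (.far [0, 0, 0, 0, 4, 1]) (.far [0, 0, 0, 0, 4, 1]) (.far [0, 0, 0, 0, 4, 1]) (.far [0, 0, 0, 0, 4, 1]) (.far [0, 0, 0, 0, 4, 1]) (.far [0, 0, 0, 0, 4, 1]) (.far [0, 0, 0, 0, 4, 1])) (.far [0, 2, 0, 0, 8, 7]) (.far [7, 0, 0, 0, 64]) (.far [0, 2, 0, 0, 8, 7]) (.far [7, 0, 0, 0, 64])) (.far [15, 0, 0, 0, 8192]) (.node [5, 6]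
(.far [0, 2, 0, 0, 8, 7]) (.node [4, 0]
(.far [0, 0, 0, 0, 4, 1]) (.far [0, 0, 0, 0, 4, 1]) (.far [0, 0, 0, 0, 4, 1]) (.far [0, 0, 0, 0, 4, 1]) (.far [0, 0, 0, 0, 4, 1]) (.far [0, 0, 0, 0, 4, 1]) (.far [0, 0, 0, 0, 4, 1]) (.far [0, 0, 0, 0, 4, 1])) (.far [0, 2, 0, 0, 8, 7]) (.node [4, 0]
(.far [0, 0, 0, 0, 4, 1]) (.far [0, 0, 0, 0, 4, 1]) (.far [0, 0, 0, 0, 4, 1]) (.far [0, 0, 0, 0, 4, 1]) (.far [0, 0, 0, 0, 4, 1]) (.far [0, 0, 0, 0, 4, 1]) (.far [0, 0, 0, 0, 4, 1]) (.far [0, 0, 0, 0, 4, 1])) (.far [0, 2, 0, 0, 8, 7]) (.far [7, 0, 0, 0, 64]) (.far [0, 2, 0, 0, 8, 7]) (.far [7, 0, 0, 0, 64])) (.far [15, 0, 0, 0, 8192]) (.far [0, 0, 0, 5, 0, 32]) (.far [1, 0, 0, 0, 1024]) (.far [0, 0, 0, 5, 0, 32]) (.far [1, 0, 0, 0, 1024])) .leaf (.far [0, 0, 0, 0, 0, 0, 0, 1]) .leaf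 (.far [0, 0, 0, 0, 0, 0, 0, 1])) (.far [1, 0, 0, 0, 0, 256]))) (.far [3, 0, 4]) (.far [0, 0, 0, 0, 0, 0, 1]) .leaf (.node [4, 5, 1]
(.far [0, 3, 0, 0, 65536]) (.far [15, 0, 0, 0, 0, 8192]) (.far [0, 1, 0, 1, 8192]) (.far [15, 0, 0, 0, 0, 8192]) .leaf (.far [0, 0, 0, 0, 0, 0, 1]) .leaf (.far [0, 0, 0, 0, 0, 0, 1])) (.far [1, 0, 0, 0, 0, 128])) (.far [0, 1, 0, 1, 1024]) (.node [5, 0]
(.far [0, 0, 0, 49, 16384, 285]) (.far [1, 0, 0, 0, 64]) (.far [0, 0, 0, 49, 16384, 285]) (.far [1, 0, 0, 0, 64]) (.far [0, 0, 0, 1, 128]) (.far [1, 0, 0, 0, 64]) (.far [0, 0, 0, 1, 128]) (.far [1, 0, 0, 0, 64])) .leaf (.far [0, 0, 0, 0, 0, 0, 1]) .leaf (.far [0, 0, 0, 0, 0, 0, 1])) (.far [1, 0, 0, 0, 0, 32]) (.node [5, 1, 3]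
(.far [0, 7, 0, 0, 512, 0, 24]) (.node [4, 0]
(.far [0, 0, 3, 0, 1024, 26]) (.far [1, 0, 0, 0, 32]) (.far [0, 0, 3, 0, 1024, 26]) (.far [1, 0, 0, 0, 32]) (.far [0, 0, 0, 1, 64]) (.far [1, 0, 0, 0, 64]) (.far [0, 0, 0, 1, 64]) (.far [1, 0, 0, 0, 64])) (.far [0, 7, 0, 0, 512, 0, 24]) (.node [4, 0]
(.far [0, 0, 3, 0, 1024, 26]) (.far [1, 0, 0, 0, 32]) (.far [0, 0, 3, 0, 1024, 26]) (.far [1, 0, 0, 0, 32]) (.far [0, 0, 0, 1, 64]) (.far [1, 0, 0, 0, 64]) (.far [0, 0, 0, 1, 64]) (.far [1, 0, 0, 0, 64])) .leaf (.far [0, 0, 0, 0, 0, 1]) .leaf (.far [0, 0, 0, 0, 0, 1])) (.far [1, 0, 0, 0, 0, 32]))) (.far [3, 0, 4]) (.far [0, 0, 0, 0, 0, 0, 1]) .leaf (.far [0, 0, 0, 1, 0, 32]) (.far [1, 0, 0, 0, 0, 16])) (.far [0, 1, 0, 1, 128]) (.node [5, 6, 0]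
(.far [0, 0, 0, 2, 0, 64, 13]) (.far [1, 0, 0, 0, 0, 4]) (.far [0, 0, 0, 2, 0, 64, 13]) (.far [1, 0, 0, 0, 0, 4]) (.far [0, 0, 0, 1, 0, 8]) (.far [1, 0, 0, 0, 64]) (.far [0, 0, 0, 1, 0, 8]) (.far [1, 0, 0, 0, 64])) .leaf (.far [0, 0, 0, 0, 0, 0, 0, 1]) .leaf (.far [0, 0, 0, 0, 0, 0, 0, 1])) (.far [1, 0, 0, 0, 0, 16]) (.node [5, 6, 1, 3]
(.far [0, 1, 0, 0, 0, 4, 0, 3]) (.node [4, 5, 0]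
(.far [0, 0, 1, 0, 0, 32, 10]) (.far [5, 0, 0, 0, 128]) (.far [0, 0, 1, 0, 0, 32, 10]) (.far [5, 0, 0, 0, 128]) (.far [0, 0, 0, 1, 0, 8]) (.far [1, 0, 0, 0, 32]) (.far [0, 0, 0, 1, 0, 8]) (.far [1, 0, 0, 0, 32])) (.far [0, 1, 0, 0, 0, 4, 0, 3]) (.node [4, 5, 0]
(.far [0, 0, 1, 0, 0, 32, 10]) (.far [5, 0, 0, 0, 128]) (.far [0, 0, 1, 0, 0, 32, 10]) (.far [5, 0, 0, 0, 128]) (.far [0, 0, 0, 1, 0, 8]) (.far [1, 0, 0, 0, 32]) (.far [0, 0, 0, 1, 0, 8]) (.far [1, 0, 0, 0, 32])) .leaf (.far [0, 0, 0, 0, 0, 0, 1]) .leaf (.far [0, 0, 0, 0, 0, 0, 1])) (.far [1, 0, 0, 0, 0, 16])) .leaf (.far [0, 0, 0, 0, 0, 0, 1]) .leaf (.far [0, 0, 0, 0, 0, 0, 1])) (.far [1, 0, 0, 0, 0, 4])) (.far [0, 1, 0, 1, 4]) (.node [4, 5, 6, 0]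
(.node [4, 6, 7]
(.far [0, 1, 0, 0, 32]) (.node [5, 0]
(.far [0, 0, 0, 0, 0, 1]) .leaf (.node [4, 5, 1]
(.far [0, 1, 0, 0, 0, 2]) (.far [0, 0, 5, 0, 0, 16]) (.far [0, 5, 0, 0, 0, 8]) (.node [4, 5, 6]
(.far [0, 3, 0, 0, 32, 19]) (.far [2, 0, 0, 0, 0, 5, 8]) (.far [0, 4, 0, 0, 128, 83, 22]) (.far [2, 0, 0, 0, 0, 5, 8]) (.far [0, 0, 0, 0, 16, 7, 2]) (.far [0, 0, 0, 0, 16, 7, 2]) (.far [0, 0, 0, 0, 16, 7, 2]) (.far [0, 0, 0, 0, 16, 7, 2])) (.far [0, 0, 0, 0, 8, 3]) (.far [0, 0, 0, 0, 8, 3]) (.far [0, 0, 0, 0, 16, 6, 1]) (.far [0, 0, 0, 0, 16, 6, 1])) (.far [1, 0, 2]) (.far [0, 0, 0, 0, 0, 1]) .leaf (.far [0, 1, 0, 0, 32, 10]) (.far [0, 0, 1, 0, 32, 9])) (.far [0, 2, 0, 1, 0, 0, 4]) (.node [5, 6, 0]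
(.far [0, 0, 0, 0, 64, 22, 13]) (.far [0, 0, 0, 0, 64, 22, 13]) (.far [0, 0, 0, 0, 64, 22, 13]) (.far [0, 0, 0, 0, 64, 22, 13]) (.far [0, 0, 0, 0, 8, 0, 3]) (.far [0, 0, 0, 0, 8, 0, 3]) (.far [0, 0, 0, 0, 8, 0, 3]) (.far [0, 0, 0, 0, 8, 0, 3])) (.far [0, 1, 0, 0, 32]) (.far [1, 0, 0, 0, 0, 4]) (.far [0, 2, 0, 1, 0, 0, 4]) (.far [1, 0, 0, 0, 0, 4])) (.far [5, 0, 0, 0, 0, 0, 8]) (.node [6, 7]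
(.far [0, 3, 0, 0, 11, 16]) (.node [4, 0]
(.far [0, 0, 0, 0, 16, 9]) (.far [0, 0, 0, 0, 16, 9]) (.far [0, 0, 0, 0, 16, 9]) (.far [0, 0, 0, 0, 16, 9]) (.far [0, 0, 0, 0, 2, 1]) (.far [0, 0, 0, 0, 2, 1]) (.far [0, 0, 0, 0, 2, 1]) (.far [0, 0, 0, 0, 2, 1])) (.far [0, 3, 0, 0, 11, 16]) (.node [4, 0]
(.far [0, 0, 0, 0, 16, 9]) (.far [0, 0, 0, 0, 16, 9]) (.far [0, 0, 0, 0, 16, 9]) (.far [0, 0, 0, 0, 16, 9]) (.far [0, 0, 0, 0, 2, 1]) (.far [0, 0, 0, 0, 2, 1]) (.far [0, 0, 0, 0, 2, 1]) (.far [0, 0, 0, 0, 2, 1])) (.far [0, 3, 0, 0, 11, 16]) (.far [1, 0, 0, 0, 4]) (.far [0, 3, 0, 0, 11, 16]) (.far [1, 0, 0, 0, 4])) (.far [5, 0, 0, 0, 0, 0, 8]) (.far [0, 0, 0, 1, 0, 0, 4]) (.far [13, 0, 0, 0, 0, 128]) (.far [0, 0, 0, 1, 0, 0, 4]) (.far [13, 0, 0, 0, 0, 128])) .leaf (.far [0,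 0, 0, 0, 0, 0, 1]) .leaf (.far [0, 0, 0, 0, 0, 0, 1])) (.far [1, 0, 0, 0, 0, 0, 4]) (.node [6, 1, 3]
(.far [0, 1, 0, 1, 0, 0, 1]) (.node [4, 5, 0]
(.node [5, 6]
(.far [0, 1, 0, 0, 0, 2]) (.far [13, 0, 0, 0, 128, 57]) (.far [0, 3, 0, 0, 32, 32]) (.far [13, 0, 0, 0, 128, 57]) (.far [0, 1, 0, 0, 0, 2]) (.far [1, 0, 0, 0, 4]) (.far [0, 3, 0, 0, 32, 32]) (.far [1, 0, 0, 0, 4])) (.far [3, 0, 0, 0, 0, 4]) (.node [5, 6]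
(.far [0, 3, 0, 0, 10, 16]) (.far [13, 0, 0, 0, 128, 57]) (.far [0, 3, 0, 0, 10, 16]) (.far [13, 0, 0, 0, 128, 57]) (.far [0, 3, 0, 0, 10, 16]) (.far [1, 0, 0, 0, 4]) (.far [0, 3, 0, 0, 10, 16]) (.far [1, 0, 0, 0, 4])) (.far [3, 0, 0, 0, 0, 4]) (.far [0, 0, 0, 1, 0, 4]) (.far [1, 0, 0, 0, 8]) (.far [0, 0, 0, 1, 0, 4]) (.far [1, 0, 0, 0, 8])) (.far [0, 1, 0, 1, 0, 0, 1]) (.node [4, 5, 0]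
(.node [5, 6]
(.far [0, 2, 0, 0, 5, 8]) (.far [13, 0, 0, 0, 128, 57]) (.far [0, 2, 0, 0, 5, 8]) (.far [13, 0, 0, 0, 128, 57]) (.far [0, 2, 0, 0, 5, 8]) (.far [1, 0, 0, 0, 4]) (.far [0, 2, 0, 0, 5, 8]) (.far [1, 0, 0, 0, 4])) (.far [3, 0, 0, 0, 0, 4]) (.node [5, 6]
(.far [0, 2, 0, 0, 5, 8]) (.far [13, 0, 0, 0, 128, 57]) (.far [0, 2, 0, 0, 5, 8]) (.far [13, 0, 0, 0, 128, 57]) (.far [0, 2, 0, 0, 5, 8]) (.far [1, 0, 0, 0, 4]) (.far [0, 2, 0, 0, 5, 8]) (.far [1, 0, 0, 0, 4])) (.far [3, 0, 0, 0, 0, 4]) (.far [0, 0, 0, 1, 0, 4]) (.far [1, 0, 0, 0, 8]) (.far [0, 0, 0, 1, 0, 4]) (.far [1, 0, 0, 0, 8])) .leaf (.far [0, 0, 0, 0, 0, 1]) .leaf (.far [0, 0, 0, 0, 0, 1])) (.far [1, 0, 0, 0, 0, 0, 4])) .leaf .leaf .leaf (.far [0, 0, 0, 7, 0, 64])) (.far [1, 0, 0, 0, 0, 2]))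

/-- A certificate. -/
def c0 : Tr := (.node [1, 3]
(.far [0, 1, 0, 0, 0, 2]) (.node [4, 0]
(.far [0, 0, 7, 0, 0, 32]) .leaf (.node [4, 5, 1]
(.far [0, 1, 0, 0, 0, 4]) (.node [4, 0]
(.far [0, 0, 0, 0, 0, 1]) .leaf (.node [5, 1]
(.far [0, 1, 0, 0, 2]) (.far [0, 0, 1, 0, 4]) (.far [0, 3, 0, 0, 4]) (.node [4, 5]
(.far [0, 1, 0, 0, 4]) (.far [2, 0, 0, 0, 5, 8]) (.far [0, 13, 0, 0, 128, 57]) (.far [2, 0, 0, 0, 5, 8]) (.far [0, 1, 0, 0, 4]) (.far [2, 0, 0, 0, 5, 8]) (.far [0, 13, 0, 0, 128, 57]) (.far [2, 0, 0, 0, 5, 8])) (.far [0, 1, 0, 0, 2]) (.far [0, 0, 1, 0, 4]) (.far [0, 1, 0, 0, 4, 2]) (.node [4, 5]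
(.far [0, 1, 0, 0, 4]) (.far [2, 0, 0, 0, 5, 8]) (.far [0, 13, 0, 0, 128, 57]) (.far [2, 0, 0, 0, 5, 8]) (.far [0, 1, 0, 0, 4]) (.far [2, 0, 0, 0, 5, 8]) (.far [0, 13, 0, 0, 128, 57]) (.far [2, 0, 0, 0, 5, 8]))) (.far [1, 0, 2]) (.far [0, 0, 0, 0, 0, 1]) .leaf (.node [4, 5, 1]
(.far [0, 1, 0, 0, 0, 2]) (.far [0, 0, 1, 0, 0, 4]) (.far [0, 1, 0, 0, 0, 4, 2]) (.node [5, 6]
(.far [0, 1, 0, 0, 4]) (.far [3, 0, 0, 0, 10, 16]) (.far [0, 13, 0, 0, 128, 57]) (.far [3, 0, 0, 0, 10, 16]) (.far [0, 1, 0, 0, 4]) (.far [3, 0, 0, 0, 10, 16]) (.far [0, 13, 0, 0, 128, 57]) (.far [3, 0, 0, 0, 10, 16])) (.far [0, 1, 0, 0, 0, 2]) (.far [0, 0, 1, 0, 0, 4]) (.far [0, 1, 0, 0, 0, 4, 2]) (.node [4, 5, 6]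
(.far [0, 1, 0, 0, 0, 4]) (.far [3, 0, 0, 0, 0, 32, 32]) (.far [0, 13, 0, 0, 0, 128, 57]) (.far [3, 0, 0, 0, 0, 32, 32]) (.far [0, 1, 0, 0, 0, 4]) (.far [3, 0, 0, 0, 64]) (.far [0, 13, 0, 0, 0, 128, 57]) (.far [1, 0, 0, 0, 0, 0, 2]))) (.far [1, 0, 2])) (.far [0, 2, 0, 1, 0, 4]) (.node [4, 6, 0]
(.node [4, 6, 1]
(.far [0, 1, 0, 0, 0, 2]) (.far [0, 0, 3, 0, 32, 16]) (.far [0, 1, 0, 0, 0, 4, 2]) (.node [5, 6]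
(.far [0, 0, 0, 0, 16, 11]) (.far [0, 0, 0, 0, 16, 11]) (.far [0, 0, 0, 0, 16, 11]) (.far [0, 0, 0, 0, 16, 11]) (.far [0, 0, 0, 0, 16, 11]) (.far [0, 0, 0, 0, 16, 11]) (.far [0, 0, 0, 0, 16, 11]) (.far [0, 0, 0, 0, 16, 11])) (.far [0, 0, 0, 0, 8, 3, 1]) (.far [0, 0, 0, 0, 8, 3, 1]) (.far [0, 0, 0, 0, 8, 3, 1]) (.far [0, 0, 0, 0, 8, 3, 1])) (.far [3, 0, 0, 0, 0, 16, 6]) (.node [4, 5, 6, 1]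
(.far [0, 1, 0, 0, 0, 0, 4, 2]) (.node [4, 5, 6, 7]
(.far [0, 0, 0, 0, 0, 0, 16, 11]) (.far [0, 0, 0, 0, 0, 0, 16, 11]) (.far [0, 0, 0, 0, 0, 0, 16, 11]) (.far [0, 0, 0, 0, 0, 0, 16, 11]) (.far [0, 0, 0, 0, 128, 38, 61]) (.far [0, 0, 0, 0, 128, 38, 61]) (.far [0, 0, 0, 0, 128, 38, 61]) (.far [0, 0, 0, 0, 128, 38, 61])) (.far [0, 1, 0, 0, 0, 0, 4, 2]) (.node [4, 5, 6, 7]
(.far [0, 0, 0, 0, 0, 0, 16, 11]) (.far [0, 0, 0, 0, 0, 0, 16, 11]) (.far [0, 0, 0, 0, 0, 0, 16, 11]) (.far [0, 0, 0, 0, 0, 0, 16, 11]) (.far [0, 0, 0, 0, 128, 38, 61]) (.far [0, 0, 0, 0, 128, 38, 61]) (.far [0, 0, 0, 0, 128, 38, 61]) (.far [0, 0, 0, 0, 128, 38, 61])) (.far [0, 0, 0, 0, 8, 0, 3, 1]) (.far [0, 0, 0, 0, 8, 0, 3, 1]) (.far [0, 0, 0, 0, 8, 0, 3, 1]) (.far [0, 0, 0, 0, 8, 0, 3, 1])) (.far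 [3, 0, 0, 0, 0, 16, 6]) (.far [0, 0, 0, 0, 64, 4, 17]) (.far [0, 0, 0, 0, 64, 4, 17]) (.far [0, 0, 0, 0, 64, 4, 17]) (.far [0, 0, 0, 0, 64, 4, 17])) (.far [0, 1, 0, 0, 0, 4]) (.node [4, 0]
(.far [0, 0, 0, 0, 0, 1]) .leaf (.node [4, 5, 1]
(.far [0, 1, 0, 0, 0, 2]) (.far [0, 0, 1, 0, 0, 4]) (.far [0, 5, 0, 0, 0, 8]) (.node [5, 6]
(.far [0, 1, 0, 0, 4]) (.far [3, 0, 0, 0, 11, 16]) (.node [4, 1]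
(.far [0, 0, 0, 0, 2, 1]) (.far [0, 0, 0, 0, 2, 1]) (.far [0, 0, 0, 0, 16, 9]) (.far [0, 0, 0, 0, 16, 9]) (.far [0, 0, 0, 0, 2, 1]) (.far [0, 0, 0, 0, 2, 1]) (.far [0, 0, 0, 0, 16, 9]) (.far [0, 0, 0, 0, 16, 9])) (.far [3, 0, 0, 0, 11, 16]) (.far [0, 1, 0, 0, 4]) (.far [3, 0, 0, 0, 11, 16]) (.node [4, 1]
(.far [0, 0, 0, 0, 2, 1]) (.far [0, 0, 0, 0, 2, 1]) (.far [0, 0, 0, 0, 16, 9]) (.far [0, 0, 0, 0, 16, 9]) (.far [0, 0, 0, 0, 2, 1]) (.far [0, 0, 0, 0, 2, 1]) (.far [0, 0, 0, 0, 16, 9]) (.far [0, 0, 0, 0, 16, 9])) (.far [3, 0, 0, 0, 11, 16])) (.far [0, 1, 0, 0, 0, 2]) (.far [0, 0, 1, 0, 0, 4]) (.far [0, 5, 0, 0, 0, 8]) (.node [4, 5, 6]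
(.far [0, 1, 0, 0, 0, 4]) (.far [3, 0, 4]) (.node [5, 6, 1]
(.far [0, 0, 0, 0, 8, 0, 3]) (.far [0, 0, 0, 0, 8, 0, 3]) (.far [0, 0, 0, 0, 64, 22, 13]) (.far [0, 0, 0, 0, 64, 22, 13]) (.far [0, 0, 0, 0, 8, 0, 3]) (.far [0, 0, 0, 0, 8, 0, 3]) (.far [0, 0, 0, 0, 64, 22, 13]) (.far [0, 0, 0, 0, 64, 22, 13])) (.far [2, 0, 1, 0, 32]) (.far [0, 1, 0, 0, 0, 4]) (.far [1, 0, 0, 0, 32]) (.node [5, 1]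
(.far [0, 1, 0, 2]) (.far [1, 0, 0, 0, 32, 10]) (.far [0, 1, 0, 2]) (.node [4, 5, 0]
(.far [0, 0, 0, 0, 32, 12, 3]) (.far [0, 0, 0, 0, 32, 12, 3]) (.node [4, 5, 6]
(.far [0, 0, 0, 0, 16, 7, 2]) (.far [0, 0, 0, 0, 16, 7, 2]) (.far [0, 35, 0, 0, 0, 0, 64]) (.far [4, 0, 0, 0, 128, 83, 22]) (.far [0, 0, 0, 0, 16, 7, 2]) (.far [0, 0, 0, 0, 16, 7, 2]) (.far [0, 35, 0, 0, 0, 0, 64]) (.far [3, 0, 0, 0, 32, 19])) (.far [1, 0, 0, 0, 8, 6, 2]) (.far [0, 0, 0, 0, 8, 3]) (.far [0, 0, 0, 0, 8, 3]) (.far [0, 0, 0, 3, 32, 17]) (.far [1, 0, 0, 0, 4, 3])) .leaf (.far [0, 0, 0, 0, 0, 1]) .leaf (.far [0, 0, 0, 0, 0, 1])) (.far [1, 0, 0, 0, 32]))) (.far [1, 0, 2]) (.far [0, 0, 0, 0, 0, 1]) .leaf (.node [4, 5, 1]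
(.far [0, 1, 0, 0, 0, 4]) (.node [4, 0]
(.far [0, 0, 0, 0, 0, 1]) .leaf (.node [4, 5, 1]
(.far [0, 1, 0, 0, 0, 2]) (.node [5, 0, 2]
(.far [0, 0, 0, 0, 0, 1]) .leaf (.node [4, 1]
(.far [0, 1, 0, 0, 4]) (.far [0, 0, 1, 0, 8]) (.far [0, 1, 0, 0, 4]) (.far [0, 0, 1, 0, 16, 4]) (.far [0, 1, 0, 0, 4]) (.far [0, 0, 1, 0, 8]) (.far [0, 1, 0, 0, 4]) (.far [0, 0, 1, 0, 16, 4])) (.far [1, 0, 0, 0, 4, 0, 3]) (.far [0, 0, 0, 0, 0, 1]) .leaf (.node [4, 1]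
(.far [0, 1, 0, 0, 4]) (.far [0, 0, 1, 0, 8]) (.far [0, 1, 0, 0, 4]) (.far [0, 0, 1, 0, 16, 4]) (.far [0, 1, 0, 0, 4]) (.far [0, 0, 1, 0, 8]) (.far [0, 1, 0, 0, 4]) (.far [0, 0, 1, 0, 16, 4])) (.far [1, 0, 0, 0, 4, 0, 3])) (.far [0, 9, 0, 0, 0, 16]) (.node [4, 6, 0]
(.node [4, 6, 1]
(.far [0, 1, 0, 0, 0, 2]) (.far [0, 0, 3, 0, 0, 8]) (.far [0, 3, 0, 0, 0, 4]) (.far [0, 0, 56, 0, 0, 512, 335]) (.far [0, 0, 0, 0, 512, 7]) (.far [0, 0, 0, 0, 512, 7]) (.far [0, 0, 0, 0, 1024, 17, 5]) (.far [0, 0, 0, 0, 1024, 17, 5])) (.far [3, 0, 0, 0, 0, 16, 6]) (.node [4, 6, 1]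
(.far [0, 3, 0, 0, 0, 4]) (.far [0, 0, 56, 0, 0, 512, 335]) (.far [0, 3, 0, 0, 0, 4]) (.far [0, 0, 56, 0, 0, 512, 335]) (.far [0, 0, 0, 0, 512, 7]) (.far [0, 0, 0, 0, 512, 7]) (.far [0, 0, 0, 0, 512, 7]) (.far [0, 0, 0, 0, 512, 7])) (.far [3, 0, 0, 0, 0, 16, 6]) (.far [0, 0, 0, 0, 256, 0, 3]) (.far [0, 0, 0, 0, 256, 0, 3]) (.far [0, 0, 0, 0, 256, 0, 3]) (.far [0, 0, 0, 0, 256, 0, 3])) (.far [0, 1, 0, 0, 0, 2]) (.node [4, 5, 0]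
(.far [0, 0, 0, 0, 0, 0, 1]) .leaf (.node [5, 1]
(.far [0, 1, 0, 0, 8]) (.far [0, 0, 1, 0, 8]) (.far [0, 1, 0, 0, 4]) (.far [0, 0, 2, 0, 64, 13]) (.far [0, 1, 0, 0, 8]) (.far [0, 0, 1, 0, 8]) (.far [0, 1, 0, 0, 4]) (.far [0, 0, 2, 0, 64, 13])) (.far [1, 0, 2]) (.far [0, 0, 0, 0, 0, 0, 1]) .leaf (.node [4, 5, 1]
(.far [0, 1, 0, 0, 0, 16]) (.far [0, 0, 1, 0, 0, 32]) (.far [0, 1, 0, 1, 0, 4]) (.node [4, 5, 0]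
(.node [4, 5, 6, 1]
(.far [0, 1, 0, 0, 0, 32]) (.node [5, 0, 2]
(.far [0, 0, 0, 0, 0, 1]) .leaf (.node [4, 1]
(.far [0, 1, 0, 0, 64]) (.far [0, 0, 1, 0, 64]) (.far [0, 1, 0, 0, 32]) (.far [0, 0, 1, 0, 256, 5]) (.far [0, 1, 0, 0, 64]) (.far [0, 0, 1, 0, 64]) (.far [0, 1, 0, 0, 32]) (.far [0, 0, 1, 0, 256, 5])) (.far [7, 0, 0, 0, 512, 0, 24]) (.far [0, 0, 0, 0, 0, 1]) .leaf (.node [4, 1]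
(.far [0, 1, 0, 0, 64]) (.far [0, 0, 1, 0, 64]) (.far [0, 1, 0, 0, 32]) (.far [0, 0, 1, 0, 256, 5]) (.far [0, 1, 0, 0, 64]) (.far [0, 0, 1, 0, 64]) (.far [0, 1, 0, 0, 32]) (.far [0, 0, 1, 0, 256, 5])) (.far [7, 0, 0, 0, 512, 0, 24])) (.far [0, 7, 0, 0, 0, 128]) (.node [4, 6, 7, 0]
(.node [4, 6, 7]
(.far [0, 0, 0, 0, 1024, 6, 5]) (.far [0, 0, 0, 0, 1024, 6, 5]) (.far [0, 0, 0, 0, 1024, 6, 5]) (.far [0, 0, 0, 0, 1024, 6, 5]) (.far [0, 0, 0, 0, 8192, 0, 9]) (.far [0, 0, 0, 0, 8192, 0, 9]) (.far [0, 0, 0, 0, 8192, 0, 9]) (.far [0, 0, 0, 0, 8192, 0, 9])) (.far [1, 0, 0, 0, 8192, 10, 0, 2]) (.node [4, 6, 7]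
(.far [0, 0, 0, 0, 1024, 6, 5]) (.far [0, 0, 0, 0, 1024, 6, 5]) (.far [0, 0, 0, 0, 1024, 6, 5]) (.far [0, 0, 0, 0, 1024, 6, 5]) (.far [0, 0, 0, 0, 8192, 0, 9]) (.far [0, 0, 0, 0, 8192, 0, 9]) (.far [0, 0, 0, 0, 8192, 0, 9]) (.far [0, 0, 0, 0, 8192, 0, 9])) (.far [1, 0, 0, 0, 8192, 10, 0, 2]) (.far [0, 0, 0, 0, 8192, 0, 0, 9]) (.far [0, 0, 0, 0, 8192, 0, 0, 9]) (.far [0, 0, 0, 0, 8192, 0, 0, 9]) (.far [0, 0, 0, 0, 8192, 0, 0, 9])) (.far [0, 1, 0, 0, 0, 32]) (.node [4, 5, 0]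
(.far [0, 0, 0, 0, 0, 0, 1]) .leaf (.node [5, 1]
(.far [0, 1, 0, 0, 64]) (.far [0, 0, 1, 0, 128]) (.far [0, 1, 0, 0, 64]) (.far [0, 0, 49, 0, 16384, 285]) (.far [0, 1, 0, 0, 64]) (.far [0, 0, 1, 0, 128]) (.far [0, 1, 0, 0, 64]) (.far [0, 0, 49, 0, 16384, 285])) (.far [1, 0, 2]) (.far [0, 0, 0, 0, 0, 0, 1]) .leaf (.node [4, 5, 1]
(.far [0, 1, 0, 0, 0, 128]) (.node [4, 5, 0]
(.far [0, 0, 0, 0, 0, 0, 1]) .leaf (.far [0, 15, 0, 0, 0, 8192]) (.far [1, 0, 2]) (.far [0, 0, 0, 0, 0, 0, 1]) .leaf (.far [0, 15, 0, 0, 0, 8192]) (.far [3, 0, 0, 0, 65536])) (.far [0, 1, 0, 1, 0, 64]) (.node [4, 0]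
(.node [4, 5]
(.far [0, 1, 0, 0, 0, 2]) (.node [4, 5, 0]
(.far [0, 0, 0, 0, 0, 0, 1]) .leaf (.node [5, 6, 1]
(.far [0, 1, 0, 0, 0, 2]) (.far [0, 0, 1, 0, 0, 4]) (.far [0, 1, 0, 0, 4]) (.node [4, 5, 6]
(.far [0, 1, 0, 0, 0, 4]) (.far [2, 0, 0, 0, 8, 0, 7]) (.node [4, 5, 1]
(.far [0, 0, 0, 0, 0, 2, 1]) (.far [0, 0, 0, 0, 0, 2, 1]) (.far [0, 0, 0, 0, 4, 4, 3]) (.far [0, 0, 0, 0, 4, 4, 3]) (.far [0, 0, 0, 0, 0, 2, 1]) (.far [0, 0, 0, 0, 0, 2, 1]) (.far [0, 0, 0, 0, 4, 4, 3]) (.far [0, 0, 0, 0, 4, 4, 3])) (.far [2, 0, 0, 0, 8, 0, 7]) (.far [0, 1, 0, 0, 0, 4]) (.far [2, 0, 0, 0, 8, 0, 7]) (.node [4, 5, 6, 1]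
(.far [0, 0, 0, 0, 4, 0, 0, 1]) (.far [0, 0, 0, 0, 4, 0, 0, 1]) (.far [0, 0, 0, 0, 0, 8, 1, 4]) (.far [0, 0, 0, 0, 0, 8, 1, 4]) (.far [0, 0, 0, 0, 4, 0, 0, 1]) (.far [0, 0, 0, 0, 4, 0, 0, 1]) (.far [0, 0, 0, 0, 0, 8, 1, 4]) (.far [0, 0, 0, 0, 0, 8, 1, 4])) (.far [2, 0, 0, 0, 8, 0, 7])) (.far [0, 1, 0, 0, 0, 2]) (.far [0, 0, 1, 0, 0, 4]) (.far [0, 1, 0, 0, 4]) (.node [4, 5, 6]
(.far [0, 7, 0, 0, 64]) (.far [2, 0, 0, 0, 0, 5, 8]) (.node [4, 5, 6, 1]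
(.far [0, 0, 0, 0, 4, 0, 0, 1]) (.far [0, 0, 0, 0, 4, 0, 0, 1]) (.far [0, 0, 0, 0, 0, 8, 1, 4]) (.far [0, 0, 0, 0, 0, 8, 1, 4]) (.far [0, 0, 0, 0, 4, 0, 0, 1]) (.far [0, 0, 0, 0, 4, 0, 0, 1]) (.far [0, 0, 0, 0, 0, 8, 1, 4]) (.far [0, 0, 0, 0, 0, 8, 1, 4])) (.far [2, 0, 0, 0, 0, 5, 8]) (.far [0, 7, 0, 0, 64]) (.far [2, 0, 0, 0, 0, 5, 8]) (.node [4, 5, 6, 1]
(.far [0, 0, 0, 0, 4, 0, 0, 1]) (.far [0, 0, 0, 0, 4, 0, 0, 1]) (.far [0, 0, 0, 0, 0, 8, 1, 4]) (.far [0, 0, 0, 0, 0, 8, 1, 4]) (.far [0, 0, 0, 0, 4, 0, 0, 1]) (.far [0, 0, 0, 0, 4, 0, 0, 1]) (.far [0, 0, 0, 0, 0, 8, 1, 4]) (.far [0, 0, 0, 0, 0, 8, 1, 4])) (.far [2, 0, 0, 0, 0, 5, 8]))) (.far [1, 0, 2]) (.far [0, 0, 0, 0, 0, 0, 1]) .leaf (.node [4, 5, 6, 1]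
(.far [0, 1, 0, 0, 0, 0, 2]) (.far [0, 0, 1, 0, 0, 0, 4]) (.far [0, 1, 0, 0, 0, 0, 4, 2]) (.node [5, 6, 7]
(.far [0, 7, 0, 0, 64]) (.far [3, 0, 0, 0, 0, 11, 16]) (.node [4, 5, 6, 1]
(.far [0, 0, 0, 0, 4, 0, 0, 1]) (.far [0, 0, 0, 0, 4, 0, 0, 1]) (.far [0, 0, 0, 0, 0, 8, 1, 4]) (.far [0, 0, 0, 0, 0, 8, 1, 4]) (.far [0, 0, 0, 0, 4, 0, 0, 1]) (.far [0, 0, 0, 0, 4, 0, 0, 1]) (.far [0, 0, 0, 0, 0, 8, 1, 4]) (.far [0, 0, 0, 0, 0, 8, 1, 4])) (.far [3, 0, 0, 0, 0, 11, 16]) (.far [0, 7, 0, 0, 64]) (.far [3, 0, 0, 0, 0, 11, 16]) (.node [4, 5, 6, 1]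
(.far [0, 0, 0, 0, 4, 0, 0, 1]) (.far [0, 0, 0, 0, 4, 0, 0, 1]) (.far [0, 0, 0, 0, 0, 8, 1, 4]) (.far [0, 0, 0, 0, 0, 8, 1, 4]) (.far [0, 0, 0, 0, 4, 0, 0, 1]) (.far [0, 0, 0, 0, 4, 0, 0, 1]) (.far [0, 0, 0, 0, 0, 8, 1, 4]) (.far [0, 0, 0, 0, 0, 8, 1, 4])) (.far [3, 0, 0, 0, 0, 11, 16])) (.far [0, 1, 0, 0, 0, 0, 2]) (.far [0, 0, 1, 0, 0, 0, 4]) (.far [0, 1, 0, 0, 0, 0, 4, 2]) (.node [4, 5, 6, 7]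
(.far [0, 7, 0, 0, 0, 64]) (.far [6, 0, 0, 0, 0, 0, 64, 63]) (.node [6, 7, 1]
(.far [0, 0, 0, 0, 8, 0, 3]) (.far [0, 0, 0, 0, 8, 0, 3]) (.far [0, 0, 0, 0, 16, 5, 4]) (.far [0, 0, 0, 0, 16, 5, 4]) (.far [0, 0, 0, 0, 8, 0, 3]) (.far [0, 0, 0, 0, 8, 0, 3]) (.far [0, 0, 0, 0, 16, 5, 4]) (.far [0, 0, 0, 0, 16, 5, 4])) (.far [6, 0, 0, 0, 0, 0, 64, 63]) (.far [0, 1, 0, 0, 0, 0, 4]) (.far [1, 0, 0, 0, 65536]) (.node [4, 6, 7, 1]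
(.far [0, 0, 0, 0, 0, 64, 0, 19]) (.far [0, 0, 0, 0, 0, 64, 0, 19]) (.far [0, 1, 0, 1, 0, 8, 3]) (.node [4, 5, 7, 0]
(.far [0, 0, 0, 0, 0, 16, 6, 1]) (.far [0, 0, 0, 0, 0, 16, 6, 1]) (.node [5, 6, 7]
(.far [0, 0, 0, 0, 16, 7, 2]) (.far [0, 0, 0, 0, 16, 7, 2]) (.far [0, 0, 0, 0, 2048, 1401, 566]) (.far [0, 0, 0, 0, 2048, 1401, 566]) (.far [0, 0, 0, 0, 16, 7, 2]) (.far [0, 0, 0, 0, 16, 7, 2]) (.far [0, 0, 0, 0, 2048, 1401, 566]) (.far [0, 0, 0, 0, 2048, 1401, 566])) (.far [2, 0, 0, 0, 0, 0, 8, 3]) (.far [0, 0, 0, 0, 0, 8, 3]) (.far [0, 0, 0, 0, 0, 8, 3]) (.far [0, 0, 0, 2, 0, 32, 17]) (.far [1, 0, 0, 0, 131072])) .leaf (.far [0, 0, 0, 0, 0, 0, 0, 1]) .leaf (.far [0, 0, 0, 0, 0, 0, 0, 1])) (.far [1, 0, 0, 0, 0, 0, 0, 2]))) (.far [1, 0, 2])) (.far [0, 9, 0, 0, 0, 16])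 (.node [4, 5, 0]
(.far [0, 0, 0, 0, 65536, 5, 4]) (.far [0, 0, 0, 0, 65536, 5, 4]) (.far [0, 0, 0, 0, 65536, 5, 4]) (.far [0, 0, 0, 0, 65536, 5, 4]) (.far [0, 0, 0, 0, 32768, 0, 3]) (.far [0, 0, 0, 0, 32768, 0, 3]) (.far [0, 0, 0, 0, 32768, 0, 3]) (.far [0, 0, 0, 0, 32768, 0, 3])) (.far [0, 1, 0, 0, 0, 2]) (.node [4, 0]
(.far [0, 0, 0, 0, 0, 1]) .leaf (.node [4, 5, 1]
(.far [0, 1, 0, 0, 0, 2]) (.far [0, 0, 1, 0, 0, 4]) (.far [0, 5, 0, 0, 0, 8]) (.node [5, 6]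
(.far [0, 15, 0, 0, 64]) (.far [3, 0, 0, 0, 12, 16]) (.node [4, 5, 1]
(.far [0, 0, 0, 0, 2, 0, 1]) (.far [0, 0, 0, 0, 2, 0, 1]) (.far [0, 0, 0, 0, 16, 3, 6]) (.far [0, 0, 0, 0, 16, 3, 6]) (.far [0, 0, 0, 0, 2, 0, 1]) (.far [0, 0, 0, 0, 2, 0, 1]) (.far [0, 0, 0, 0, 16, 3, 6]) (.far [0, 0, 0, 0, 16, 3, 6])) (.far [3, 0, 0, 0, 12, 16]) (.far [0, 15, 0, 0, 64]) (.far [3, 0, 0, 0, 12, 16]) (.node [4, 5, 1]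
(.far [0, 0, 0, 0, 2, 0, 1]) (.far [0, 0, 0, 0, 2, 0, 1]) (.far [0, 0, 0, 0, 16, 3, 6]) (.far [0, 0, 0, 0, 16, 3, 6]) (.far [0, 0, 0, 0, 2, 0, 1]) (.far [0, 0, 0, 0, 2, 0, 1]) (.far [0, 0, 0, 0, 16, 3, 6]) (.far [0, 0, 0, 0, 16, 3, 6])) (.far [3, 0, 0, 0, 12, 16])) (.far [0, 1, 0, 0, 0, 2]) (.far [0, 0, 1, 0, 0, 4]) (.far [0, 5, 0, 0, 0, 8]) (.node [4, 5, 0]
(.far [0, 15, 0, 0, 0, 64]) (.far [13, 0, 0, 0, 524288]) (.node [5, 6, 1]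
(.far [0, 0, 0, 0, 8, 0, 3]) (.far [0, 0, 0, 0, 8, 0, 3]) (.far [0, 0, 0, 0, 16, 8, 13]) (.far [0, 0, 0, 0, 16, 8, 13]) (.far [0, 0, 0, 0, 8, 0, 3]) (.far [0, 0, 0, 0, 8, 0, 3]) (.far [0, 0, 0, 0, 16, 8, 13]) (.far [0, 0, 0, 0, 16, 8, 13])) (.far [13, 0, 0, 0, 524288]) (.far [0, 15, 0, 0, 0, 64]) (.far [1, 0, 0, 0, 65536]) (.node [4, 5, 1]
(.far [0, 1, 0, 2]) (.node [4, 5, 0]
(.node [4, 5, 6]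
(.far [0, 1, 0, 0, 0, 16]) (.node [4, 5, 0]
(.far [0, 0, 0, 0, 0, 0, 1]) .leaf (.node [5, 6, 1]
(.far [0, 1, 0, 0, 0, 2]) (.far [0, 0, 5, 0, 0, 16]) (.far [0, 5, 0, 0, 0, 8]) (.node [4, 5, 6]
(.node [5, 1]
(.far [0, 0, 0, 0, 2, 1]) (.far [0, 0, 0, 0, 2, 1]) (.far [0, 0, 0, 0, 2, 1]) (.far [0, 0, 0, 0, 2, 1]) (.far [0, 0, 0, 0, 2, 1]) (.far [0, 0, 0, 0, 2, 1]) (.far [0, 0, 0, 0, 2, 1]) (.far [0, 0, 0, 0, 2, 1])) (.far [2, 0, 0, 0, 0, 5, 8]) (.node [4, 5, 6, 1]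
(.far [0, 0, 0, 0, 0, 2, 0, 1]) (.far [0, 0, 0, 0, 0, 2, 0, 1]) (.far [0, 0, 0, 0, 64, 8, 0, 7]) (.far [0, 0, 0, 0, 64, 8, 0, 7]) (.far [0, 0, 0, 0, 0, 2, 0, 1]) (.far [0, 0, 0, 0, 0, 2, 0, 1]) (.far [0, 0, 0, 0, 0, 16, 1, 8]) (.far [0, 0, 0, 0, 0, 16, 1, 8])) (.far [2, 0, 0, 0, 0, 5, 8]) (.node [5, 1]
(.far [0, 0, 0, 0, 2, 1]) (.far [0, 0, 0, 0, 2, 1]) (.far [0, 0, 0, 0, 2, 1]) (.far [0, 0, 0, 0, 2, 1]) (.far [0, 0, 0, 0, 2, 1]) (.far [0, 0, 0, 0, 2, 1]) (.far [0, 0, 0, 0, 2, 1]) (.far [0, 0, 0, 0, 2, 1])) (.far [2, 0, 0, 0, 0, 5, 8]) (.node [5, 6, 1]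
(.far [0, 0, 0, 0, 2, 0, 1]) (.far [0, 0, 0, 0, 2, 0, 1]) (.far [0, 0, 0, 0, 16, 1, 8]) (.far [0, 0, 0, 0, 16, 1, 8]) (.far [0, 0, 0, 0, 2, 0, 1]) (.far [0, 0, 0, 0, 2, 0, 1]) (.far [0, 0, 0, 0, 16, 1, 8]) (.far [0, 0, 0, 0, 16, 1, 8])) (.far [2, 0, 0, 0, 0, 5, 8])) (.far [0, 1, 0, 0, 0, 2]) (.far [0, 0, 5, 0, 0, 16]) (.far [0, 1, 0, 0, 0, 4, 2]) (.node [5, 6, 0]
(.node [4, 1]
(.far [0, 0, 0, 0, 2, 1]) (.far [0, 0, 0, 0, 2, 1]) (.far [0, 0, 0, 0, 2, 1]) (.far [0, 0, 0, 0, 2, 1]) (.far [0, 0, 0, 0, 2, 1]) (.far [0, 0, 0, 0, 2, 1]) (.far [0, 0, 0, 0, 2, 1]) (.far [0, 0, 0, 0, 2, 1])) (.far [2, 0, 0, 0, 5, 8]) (.node [4, 5, 1]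
(.far [0, 0, 0, 0, 2, 0, 1]) (.far [0, 0, 0, 0, 2, 0, 1]) (.far [0, 0, 0, 0, 16, 1, 8]) (.far [0, 0, 0, 0, 16, 1, 8]) (.far [0, 0, 0, 0, 2, 0, 1]) (.far [0, 0, 0, 0, 2, 0, 1]) (.far [0, 0, 0, 0, 16, 1, 8]) (.far [0, 0, 0, 0, 16, 1, 8])) (.far [2, 0, 0, 0, 5, 8]) (.node [4, 1]
(.far [0, 0, 0, 0, 2, 1]) (.far [0, 0, 0, 0, 2, 1]) (.far [0, 0, 0, 0, 2, 1]) (.far [0, 0, 0, 0, 2, 1]) (.far [0, 0, 0, 0, 2, 1]) (.far [0, 0, 0, 0, 2, 1]) (.far [0, 0, 0, 0, 2, 1]) (.far [0, 0, 0, 0, 2, 1])) (.far [2, 0, 0, 0, 5, 8]) (.node [4, 5, 6, 1]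
(.far [0, 0, 0, 0, 2, 0, 0, 1]) (.far [0, 0, 0, 0, 2, 0, 0, 1]) (.far [0, 0, 0, 0, 16, 1, 0, 8]) (.far [0, 0, 0, 0, 16, 1, 0, 8]) (.far [0, 0, 0, 0, 2, 0, 0, 1]) (.far [0, 0, 0, 0, 2, 0, 0, 1]) (.far [0, 0, 0, 0, 0, 0, 1, 1]) (.far [0, 0, 0, 0, 0, 0, 1, 1])) (.far [2, 0, 0, 0, 5, 8]))) (.far [1, 0, 2]) (.far [0, 0, 0, 0, 0, 0, 1]) .leaf (.node [4, 6, 1]
(.far [0, 1, 0, 0, 0, 2]) (.far [0, 0, 5, 0, 0, 16]) (.far [0, 1, 0, 0, 0, 4, 2]) (.node [5, 6, 0]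
(.node [4, 1]
(.far [0, 0, 0, 0, 2, 1]) (.far [0, 0, 0, 0, 2, 1]) (.far [0, 0, 0, 0, 2, 1]) (.far [0, 0, 0, 0, 2, 1]) (.far [0, 0, 0, 0, 2, 1]) (.far [0, 0, 0, 0, 2, 1]) (.far [0, 0, 0, 0, 2, 1]) (.far [0, 0, 0, 0, 2, 1])) (.far [3, 0, 0, 0, 11, 16]) (.node [4, 5, 6, 1]
(.far [0, 0, 0, 0, 2, 0, 0, 1]) (.far [0, 0, 0, 0, 2, 0, 0, 1]) (.far [0, 0, 0, 0, 32, 3, 0, 15]) (.far [0, 0, 0, 0, 32, 3, 0, 15]) (.far [0, 0, 0, 0, 2, 0, 0, 1]) (.far [0, 0, 0, 0, 2, 0, 0, 1]) (.far [0, 0, 0, 0, 0, 0, 256, 251]) (.far [0, 0, 0, 0, 0, 0, 256, 251])) (.far [3, 0, 0, 0, 11, 16]) (.node [4, 1]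
(.far [0, 0, 0, 0, 2, 1]) (.far [0, 0, 0, 0, 2, 1]) (.far [0, 0, 0, 0, 2, 1]) (.far [0, 0, 0, 0, 2, 1]) (.far [0, 0, 0, 0, 2, 1]) (.far [0, 0, 0, 0, 2, 1]) (.far [0, 0, 0, 0, 2, 1]) (.far [0, 0, 0, 0, 2, 1])) (.far [3, 0, 0, 0, 11, 16]) (.node [4, 6, 1]
(.far [0, 0, 0, 0, 2, 0, 1]) (.far [0, 0, 0, 0, 2, 0, 1]) (.far [0, 0, 0, 0, 0, 256, 251]) (.far [0, 0, 0, 0, 0, 256, 251]) (.far [0, 0, 0, 0, 2, 0, 1]) (.far [0, 0, 0, 0, 2, 0, 1]) (.far [0, 0, 0, 0, 0, 256, 251]) (.far [0, 0, 0, 0, 0, 256, 251])) (.far [3, 0, 0, 0, 11, 16])) (.far [0, 0, 0, 0, 4194304, 19]) (.far [0, 0, 0, 0, 4194304, 19]) (.far [0, 1, 0, 0, 0, 4, 2]) (.node [4, 5, 0]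
(.node [5, 1]
(.far [0, 0, 0, 0, 8, 3]) (.far [0, 0, 0, 0, 8, 3]) (.far [0, 0, 0, 0, 8, 3]) (.far [0, 0, 0, 0, 8, 3]) (.far [0, 0, 0, 0, 8, 3]) (.far [0, 0, 0, 0, 8, 3]) (.far [0, 0, 0, 0, 8, 3]) (.far [0, 0, 0, 0, 8, 3])) (.far [1, 0, 0, 0, 2097152, 0, 3]) (.node [5, 6, 1]
(.far [0, 0, 0, 0, 16, 0, 5]) (.far [0, 0, 0, 0, 16, 0, 5]) (.far [0, 0, 0, 0, 32, 14, 25]) (.far [0, 0, 0, 0, 32, 14, 25]) (.far [0, 0, 0, 0, 16, 0, 5]) (.far [0, 0, 0, 0, 16, 0, 5]) (.far [0, 0, 0, 0, 32, 14, 25]) (.far [0, 0, 0, 0, 32, 14, 25])) (.far [1, 0, 0, 0, 2097152, 0, 3]) (.node [4, 5, 1]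
(.far [0, 1, 0, 0, 0, 8]) (.far [0, 0, 15, 0, 0, 256]) (.far [0, 1, 0, 1, 0, 4]) (.node [4, 5, 0]
(.node [4, 5, 1]
(.far [0, 1, 0, 0, 0, 16]) (.node [4, 5, 0]
(.far [0, 0, 0, 0, 0, 0, 1]) .leaf (.node [5, 1]
(.far [0, 1, 0, 0, 32]) (.far [0, 0, 1, 0, 64]) (.far [0, 1, 0, 0, 32]) (.far [0, 0, 1, 0, 128, 5]) (.far [0, 1, 0, 0, 32]) (.far [0, 0, 1, 0, 64]) (.far [0, 1, 0, 0, 32]) (.far [0, 0, 1, 0, 128, 5])) (.far [1, 0, 1, 0, 2097152]) (.far [0, 0, 0, 0, 0, 0, 1]) .leaf (.node [5, 1]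
(.far [0, 1, 0, 0, 32]) (.far [0, 0, 1, 0, 64]) (.far [0, 1, 0, 0, 32]) (.far [0, 0, 1, 0, 128, 5]) (.far [0, 1, 0, 0, 32]) (.far [0, 0, 1, 0, 64]) (.far [0, 1, 0, 0, 32]) (.far [0, 0, 1, 0, 128, 5])) (.far [1, 0, 2])) (.far [0, 3, 0, 0, 0, 32]) (.node [4, 6, 0]
(.far [0, 0, 22, 0, 268435456, 267, 279]) (.far [1, 0, 0, 0, 0, 4, 2]) (.far [0, 0, 22, 0, 268435456, 267, 279]) (.far [1, 0, 0, 0, 0, 4, 2]) (.far [0, 0, 0, 0, 8388608, 0, 3]) (.far [0, 0, 0, 0, 8388608, 0, 3]) (.far [0, 0, 0, 0, 8388608, 0, 3]) (.far [0, 0, 0, 0, 8388608, 0, 3])) (.far [0, 1, 0, 0, 0, 16]) (.node [4, 5, 0]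
(.far [0, 0, 0, 0, 0, 0, 1]) .leaf (.node [4, 5, 1]
(.far [0, 1, 0, 0, 0, 32]) (.far [0, 0, 1, 0, 0, 64]) (.far [0, 1, 0, 0, 0, 32]) (.node [5, 6]
(.far [0, 3, 0, 0, 256]) (.far [1, 0, 0, 0, 64, 5]) (.far [0, 1, 0, 0, 256, 6]) (.far [1, 0, 0, 0, 64, 5]) (.far [0, 3, 0, 0, 256]) (.far [1, 0, 0, 0, 64, 5]) (.far [0, 1, 0, 0, 256, 6]) (.far [1, 0, 0, 0, 64, 5])) (.far [0, 1, 0, 0, 0, 32]) (.far [0, 0, 1, 0, 0, 64]) (.far [0, 1, 0, 0, 0, 32]) (.node [4, 5, 6]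
(.far [0, 3, 0, 0, 0, 256]) (.far [1, 0, 0, 0, 0, 256, 12]) (.far [0, 1, 0, 0, 0, 256, 6]) (.far [1, 0, 0, 0, 0, 256, 12]) (.far [0, 3, 0, 0, 0, 256]) (.far [1, 0, 0, 0, 16777216]) (.far [0, 1, 0, 0, 0, 256, 6]) (.far [1, 0, 0, 0, 16777216]))) (.far [1, 0, 2]) (.far [0, 0, 0, 0, 0, 0, 1]) .leaf (.node [4, 5, 1]
(.far [0, 1, 0, 0, 0, 128]) (.node [4, 5, 0]
(.far [0, 0, 0, 0, 0, 0, 1]) .leaf (.node [4, 5, 6, 1]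
(.far [0, 1, 0, 0, 0, 0, 2]) (.node [6, 0, 2]
(.far [0, 0, 0, 0, 0, 1]) .leaf (.node [4, 1]
(.far [0, 1, 0, 0, 4]) (.far [0, 0, 1, 0, 8]) (.far [0, 1, 0, 0, 4]) (.far [0, 0, 1, 0, 16, 4]) (.far [0, 1, 0, 0, 4]) (.far [0, 0, 1, 0, 8]) (.far [0, 1, 0, 0, 4]) (.far [0, 0, 1, 0, 16, 4])) (.far [1, 0, 0, 0, 4, 0, 3]) (.far [0, 0, 0, 0, 0, 1]) .leaf (.node [4, 1]
(.far [0, 1, 0, 0, 4]) (.far [0, 0, 1, 0, 8]) (.far [0, 1, 0, 0, 4]) (.far [0, 0, 1, 0, 16, 4]) (.far [0, 1, 0, 0, 4]) (.far [0, 0, 1, 0, 8]) (.far [0, 1, 0, 0, 4]) (.far [0, 0, 1, 0, 16, 4])) (.far [1, 0, 0, 0, 4, 0, 3])) (.far [0, 9, 0, 0, 0, 0, 16]) (.node [4, 5, 7, 0]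
(.node [4, 5, 7, 1]
(.far [0, 1, 0, 0, 0, 0, 2]) (.far [0, 0, 95, 0, 0, 65536]) (.far [0, 1, 0, 0, 0, 0, 4, 2]) (.far [0, 0, 3, 0, 1073741824, 0, 48, 20]) (.far [0, 0, 0, 0, 536870912, 0, 11]) (.far [0, 0, 0, 0, 536870912, 0, 11]) (.far [0, 0, 0, 0, 268435456, 0, 7, 2]) (.far [0, 0, 0, 0, 268435456, 0, 7, 2])) (.far [3, 0, 0, 0, 0, 0, 16, 6]) (.node [4, 7, 1]
(.far [0, 1, 0, 0, 0, 4, 2]) (.far [0, 0, 7, 0, 2147483648, 93, 34]) (.far [0, 1, 0, 0, 0, 4, 2]) (.far [0, 0, 7, 0, 2147483648, 93, 34]) (.far [0, 0, 0, 0, 536870912, 11]) (.far [0, 0, 0, 0, 536870912, 11]) (.far [0, 0, 0, 0, 536870912, 11]) (.far [0, 0, 0, 0, 536870912, 11])) (.far [3, 0, 0, 0, 0, 0, 16, 6]) (.far [0, 0, 0, 0, 2147483648, 0, 0, 37]) (.far [0, 0, 0, 0, 2147483648, 0, 0, 37]) (.far [0, 0, 0,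 0, 2147483648, 0, 0, 37]) (.far [0, 0, 0, 0, 2147483648, 0, 0, 37])) (.far [0, 1, 0, 0, 0, 0, 2]) (.node [4, 6, 0]
(.far [0, 0, 0, 0, 0, 0, 1]) .leaf (.node [5, 1]
(.far [0, 1, 0, 0, 8]) (.far [0, 0, 3, 0, 32]) (.far [0, 1, 0, 0, 4]) (.node [4, 5]
(.far [0, 0, 0, 0, 128, 29]) (.far [0, 0, 0, 0, 128, 29]) (.far [0, 0, 0, 0, 128, 29]) (.far [0, 0, 0, 0, 128, 29]) (.far [0, 0, 0, 0, 128, 29]) (.far [0, 0, 0, 0, 128, 29]) (.far [0, 0, 0, 0, 128, 29]) (.far [0, 0, 0, 0, 128, 29])) (.far [0, 1, 0, 0, 8]) (.far [0, 0, 3, 0, 32]) (.far [0, 1, 0, 0, 4]) (.node [4, 5]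
(.far [0, 0, 0, 0, 128, 29]) (.far [0, 0, 0, 0, 128, 29]) (.far [0, 0, 0, 0, 128, 29]) (.far [0, 0, 0, 0, 128, 29]) (.far [0, 0, 0, 0, 128, 29]) (.far [0, 0, 0, 0, 128, 29]) (.far [0, 0, 0, 0, 128, 29]) (.far [0, 0, 0, 0, 128, 29]))) (.far [1, 0, 2]) (.far [0, 0, 0, 0, 0, 0, 1]) .leaf (.node [4, 5, 1]
(.far [0, 1, 0, 0, 0, 16]) (.node [4, 5, 0]
(.far [0, 0, 0, 0, 0, 0, 1]) .leaf (.far [0, 5, 0, 0, 0, 256]) (.far [1, 0, 2]) (.far [0, 0, 0, 0, 0, 0, 1]) .leaf (.far [0, 5, 0, 0, 0, 256]) (.far [1, 0, 0, 0, 1073741824])) (.far [0, 1, 0, 1, 0, 4]) (.node [4, 0]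
(.node [4, 5]
(.far [0, 1, 0, 0, 0, 2]) (.node [4, 5, 0]
(.far [0, 0, 0, 0, 0, 0, 1]) .leaf (.node [5, 6, 1]
(.far [0, 1, 0, 0, 0, 2]) (.far [0, 0, 1, 0, 0, 4]) (.far [0, 1, 0, 0, 4]) (.node [4, 5, 6]
(.far [0, 1, 0, 0, 0, 4]) (.far [2, 0, 0, 0, 8, 0, 7]) (.far [0, 7, 0, 0, 128, 0, 19]) (.far [2, 0, 0, 0, 8, 0, 7]) (.far [0, 1, 0, 0, 0, 4]) (.far [2, 0, 0, 0, 8, 0, 7]) (.far [0, 7, 0, 0, 128, 0, 19]) (.far [2, 0, 0, 0, 8, 0, 7])) (.far [0, 1, 0, 0, 0, 2]) (.far [0, 0, 1, 0, 0, 4]) (.far [0, 1, 0, 0, 4]) (.node [4, 5, 6]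
(.far [0, 1, 0, 0, 0, 4]) (.far [2, 0, 0, 0, 8, 0, 7]) (.far [0, 7, 0, 0, 128, 0, 19]) (.far [2, 0, 0, 0, 8, 0, 7]) (.far [0, 1, 0, 0, 0, 4]) (.far [2, 0, 0, 0, 8, 0, 7]) (.far [0, 7, 0, 0, 128, 0, 19]) (.far [2, 0, 0, 0, 8, 0, 7]))) (.far [1, 0, 2]) (.far [0, 0, 0, 0, 0, 0, 1]) .leaf (.node [4, 5, 6, 1]
(.far [0, 1, 0, 0, 0, 0, 2]) (.far [0, 0, 1, 0, 0, 0, 4]) (.far [0, 1, 0, 0, 0, 4]) (.node [5, 6, 7]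
(.far [0, 1, 0, 0, 0, 4]) (.far [2, 0, 0, 0, 16, 0, 11]) (.far [0, 7, 0, 0, 128, 0, 19]) (.far [2, 0, 0, 0, 16, 0, 11]) (.far [0, 1, 0, 0, 0, 4]) (.far [2, 0, 0, 0, 16, 0, 11]) (.far [0, 7, 0, 0, 128, 0, 19]) (.far [2, 0, 0, 0, 16, 0, 11])) (.far [0, 1, 0, 0, 0, 0, 2]) (.far [0, 0, 1, 0, 0, 0, 4]) (.far [0, 1, 0, 0, 0, 4]) (.node [4, 5, 6, 7]
(.far [0, 1, 0, 0, 0, 0, 4]) (.far [3, 0, 0, 0, 0, 64, 0, 28]) (.far [0, 7, 0, 0, 0, 128, 0, 19]) (.far [3, 0, 0, 0, 0, 64, 0, 28]) (.far [0, 1, 0, 0, 0, 0, 4]) (.far [3, 0, 0, 0, 8589934592]) (.far [0, 7, 0, 0, 0, 128, 0, 19]) (.far [3, 0, 0, 0, 8589934592]))) (.far [1, 0, 2])) (.far [0, 9, 0, 0, 0, 16]) (.node [4, 5, 0]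
(.far [0, 0, 0, 0, 68719476736, 87, 71]) (.far [0, 0, 0, 0, 68719476736, 87, 71]) (.far [0, 0, 0, 0, 68719476736, 87, 71]) (.far [0, 0, 0, 0, 68719476736, 87, 71]) (.far [0, 0, 0, 0, 4294967296, 0, 7]) (.far [0, 0, 0, 0, 4294967296, 0, 7]) (.far [0, 0, 0, 0, 4294967296, 0, 7]) (.far [0, 0, 0, 0, 4294967296, 0, 7])) (.far [0, 1, 0, 0, 0, 2]) .leaf (.far [0, 9, 0, 0, 0, 16]) (.node [4, 0]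
(.far [0, 0, 0, 0, 4294967296, 7]) (.far [0, 0, 0, 0, 4294967296, 7]) (.far [0, 0, 0, 0, 4294967296, 7]) (.far [0, 0, 0, 0, 4294967296, 7]) (.far [0, 0, 0, 0, 4294967296, 7]) (.far [0, 0, 0, 0, 4294967296, 7]) (.far [0, 0, 0, 0, 4294967296, 7]) (.far [0, 0, 0, 0, 4294967296, 7]))) (.far [3, 0, 0, 0, 1073741824]) (.node [4, 5]
(.far [0, 9, 0, 0, 0, 16]) (.node [4, 5, 0]
(.far [0, 0, 0, 0, 2147483648, 1, 4]) (.far [0, 0, 0, 0, 2147483648, 1, 4]) (.far [0, 0, 0, 0, 2147483648, 1, 4]) (.far [0, 0, 0, 0, 2147483648, 1, 4]) (.far [0, 0, 0, 0, 536870912, 0, 1]) (.far [0, 0, 0, 0, 536870912, 0, 1]) (.far [0, 0, 0, 0, 536870912, 0, 1]) (.far [0, 0, 0, 0, 536870912, 0, 1])) (.far [0, 9, 0, 0, 0, 16]) (.node [4, 5, 0]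
(.far [0, 0, 0, 0, 2147483648, 1, 4]) (.far [0, 0, 0, 0, 2147483648, 1, 4]) (.far [0, 0, 0, 0, 2147483648, 1, 4]) (.far [0, 0, 0, 0, 2147483648, 1, 4]) (.far [0, 0, 0, 0, 536870912, 0, 1]) (.far [0, 0, 0, 0, 536870912, 0, 1]) (.far [0, 0, 0, 0, 536870912, 0, 1]) (.far [0, 0, 0, 0, 536870912, 0, 1])) (.far [0, 9, 0, 0, 0, 16]) (.node [4, 0]
(.far [0, 0, 0, 0, 536870912, 1]) (.far [0, 0, 0, 0, 536870912, 1]) (.far [0, 0, 0, 0, 536870912, 1]) (.far [0, 0, 0, 0, 536870912, 1]) (.far [0, 0, 0, 0, 536870912, 1]) (.far [0, 0, 0, 0, 536870912, 1]) (.far [0, 0, 0, 0, 536870912, 1]) (.far [0, 0, 0, 0, 536870912, 1])) (.far [0, 9, 0, 0, 0, 16]) (.node [4, 0]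
(.far [0, 0, 0, 0, 536870912, 1]) (.far [0, 0, 0, 0, 536870912, 1]) (.far [0, 0, 0, 0, 536870912, 1]) (.far [0, 0, 0, 0, 536870912, 1]) (.far [0, 0, 0, 0, 536870912, 1]) (.far [0, 0, 0, 0, 536870912, 1]) (.far [0, 0, 0, 0, 536870912, 1]) (.far [0, 0, 0, 0, 536870912, 1]))) (.far [3, 0, 0, 0, 1073741824]) (.far [0, 0, 0, 11, 8589934592]) (.far [1, 0, 0, 0, 536870912]) (.far [0, 0, 0, 11, 8589934592]) (.far [1, 0, 0, 0, 536870912])) .leaf (.far [0, 0, 0, 0, 0, 0, 1]) .leaf (.far [0, 0, 0, 0, 0, 0, 1])) (.far [1, 0, 0, 0, 134217728])) (.far [0, 9, 0, 0, 0, 0, 16]) (.node [4, 0]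
(.far [0, 0, 0, 0, 67108864, 1]) (.far [0, 0, 0, 0, 67108864, 1]) (.far [0, 0, 0, 0, 67108864, 1]) (.far [0, 0, 0, 0, 67108864, 1]) (.far [0, 0, 0, 0, 67108864, 1]) (.far [0, 0, 0, 0, 67108864, 1]) (.far [0, 0, 0, 0, 67108864, 1]) (.far [0, 0, 0, 0, 67108864, 1]))) (.far [1, 0, 2]) (.far [0, 0, 0, 0, 0, 0, 1]) .leaf (.far [0, 0, 0, 1, 134217728]) (.far [1, 0, 0, 0, 67108864])) (.far [0, 1, 0, 1, 0, 32]) (.node [4, 0]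
(.far [0, 0, 0, 0, 16777216, 1]) (.far [0, 0, 0, 0, 16777216, 1]) (.far [0, 0, 0, 0, 16777216, 1]) (.far [0, 0, 0, 0, 16777216, 1]) (.far [0, 0, 0, 0, 16777216, 1]) (.far [0, 0, 0, 0, 16777216, 1]) (.far [0, 0, 0, 0, 16777216, 1]) (.far [0, 0, 0, 0, 16777216, 1])) .leaf (.far [0, 0, 0, 0, 0, 0, 1]) .leaf (.far [0, 0, 0, 0, 0, 0, 1])) (.far [1, 0, 0, 0, 8388608])) (.far [0, 3, 0, 0, 0, 32]) (.node [4, 0]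
(.far [0, 0, 0, 0, 8388608, 3]) (.far [0, 0, 0, 0, 8388608, 3]) (.far [0, 0, 0, 0, 8388608, 3]) (.far [0, 0, 0, 0, 8388608, 3]) (.far [0, 0, 0, 0, 8388608, 3]) (.far [0, 0, 0, 0, 8388608, 3]) (.far [0, 0, 0, 0, 8388608, 3]) (.far [0, 0, 0, 0, 8388608, 3]))) (.far [3, 0, 0, 0, 4194304]) (.node [4, 6]
(.far [0, 35, 0, 0, 0, 64]) (.node [4, 5, 0]
(.far [0, 0, 0, 0, 67108864, 10, 27]) (.far [0, 0, 0, 0, 67108864, 10, 27]) (.far [0, 0, 0, 0, 67108864, 10, 27]) (.far [0, 0, 0, 0, 67108864, 10, 27]) (.far [0, 0, 0, 0, 2097152, 0, 1]) (.far [0, 0, 0, 0, 2097152, 0, 1]) (.far [0, 0, 0, 0, 2097152, 0, 1]) (.far [0, 0, 0, 0, 2097152, 0, 1])) (.far [0, 35, 0, 0, 0, 64]) (.node [4, 5, 0]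
(.far [0, 0, 0, 0, 67108864, 10, 27]) (.far [0, 0, 0, 0, 67108864, 10, 27]) (.far [0, 0, 0, 0, 67108864, 10, 27]) (.far [0, 0, 0, 0, 67108864, 10, 27]) (.far [0, 0, 0, 0, 2097152, 0, 1]) (.far [0, 0, 0, 0, 2097152, 0, 1]) (.far [0, 0, 0, 0, 2097152, 0, 1]) (.far [0, 0, 0, 0, 2097152, 0, 1])) (.far [0, 35, 0, 0, 0, 64]) (.node [4, 0]
(.far [0, 0, 0, 0, 2097152, 1]) (.far [0, 0, 0, 0, 2097152, 1]) (.far [0, 0, 0, 0, 2097152, 1]) (.far [0, 0, 0, 0, 2097152, 1]) (.far [0, 0, 0, 0, 2097152, 1]) (.far [0, 0, 0, 0, 2097152, 1]) (.far [0, 0, 0, 0, 2097152, 1]) (.far [0, 0, 0, 0, 2097152, 1])) (.far [0, 35, 0, 0, 0, 64]) (.node [4, 0]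
(.far [0, 0, 0, 0, 2097152, 1]) (.far [0, 0, 0, 0, 2097152, 1]) (.far [0, 0, 0, 0, 2097152, 1]) (.far [0, 0, 0, 0, 2097152, 1]) (.far [0, 0, 0, 0, 2097152, 1]) (.far [0, 0, 0, 0, 2097152, 1]) (.far [0, 0, 0, 0, 2097152, 1]) (.far [0, 0, 0, 0, 2097152, 1]))) (.far [3, 0, 0, 0, 4194304]) (.far [0, 0, 0, 5, 16777216]) (.far [1, 0, 0, 0, 2097152]) (.far [0, 0, 0, 5, 16777216]) (.far [1, 0, 0, 0, 2097152])) .leaf (.far [0, 0, 0, 0, 0, 0, 1]) .leaf (.far [0, 0, 0, 0, 0, 0, 1])) (.far [1, 0, 0, 0, 524288]) (.node [4, 5, 6, 1]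
(.far [0, 1, 0, 1, 0, 2]) (.node [4, 5, 0]
(.node [4, 5, 6]
(.far [0, 1, 0, 0, 0, 16]) (.far [1, 0, 0, 0, 8388608, 0, 4]) (.far [0, 35, 0, 0, 0, 0, 64]) (.far [1, 0, 0, 0, 8388608, 0, 4]) (.far [0, 1, 0, 0, 0, 16]) (.far [5, 0, 0, 0, 16777216]) (.far [0, 35, 0, 0, 0, 0, 64]) (.far [5, 0, 0, 0, 16777216])) (.far [1, 0, 0, 0, 2097152, 0, 1]) (.node [4, 6]
(.far [0, 35, 0, 0, 0, 64]) (.far [1, 0, 0, 0, 8388608, 4]) (.far [0, 35, 0, 0, 0, 64]) (.far [1, 0, 0, 0, 8388608, 4]) (.far [0, 35, 0, 0, 0, 64]) (.far [5, 0, 0, 0, 16777216]) (.far [0, 35, 0, 0, 0, 64]) (.far [5, 0, 0, 0, 16777216])) (.far [1, 0, 0, 0, 2097152, 0, 1]) (.far [0, 0, 0, 3, 8388608]) (.far [1, 0, 0, 0, 2097152]) (.far [0, 0, 0, 3, 8388608]) (.far [1, 0, 0, 0, 2097152])) (.far [0, 1, 0, 1, 0, 0, 2])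 (.node [4, 0]
(.node [4, 5]
(.far [0, 35, 0, 0, 0, 64]) (.far [1, 0, 0, 0, 8388608, 4]) (.far [0, 35, 0, 0, 0, 64]) (.far [1, 0, 0, 0, 8388608, 4]) (.far [0, 35, 0, 0, 0, 64]) (.far [5, 0, 0, 0, 16777216]) (.far [0, 35, 0, 0, 0, 64]) (.far [5, 0, 0, 0, 16777216])) (.far [1, 0, 0, 0, 2097152, 1]) (.node [4, 5]
(.far [0, 35, 0, 0, 0, 64]) (.far [1, 0, 0, 0, 8388608, 4]) (.far [0, 35, 0, 0, 0, 64]) (.far [1, 0, 0, 0, 8388608, 4]) (.far [0, 35, 0, 0, 0, 64]) (.far [5, 0, 0, 0, 16777216]) (.far [0, 35, 0, 0, 0, 64]) (.far [5, 0, 0, 0, 16777216])) (.far [1, 0, 0, 0, 2097152, 1]) (.far [0, 0, 0, 3, 8388608]) (.far [1, 0, 0, 0, 2097152]) (.far [0, 0, 0, 3, 8388608]) (.far [1, 0, 0, 0, 2097152])) .leaf (.far [0, 0, 0, 0, 0, 0, 0, 1]) .leaf (.far [0, 0, 0, 0, 0, 0, 0, 1]))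 (.far [1, 0, 0, 0, 524288]))) (.far [1, 0, 2])) (.far [0, 69, 0, 0, 0, 0, 128]) (.node [4, 6, 0]
(.far [0, 0, 0, 0, 8388608, 29, 38]) (.far [0, 0, 0, 0, 8388608, 29, 38]) (.far [0, 0, 0, 0, 8388608, 29, 38]) (.far [0, 0, 0, 0, 8388608, 29, 38]) (.far [0, 0, 0, 0, 524288, 0, 3]) (.far [0, 0, 0, 0, 524288, 0, 3]) (.far [0, 0, 0, 0, 524288, 0, 3]) (.far [0, 0, 0, 0, 524288, 0, 3])) (.far [0, 1, 0, 0, 0, 16]) (.far [1, 0, 0, 0, 262144]) (.far [0, 69, 0, 0, 0, 0, 128]) (.far [1, 0, 0, 0, 262144])) (.far [3, 0, 0, 0, 262144]) (.node [4, 6]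
(.far [0, 69, 0, 0, 0, 128]) (.node [4, 0]
(.far [0, 0, 0, 0, 1048576, 9]) (.far [0, 0, 0, 0, 1048576, 9]) (.far [0, 0, 0, 0, 1048576, 9]) (.far [0, 0, 0, 0, 1048576, 9]) (.far [0, 0, 0, 0, 131072, 1]) (.far [0, 0, 0, 0, 131072, 1]) (.far [0, 0, 0, 0, 131072, 1]) (.far [0, 0, 0, 0, 131072, 1])) (.far [0, 69, 0, 0, 0, 128]) (.node [4, 0]
(.far [0, 0, 0, 0, 1048576, 9]) (.far [0, 0, 0, 0, 1048576, 9]) (.far [0, 0, 0, 0, 1048576, 9]) (.far [0, 0, 0, 0, 1048576, 9]) (.far [0, 0, 0, 0, 131072, 1]) (.far [0, 0, 0, 0, 131072, 1]) (.far [0, 0, 0, 0, 131072, 1]) (.far [0, 0, 0, 0, 131072, 1])) (.far [0, 69, 0, 0, 0, 128]) (.far [1, 0, 0, 0, 262144]) (.far [0, 69, 0, 0, 0, 128]) (.far [1, 0, 0, 0, 262144])) (.far [3, 0, 0, 0, 262144]) (.far [0, 0, 0, 3, 524288]) (.far [1, 0,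 0, 0, 131072]) (.far [0, 0, 0, 3, 524288]) (.far [1, 0, 0, 0, 131072])) (.far [0, 1, 0, 2]) (.node [4, 0]
(.node [4, 5]
(.far [0, 69, 0, 0, 0, 128]) (.node [4, 0]
(.far [0, 0, 0, 0, 524288, 5]) (.far [0, 0, 0, 0, 524288, 5]) (.far [0, 0, 0, 0, 524288, 5]) (.far [0, 0, 0, 0, 524288, 5]) (.far [0, 0, 0, 0, 131072, 1]) (.far [0, 0, 0, 0, 131072, 1]) (.far [0, 0, 0, 0, 131072, 1]) (.far [0, 0, 0, 0, 131072, 1])) (.far [0, 69, 0, 0, 0, 128]) (.node [4, 0]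
(.far [0, 0, 0, 0, 524288, 5]) (.far [0, 0, 0, 0, 524288, 5]) (.far [0, 0, 0, 0, 524288, 5]) (.far [0, 0, 0, 0, 524288, 5]) (.far [0, 0, 0, 0, 131072, 1]) (.far [0, 0, 0, 0, 131072, 1]) (.far [0, 0, 0, 0, 131072, 1]) (.far [0, 0, 0, 0, 131072, 1])) (.far [0, 69, 0, 0, 0, 128]) (.far [1, 0, 0, 0, 262144]) (.far [0, 69, 0, 0, 0, 128]) (.far [1, 0, 0, 0, 262144])) (.far [3, 0, 0, 0, 262144]) (.node [4, 5]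
(.far [0, 69, 0, 0, 0, 128]) (.node [4, 0]
(.far [0, 0, 0, 0, 524288, 5]) (.far [0, 0, 0, 0, 524288, 5]) (.far [0, 0, 0, 0, 524288, 5]) (.far [0, 0, 0, 0, 524288, 5]) (.far [0, 0, 0, 0, 131072, 1]) (.far [0, 0, 0, 0, 131072, 1]) (.far [0, 0, 0, 0, 131072, 1]) (.far [0, 0, 0, 0, 131072, 1])) (.far [0, 69, 0, 0, 0, 128]) (.node [4, 0]
(.far [0, 0, 0, 0, 524288, 5]) (.far [0, 0, 0, 0, 524288, 5]) (.far [0, 0, 0, 0, 524288, 5]) (.far [0, 0, 0, 0, 524288, 5]) (.far [0, 0, 0, 0, 131072, 1]) (.far [0, 0, 0, 0, 131072, 1]) (.far [0, 0, 0, 0, 131072, 1]) (.far [0, 0, 0, 0, 131072, 1])) (.far [0, 69, 0, 0, 0, 128]) (.far [1, 0, 0, 0, 262144]) (.far [0, 69, 0, 0, 0, 128]) (.far [1, 0, 0, 0, 262144])) (.far [3, 0, 0, 0, 262144]) (.far [0, 0, 0, 3, 524288]) (.far [1, 0, 0, 0,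 131072]) (.far [0, 0, 0, 3, 524288]) (.far [1, 0, 0, 0, 131072])) .leaf (.far [0, 0, 0, 0, 0, 0, 1]) .leaf (.far [0, 0, 0, 0, 0, 0, 1])) (.far [1, 0, 0, 0, 65536]))) (.far [1, 0, 2]) (.far [0, 0, 0, 0, 0, 1]) .leaf (.node [4, 5, 1]
(.far [0, 1, 0, 0, 0, 8]) (.far [3, 0, 0, 0, 262144]) (.far [0, 1, 0, 1, 0, 2]) (.far [3, 0, 0, 0, 262144]) .leaf (.far [0, 0, 0, 0, 0, 0, 1]) .leaf (.far [0, 0, 0, 0, 0, 0, 1])) (.far [1, 0, 0, 0, 32768])) (.far [0, 9, 0, 0, 0, 16]) (.node [4, 0]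
(.far [0, 0, 0, 0, 32768, 3]) (.far [0, 0, 0, 0, 32768, 3]) (.far [0, 0, 0, 0, 32768, 3]) (.far [0, 0, 0, 0, 32768, 3]) (.far [0, 0, 0, 0, 32768, 3]) (.far [0, 0, 0, 0, 32768, 3]) (.far [0, 0, 0, 0, 32768, 3]) (.far [0, 0, 0, 0, 32768, 3]))) (.far [3, 0, 0, 0, 16384]) (.node [4, 5]
(.far [0, 9, 0, 0, 0, 16]) (.node [4, 5, 0]
(.far [0, 0, 0, 0, 32768, 1, 4]) (.far [0, 0, 0, 0, 32768, 1, 4]) (.far [0, 0, 0, 0, 32768, 1, 4]) (.far [0, 0, 0, 0, 32768, 1, 4]) (.far [0, 0, 0, 0, 8192, 0, 1]) (.far [0, 0, 0, 0, 8192, 0, 1]) (.far [0, 0, 0, 0, 8192, 0, 1]) (.far [0, 0, 0, 0, 8192, 0, 1])) (.far [0, 9, 0, 0, 0, 16]) (.node [4, 5, 0]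
(.far [0, 0, 0, 0, 32768, 1, 4]) (.far [0, 0, 0, 0, 32768, 1, 4]) (.far [0, 0, 0, 0, 32768, 1, 4]) (.far [0, 0, 0, 0, 32768, 1, 4]) (.far [0, 0, 0, 0, 8192, 0, 1]) (.far [0, 0, 0, 0, 8192, 0, 1]) (.far [0, 0, 0, 0, 8192, 0, 1]) (.far [0, 0, 0, 0, 8192, 0, 1])) (.far [0, 9, 0, 0, 0, 16]) (.node [4, 0]
(.far [0, 0, 0, 0, 8192, 1]) (.far [0, 0, 0, 0, 8192, 1]) (.far [0, 0, 0, 0, 8192, 1]) (.far [0, 0, 0, 0, 8192, 1]) (.far [0, 0, 0, 0, 8192, 1]) (.far [0, 0, 0, 0, 8192, 1]) (.far [0, 0, 0, 0, 8192, 1]) (.far [0, 0, 0, 0, 8192, 1])) (.far [0, 9, 0, 0, 0, 16]) (.node [4, 0]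
(.far [0, 0, 0, 0, 8192, 1]) (.far [0, 0, 0, 0, 8192, 1]) (.far [0, 0, 0, 0, 8192, 1]) (.far [0, 0, 0, 0, 8192, 1]) (.far [0, 0, 0, 0, 8192, 1]) (.far [0, 0, 0, 0, 8192, 1]) (.far [0, 0, 0, 0, 8192, 1]) (.far [0, 0, 0, 0, 8192, 1]))) (.far [3, 0, 0, 0, 16384]) (.far [0, 0, 0, 5, 65536]) (.far [1, 0, 0, 0, 8192]) (.far [0, 0, 0, 5, 65536]) (.far [1, 0, 0, 0, 8192])) .leaf (.far [0, 0, 0, 0, 0, 0, 1]) .leaf (.far [0, 0, 0, 0, 0, 0, 1])) (.far [1, 0, 0, 0, 2048])) (.far [0, 7, 0, 0, 0, 128]) (.node [4, 0]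
(.far [0, 0, 0, 0, 8192, 9]) (.far [0, 0, 0, 0, 8192, 9]) (.far [0, 0, 0, 0, 8192, 9]) (.far [0, 0, 0, 0, 8192, 9]) (.far [0, 0, 0, 0, 8192, 9]) (.far [0, 0, 0, 0, 8192, 9]) (.far [0, 0, 0, 0, 8192, 9]) (.far [0, 0, 0, 0, 8192, 9]))) (.far [1, 0, 0, 0, 512]) (.node [4, 6]
(.far [0, 9, 0, 0, 0, 16]) (.node [4, 0]
(.far [0, 0, 0, 0, 8192, 13]) (.far [0, 0, 0, 0, 8192, 13]) (.far [0, 0, 0, 0, 8192, 13]) (.far [0, 0, 0, 0, 8192, 13]) (.far [0, 0, 0, 0, 2048, 3]) (.far [0, 0, 0, 0, 2048, 3]) (.far [0, 0, 0, 0, 2048, 3]) (.far [0, 0, 0, 0, 2048, 3])) (.far [0, 9, 0, 0, 0, 16]) (.node [4, 0]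
(.far [0, 0, 0, 0, 8192, 13]) (.far [0, 0, 0, 0, 8192, 13]) (.far [0, 0, 0, 0, 8192, 13]) (.far [0, 0, 0, 0, 8192, 13]) (.far [0, 0, 0, 0, 2048, 3]) (.far [0, 0, 0, 0, 2048, 3]) (.far [0, 0, 0, 0, 2048, 3]) (.far [0, 0, 0, 0, 2048, 3])) (.far [0, 9, 0, 0, 0, 16]) (.node [4, 0]
(.far [0, 0, 0, 0, 2048, 3]) (.far [0, 0, 0, 0, 2048, 3]) (.far [0, 0, 0, 0, 2048, 3]) (.far [0, 0, 0, 0, 2048, 3]) (.far [0, 0, 0, 0, 2048, 3]) (.far [0, 0, 0, 0, 2048, 3]) (.far [0, 0, 0, 0, 2048, 3]) (.far [0, 0, 0, 0, 2048, 3])) (.far [0, 9, 0, 0, 0, 16]) (.node [4, 0]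
(.far [0, 0, 0, 0, 2048, 3]) (.far [0, 0, 0, 0, 2048, 3]) (.far [0, 0, 0, 0, 2048, 3]) (.far [0, 0, 0, 0, 2048, 3]) (.far [0, 0, 0, 0, 2048, 3]) (.far [0, 0, 0, 0, 2048, 3]) (.far [0, 0, 0, 0, 2048, 3]) (.far [0, 0, 0, 0, 2048, 3]))) (.far [1, 0, 0, 0, 512]) (.node [4, 1, 3]
(.far [0, 1, 0, 0, 0, 0, 2]) (.far [1, 0, 0, 0, 2048]) (.far [0, 1, 0, 1, 0, 0, 1]) (.far [1, 0, 0, 0, 2048]) .leaf (.far [0, 0, 0, 0, 0, 1]) .leaf (.far [0, 0, 0, 0, 0, 1])) (.far [1, 0, 0, 0, 512]) (.node [4, 1, 3]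
(.far [0, 2, 0, 0, 2048, 0, 5]) (.far [1, 0, 0, 0, 2048]) (.far [0, 2, 0, 0, 2048, 0, 5]) (.far [1, 0, 0, 0, 2048]) .leaf (.far [0, 0, 0, 0, 0, 1]) .leaf (.far [0, 0, 0, 0, 0, 1])) (.far [1, 0, 0, 0, 512])) .leaf (.far [0, 0, 0, 0, 0, 0, 1]) .leaf (.far [0, 0, 0, 0, 0, 0, 1])) (.far [1, 0, 0, 0, 256])) (.far [0, 9, 0, 0, 0, 16]) (.node [4, 0]
(.far [0, 0, 0, 0, 256, 3]) (.far [0, 0, 0, 0, 256, 3]) (.far [0, 0, 0, 0, 256, 3]) (.far [0, 0, 0, 0, 256, 3]) (.far [0, 0, 0, 0, 256, 3]) (.far [0, 0, 0, 0, 256, 3]) (.far [0, 0, 0, 0, 256, 3]) (.far [0, 0, 0, 0, 256, 3]))) (.far [1, 0, 2]) (.far [0, 0, 0, 0, 0, 1]) .leaf (.far [0, 0, 0, 1, 256]) (.far [1, 0, 0, 0, 64])) (.far [0, 1, 0, 1, 0, 2]) (.node [4, 0]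
(.far [0, 0, 0, 0, 64, 3]) (.far [0, 0, 0, 0, 64, 3]) (.far [0, 0, 0, 0, 64, 3]) (.far [0, 0, 0, 0, 64, 3]) (.far [0, 0, 0, 0, 64, 3]) (.far [0, 0, 0, 0, 64, 3]) (.far [0, 0, 0, 0, 64, 3]) (.far [0, 0, 0, 0, 64, 3])) .leaf (.far [0, 0, 0, 0, 0, 0, 1]) .leaf (.far [0, 0, 0, 0, 0, 0, 1])) (.far [1, 0, 0, 0, 8])) (.far [0, 2, 0, 1, 0, 4]) (.node [4, 0]
(.far [0, 0, 0, 0, 16, 3]) (.far [0, 0, 0, 0, 16, 3]) (.far [0, 0, 0, 0, 16, 3]) (.far [0, 0, 0, 0, 16, 3]) (.far [0, 0, 0, 0, 16, 3]) (.far [0, 0, 0, 0, 16, 3]) (.far [0, 0, 0, 0, 16, 3]) (.far [0, 0, 0, 0, 16, 3]))) (.far [3, 0, 4]) .leaf .leaf (.far [0, 0, 0, 1, 8]) (.far [1, 0, 0, 0, 4])) (.far [0, 1, 0, 1, 0, 1]) (.node [4, 0]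
(.far [0, 0, 0, 7, 64, 43]) (.far [1, 0, 0, 0, 4, 2]) (.far [0, 0, 0, 7, 64, 43]) (.far [1, 0, 0, 0, 4, 2]) (.far [0, 0, 0, 1, 4]) (.far [1, 0, 0, 0, 2]) (.far [0, 0, 0, 1, 4]) (.far [1, 0, 0, 0, 2])) .leaf (.far [0, 0, 0, 0, 1]) .leaf (.far [0, 0, 0, 0, 1]))

/-- A certificate. -/
def p0 : Tr := (.node [4, 1]
(.far [0, 1, 0, 0, 8796093022208]) (.node [4, 5, 0]
(.far [0, 0, 0, 0, 0, 0, 1]) .leaf (.node [4, 1]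
(.far [0, 0, 0, 0, 17592186044416, 1]) (.far [0, 0, 0, 0, 17592186044416, 1]) (.far [0, 0, 0, 0, 17592186044416, 1]) (.far [0, 0, 0, 0, 17592186044416, 1]) (.far [0, 0, 0, 0, 17592186044416, 1]) (.far [0, 0, 0, 0, 17592186044416, 1]) (.far [0, 0, 0, 0, 17592186044416, 1]) (.far [0, 0, 0, 0, 17592186044416, 1])) (.far [3, 0, 4]) (.far [0, 0, 0, 0, 0, 0, 1]) .leaf (.node [4, 1]
(.far [0, 1, 0, 0, 70368744177664]) (.far [0, 0, 1, 0, 140737488355328]) (.far [0, 1, 0, 1, 17592186044416]) (.node [4, 5, 0]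
(.node [4, 1]
(.far [0, 0, 0, 0, 70368744177664, 1]) (.far [0, 0, 0, 0, 70368744177664, 1]) (.far [0, 0, 0, 0, 70368744177664, 1]) (.far [0, 0, 0, 0, 70368744177664, 1]) (.far [0, 0, 0, 0, 70368744177664, 1]) (.far [0, 0, 0, 0, 70368744177664, 1]) (.far [0, 0, 0, 0, 70368744177664, 1]) (.far [0, 0, 0, 0, 70368744177664, 1])) (.far [9, 0, 0, 0, 0, 16]) (.node [4, 5, 6, 1]
(.far [0, 0, 0, 0, 281474976710656, 0, 0, 5]) (.far [0, 0, 0, 0, 281474976710656, 0, 0, 5]) (.far [0, 2, 0, 0, 4294967296, 0, 9, 3]) (.node [4, 7, 0]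
(.far [0, 0, 0, 0, 140737488355328, 3]) (.far [0, 0, 0, 0, 140737488355328, 3]) (.far [0, 0, 2, 0, 562949953421312, 31, 15]) (.far [1, 0, 0, 0, 70368744177664, 4, 1]) (.far [0, 0, 0, 0, 140737488355328, 3]) (.far [0, 0, 0, 0, 140737488355328, 3]) (.far [0, 0, 2, 0, 562949953421312, 31, 15]) (.far [1, 0, 0, 0, 70368744177664, 4, 1])) (.far [0, 0, 0, 0, 281474976710656, 0, 0, 5]) (.far [0, 0, 0, 0, 281474976710656, 0, 0, 5]) (.far [0, 2, 0, 0, 4294967296, 0, 9, 3]) (.node [4, 5, 7, 0]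
(.far [0, 0, 0, 0, 281474976710656, 0, 7, 2]) (.far [0, 0, 0, 0, 281474976710656, 0, 7, 2]) (.far [0, 0, 3, 0, 1125899906842624, 0, 62, 32]) (.far [1, 0, 0, 0, 70368744177664, 0, 4, 1]) (.far [0, 0, 0, 0, 140737488355328, 0, 3]) (.far [0, 0, 0, 0, 140737488355328, 0, 3]) (.far [0, 0, 0, 11, 0, 64]) (.far [1, 0, 0, 0, 0, 0, 2]))) (.far [9, 0, 0, 0, 0, 16]) (.node [4, 5, 1]
(.far [0, 1, 0, 0, 140737488355328]) (.node [4, 5, 0]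
(.far [0, 0, 0, 0, 0, 0, 1]) .leaf (.node [4, 5, 1]
(.far [0, 1, 0, 0, 562949953421312]) (.far [0, 0, 3, 0, 2251799813685248]) (.far [0, 1, 0, 0, 281474976710656]) (.node [4, 6]
(.node [4, 1]
(.far [0, 0, 0, 0, 562949953421312, 1]) (.far [0, 0, 0, 0, 562949953421312, 1]) (.far [0, 0, 0, 0, 562949953421312, 1]) (.far [0, 0, 0, 0, 562949953421312, 1]) (.far [0, 0, 0, 0, 562949953421312, 1]) (.far [0, 0, 0, 0, 562949953421312, 1]) (.far [0, 0, 0, 0, 562949953421312, 1]) (.far [0, 0, 0, 0, 562949953421312, 1])) (.far [1, 0, 0, 0, 562949953421312, 4]) (.node [4, 1]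
(.far [0, 0, 0, 0, 562949953421312, 1]) (.far [0, 0, 0, 0, 562949953421312, 1]) (.far [0, 0, 0, 0, 4503599627370496, 11]) (.far [0, 0, 0, 0, 4503599627370496, 11]) (.far [0, 0, 0, 0, 562949953421312, 1]) (.far [0, 0, 0, 0, 562949953421312, 1]) (.far [0, 0, 0, 0, 4503599627370496, 11]) (.far [0, 0, 0, 0, 4503599627370496, 11])) (.far [1, 0, 0, 0, 562949953421312, 4]) (.node [4, 1]
(.far [0, 0, 0, 0, 562949953421312, 1]) (.far [0, 0, 0, 0, 562949953421312, 1]) (.far [0, 0, 0, 0, 562949953421312, 1]) (.far [0, 0, 0, 0, 562949953421312, 1]) (.far [0, 0, 0, 0, 562949953421312, 1]) (.far [0, 0, 0, 0, 562949953421312, 1]) (.far [0, 0, 0, 0, 562949953421312, 1]) (.far [0, 0, 0, 0, 562949953421312, 1])) (.far [1, 0, 0, 0, 562949953421312, 4]) (.node [4, 1]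
(.far [0, 0, 0, 0, 562949953421312, 1]) (.far [0, 0, 0, 0, 562949953421312, 1]) (.far [0, 0, 0, 0, 4503599627370496, 11]) (.far [0, 0, 0, 0, 4503599627370496, 11]) (.far [0, 0, 0, 0, 562949953421312, 1]) (.far [0, 0, 0, 0, 562949953421312, 1]) (.far [0, 0, 0, 0, 4503599627370496, 11]) (.far [0, 0, 0, 0, 4503599627370496, 11])) (.far [1, 0, 0, 0, 562949953421312, 4])) (.far [0, 1, 0, 0, 562949953421312]) (.far [0, 0, 3, 0, 2251799813685248]) (.far [0, 1, 0, 0, 281474976710656]) (.node [4, 5, 6]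
(.node [4, 1]
(.far [0, 0, 0, 0, 562949953421312, 1]) (.far [0, 0, 0, 0, 562949953421312, 1]) (.far [0, 0, 0, 0, 562949953421312, 1]) (.far [0, 0, 0, 0, 562949953421312, 1]) (.far [0, 0, 0, 0, 562949953421312, 1]) (.far [0, 0, 0, 0, 562949953421312, 1]) (.far [0, 0, 0, 0, 562949953421312, 1]) (.far [0, 0, 0, 0, 562949953421312, 1])) (.far [9, 0, 0, 0, 0, 0, 16]) (.node [4, 6, 1]
(.far [0, 0, 0, 0, 562949953421312, 0, 1]) (.far [0, 0, 0, 0, 562949953421312, 0, 1]) (.far [0, 0, 0, 0, 36028797018963968, 47, 38]) (.far [0, 0, 0, 0, 36028797018963968, 47, 38]) (.far [0, 0, 0, 0, 562949953421312, 0, 1]) (.far [0, 0, 0, 0, 562949953421312, 0, 1]) (.far [0, 0, 0, 0, 36028797018963968, 47, 38]) (.far [0, 0, 0, 0, 36028797018963968, 47, 38])) (.far [9, 0, 0, 0, 0, 0, 16]) .leaf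 (.far [1, 0, 0, 0, 0, 32]) (.node [4, 5, 6, 1]
(.far [0, 1, 0, 1, 562949953421312]) (.node [5, 6, 0]
(.node [4, 5, 6]
(.far [0, 1, 0, 0, 0, 0, 2]) (.far [7, 0, 0, 0, 0, 128, 19]) (.far [0, 4, 0, 0, 1024, 0, 35]) (.far [7, 0, 0, 0, 0, 128, 19]) (.far [0, 1, 0, 0, 0, 0, 2]) (.far [1, 0, 0, 0, 128]) (.far [0, 4, 0, 0, 1024, 0, 35]) (.far [1, 0, 0, 0, 128])) (.far [3, 0, 0, 0, 128]) (.node [4, 5, 6]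
(.far [0, 3, 0, 0, 256, 0, 14]) (.far [7, 0, 0, 0, 0, 128, 19]) (.far [0, 3, 0, 0, 256, 0, 14]) (.far [7, 0, 0, 0, 0, 128, 19]) (.far [0, 3, 0, 0, 256, 0, 14]) (.far [1, 0, 0, 0, 128]) (.far [0, 3, 0, 0, 256, 0, 14]) (.far [1, 0, 0, 0, 128])) (.far [3, 0, 0, 0, 128]) (.far [0, 0, 0, 3, 256]) (.far [1, 0, 0, 0, 64]) (.far [0, 0, 0, 3, 256]) (.far [1, 0, 0, 0, 64])) (.far [0, 1, 0, 1, 281474976710656]) (.node [5, 6, 0]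
(.node [4, 5, 6]
(.far [0, 1, 0, 0, 64, 0, 4]) (.far [7, 0, 0, 0, 0, 128, 19]) (.far [0, 1, 0, 0, 64, 0, 4]) (.far [7, 0, 0, 0, 0, 128, 19]) (.far [0, 1, 0, 0, 64, 0, 4]) (.far [1, 0, 0, 0, 128]) (.far [0, 1, 0, 0, 64, 0, 4]) (.far [1, 0, 0, 0, 128])) (.far [3, 0, 0, 0, 128]) (.node [4, 5, 6]
(.far [0, 1, 0, 0, 64, 0, 4]) (.far [7, 0, 0, 0, 0, 128, 19]) (.far [0, 1, 0, 0, 64, 0, 4]) (.far [7, 0, 0, 0, 0, 128, 19]) (.far [0, 1, 0, 0, 64, 0, 4]) (.far [1, 0, 0, 0, 128]) (.far [0, 1, 0, 0, 64, 0, 4]) (.far [1, 0, 0, 0, 128])) (.far [3, 0, 0, 0, 128]) (.far [0, 0, 0, 3, 256]) (.far [1, 0, 0, 0, 64]) (.far [0, 0, 0, 3, 256]) (.far [1, 0, 0, 0, 64])) .leaf (.far [0, 0, 0, 0, 0, 0, 0, 1]) .leaf (.far [0, 0, 0, 0, 0, 0, 0, 1])) (.far [1, 0, 0, 0, 0, 32]))) (.far [3, 0, 4])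 (.far [0, 0, 0, 0, 0, 0, 1]) .leaf (.node [5, 1, 3]
(.far [0, 1, 0, 0, 0, 0, 2]) (.far [3, 0, 0, 0, 128]) (.far [0, 2, 0, 2, 0, 0, 1]) (.far [3, 0, 0, 0, 128]) .leaf (.far [0, 0, 0, 0, 0, 1]) .leaf (.far [0, 0, 0, 0, 0, 1])) (.far [1, 0, 0, 0, 0, 16])) (.far [0, 1, 0, 1, 70368744177664]) (.node [5, 0]
(.node [4, 5]
(.far [0, 0, 0, 0, 32, 7]) (.far [0, 0, 0, 0, 32, 7]) (.far [0, 0, 0, 0, 32, 7]) (.far [0, 0, 0, 0, 32, 7]) (.far [0, 0, 0, 0, 32, 7]) (.far [0, 0, 0, 0, 32, 7]) (.far [0, 0, 0, 0, 32, 7]) (.far [0, 0, 0, 0, 32, 7])) (.far [1, 0, 0, 0, 4]) (.node [4, 5]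
(.far [0, 0, 0, 0, 32, 7]) (.far [0, 0, 0, 0, 32, 7]) (.far [0, 0, 0, 0, 32, 7]) (.far [0, 0, 0, 0, 32, 7]) (.far [0, 0, 0, 0, 32, 7]) (.far [0, 0, 0, 0, 32, 7]) (.far [0, 0, 0, 0, 32, 7]) (.far [0, 0, 0, 0, 32, 7])) (.far [1, 0, 0, 0, 4]) (.far [0, 0, 0, 1, 8]) (.far [1, 0, 0, 0, 8]) (.far [0, 0, 0, 1, 8]) (.far [1, 0, 0, 0, 8])) .leaf (.far [0, 0, 0, 0, 0, 0, 1]) .leaf (.far [0, 0, 0, 0, 0, 0, 1])) (.far [1, 0, 0, 0, 0, 2]) (.node [5, 1, 3]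
(.far [0, 1, 0, 0, 4, 0, 3]) (.node [4, 0]
(.far [0, 0, 5, 0, 128, 41]) (.far [1, 0, 0, 0, 4]) (.far [0, 0, 5, 0, 128, 41]) (.far [1, 0, 0, 0, 4]) (.far [0, 0, 0, 1, 8]) (.far [1, 0, 0, 0, 4]) (.far [0, 0, 0, 1, 8]) (.far [1, 0, 0, 0, 4])) (.far [0, 1, 0, 0, 4, 0, 3]) (.node [4, 0]
(.far [0, 0, 5, 0, 128, 41]) (.far [1, 0, 0, 0, 4]) (.far [0, 0, 5, 0, 128, 41]) (.far [1, 0, 0, 0, 4]) (.far [0, 0, 0, 1, 8]) (.far [1, 0, 0, 0, 4]) (.far [0, 0, 0, 1, 8]) (.far [1, 0, 0, 0, 4])) .leaf (.far [0, 0, 0, 0, 0, 1]) .leaf (.far [0, 0, 0, 0, 0, 1])) (.far [1, 0, 0, 0, 0, 2])) .leaf (.far [0, 0, 0, 0, 0, 1]) .leaf (.far [0, 0, 0, 0, 0, 1])) (.far [1, 0, 0, 0, 0, 8])) (.far [0, 1, 0, 1, 2199023255552]) (.node [4, 5, 0]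
(.node [4, 5, 6, 1]
(.far [0, 1, 0, 0, 17592186044416]) (.node [5, 0]
(.far [0, 0, 0, 0, 0, 1]) .leaf (.node [5, 1]
(.far [0, 1, 0, 0, 2]) (.far [0, 0, 5, 0, 16]) (.far [0, 5, 0, 0, 8]) (.node [4, 5]
(.far [0, 1, 0, 0, 4]) (.far [2, 0, 0, 0, 5, 8]) (.node [4, 5, 1]
(.far [0, 0, 0, 0, 2, 0, 1]) (.far [0, 0, 0, 0, 2, 0, 1]) (.far [0, 0, 0, 0, 16, 1, 8]) (.far [0, 0, 0, 0, 16, 1, 8]) (.far [0, 0, 0, 0, 2, 0, 1]) (.far [0, 0, 0, 0, 2, 0, 1]) (.far [0, 0, 0, 0, 16, 1, 8]) (.far [0, 0, 0, 0, 16, 1, 8])) (.far [2, 0, 0, 0, 5, 8]) (.far [0, 1, 0, 0, 4]) (.far [2, 0, 0, 0, 5, 8]) (.node [4, 5, 1]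
(.far [0, 0, 0, 0, 2, 0, 1]) (.far [0, 0, 0, 0, 2, 0, 1]) (.far [0, 0, 0, 0, 16, 1, 8]) (.far [0, 0, 0, 0, 16, 1, 8]) (.far [0, 0, 0, 0, 2, 0, 1]) (.far [0, 0, 0, 0, 2, 0, 1]) (.far [0, 0, 0, 0, 16, 1, 8]) (.far [0, 0, 0, 0, 16, 1, 8])) (.far [2, 0, 0, 0, 5, 8])) (.far [0, 1, 0, 0, 2]) (.far [0, 0, 5, 0, 16]) (.far [0, 1, 0, 0, 4, 2]) (.node [4, 5]
(.far [0, 1, 0, 0, 4]) (.far [2, 0, 0, 0, 5, 8]) (.node [4, 5, 1]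
(.far [0, 0, 0, 0, 2, 0, 1]) (.far [0, 0, 0, 0, 2, 0, 1]) (.far [0, 0, 0, 0, 16, 1, 8]) (.far [0, 0, 0, 0, 16, 1, 8]) (.far [0, 0, 0, 0, 2, 0, 1]) (.far [0, 0, 0, 0, 2, 0, 1]) (.far [0, 0, 0, 0, 16, 1, 8]) (.far [0, 0, 0, 0, 16, 1, 8])) (.far [2, 0, 0, 0, 5, 8]) (.far [0, 1, 0, 0, 4]) (.far [2, 0, 0, 0, 5, 8]) (.node [4, 5, 1]
(.far [0, 0, 0, 0, 2, 0, 1]) (.far [0, 0, 0, 0, 2, 0, 1]) (.far [0, 0, 0, 0, 16, 1, 8]) (.far [0, 0, 0, 0, 16, 1, 8]) (.far [0, 0, 0, 0, 2, 0, 1]) (.far [0, 0, 0, 0, 2, 0, 1]) (.far [0, 0, 0, 0, 16, 1, 8]) (.far [0, 0, 0, 0, 16, 1, 8])) (.far [2, 0, 0, 0, 5, 8]))) (.far [1, 0, 2]) (.far [0, 0, 0, 0, 0, 1]) .leaf (.node [4, 5, 1]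
(.far [0, 1, 0, 0, 0, 2]) (.far [0, 0, 5, 0, 0, 16]) (.far [0, 1, 0, 0, 0, 4, 2]) (.node [5, 6]
(.far [0, 1, 0, 0, 4]) (.far [3, 0, 0, 0, 11, 16]) (.node [4, 5, 1]
(.far [0, 0, 0, 0, 2, 0, 1]) (.far [0, 0, 0, 0, 2, 0, 1]) (.far [0, 0, 0, 0, 32, 3, 15]) (.far [0, 0, 0, 0, 32, 3, 15]) (.far [0, 0, 0, 0, 2, 0, 1]) (.far [0, 0, 0, 0, 2, 0, 1]) (.far [0, 0, 0, 0, 32, 3, 15]) (.far [0, 0, 0, 0, 32, 3, 15])) (.far [3, 0, 0, 0, 11, 16]) (.far [0, 1, 0, 0, 4]) (.far [3, 0, 0, 0, 11, 16]) (.node [4, 5, 1]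
(.far [0, 0, 0, 0, 2, 0, 1]) (.far [0, 0, 0, 0, 2, 0, 1]) (.far [0, 0, 0, 0, 32, 3, 15]) (.far [0, 0, 0, 0, 32, 3, 15]) (.far [0, 0, 0, 0, 2, 0, 1]) (.far [0, 0, 0, 0, 2, 0, 1]) (.far [0, 0, 0, 0, 32, 3, 15]) (.far [0, 0, 0, 0, 32, 3, 15])) (.far [3, 0, 0, 0, 11, 16])) (.far [0, 0, 0, 0, 32, 9]) (.far [0, 0, 0, 0, 32, 9]) (.far [0, 1, 0, 0, 0, 4, 2]) (.node [4, 5, 0]
(.far [0, 1, 0, 0, 0, 4]) (.far [4, 0, 0, 0, 256, 0, 25]) (.node [5, 6, 1]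
(.far [0, 0, 0, 0, 8, 0, 3]) (.far [0, 0, 0, 0, 8, 0, 3]) (.far [0, 0, 0, 0, 32, 14, 25]) (.far [0, 0, 0, 0, 32, 14, 25]) (.far [0, 0, 0, 0, 8, 0, 3]) (.far [0, 0, 0, 0, 8, 0, 3]) (.far [0, 0, 0, 0, 32, 14, 25]) (.far [0, 0, 0, 0, 32, 14, 25])) (.far [4, 0, 0, 0, 256, 0, 25]) (.far [0, 0, 0, 0, 512, 133]) (.far [0, 0, 0, 0, 512, 133]) (.node [4, 5, 1]
(.far [0, 0, 0, 6, 8192, 2095]) (.far [11, 0, 0, 0, 16384, 4153]) (.far [0, 1, 0, 1, 0, 2]) (.node [4, 5, 0]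
(.node [4, 5, 6]
(.far [0, 35, 0, 0, 0, 0, 64]) (.far [1, 0, 0, 0, 8192, 2057, 7]) (.far [0, 35, 0, 0, 0, 0, 64]) (.far [1, 0, 0, 0, 8192, 2049, 8]) (.far [0, 35, 0, 0, 0, 0, 64]) (.far [1, 0, 0, 0, 4096, 1036]) (.far [0, 35, 0, 0, 0, 0, 64]) (.far [1, 0, 0, 0, 2048, 514])) (.far [1, 0, 0, 0, 64, 0, 2]) (.node [4, 5, 6]
(.far [0, 35, 0, 0, 0, 0, 64]) (.far [3, 0, 0, 0, 16384, 4068, 19]) (.far [0, 35, 0, 0, 0, 0, 64]) (.node [4, 0]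
(.far [0, 0, 0, 0, 128, 5]) (.far [0, 0, 0, 0, 128, 5]) (.far [0, 0, 0, 0, 128, 5]) (.far [0, 0, 0, 0, 128, 5]) (.far [0, 0, 0, 0, 32, 1]) (.far [0, 0, 0, 0, 32, 1]) (.far [0, 0, 0, 0, 32, 1]) (.far [0, 0, 0, 0, 32, 1])) (.far [0, 35, 0, 0, 0, 0, 64]) (.far [1, 0, 0, 0, 2048, 511]) (.far [0, 35, 0, 0, 0, 0, 64]) (.far [1, 0, 0, 0, 1024, 249])) (.far [1, 0, 0, 0, 64, 0, 2]) (.far [0, 0, 0, 3, 8192, 2065]) (.far [1, 0, 0, 0, 1024, 255]) (.far [0, 0, 0, 2, 2048, 501]) (.far [1, 0, 0, 0, 512, 123])) .leaf (.far [0, 0, 0, 0, 0, 0, 1]) .leaf (.far [0, 0, 0, 0, 0, 0, 1])) (.far [1, 0, 0, 0, 16]))) (.far [1, 0, 2])) (.far [0, 2, 0, 1, 0, 0, 4]) (.node [5, 7, 0]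
(.far [0, 0, 0, 0, 16, 8, 13]) (.far [0, 0, 0, 0, 16, 8, 13]) (.far [0, 0, 0, 0, 16, 8, 13]) (.far [0, 0, 0, 0, 16, 8, 13]) (.far [0, 0, 0, 0, 8, 0, 3]) (.far [0, 0, 0, 0, 8, 0, 3]) (.far [0, 0, 0, 0, 8, 0, 3]) (.far [0, 0, 0, 0, 8, 0, 3])) (.far [0, 1, 0, 0, 17592186044416]) (.far [15, 0, 0, 0, 0, 64]) (.far [0, 2, 0, 1, 0, 0, 4]) (.far [15, 0, 0, 0, 0, 64])) (.far [5, 0, 0, 0, 0, 8]) (.node [5, 6]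
(.far [0, 3, 0, 0, 11, 16]) (.node [4, 5, 0]
(.far [0, 0, 0, 0, 16, 3, 6]) (.far [0, 0, 0, 0, 16, 3, 6]) (.far [0, 0, 0, 0, 16, 3, 6]) (.far [0, 0, 0, 0, 16, 3, 6]) (.far [0, 0, 0, 0, 2, 0, 1]) (.far [0, 0, 0, 0, 2, 0, 1]) (.far [0, 0, 0, 0, 2, 0, 1]) (.far [0, 0, 0, 0, 2, 0, 1])) (.far [0, 3, 0, 0, 11, 16]) (.node [4, 5, 0]
(.far [0, 0, 0, 0, 16, 3, 6]) (.far [0, 0, 0, 0, 16, 3, 6]) (.far [0, 0, 0, 0, 16, 3, 6]) (.far [0, 0, 0, 0, 16, 3, 6]) (.far [0, 0, 0, 0, 2, 0, 1]) (.far [0, 0, 0, 0, 2, 0, 1]) (.far [0, 0, 0, 0, 2, 0, 1]) (.far [0, 0, 0, 0, 2, 0, 1])) (.far [0, 3, 0, 0, 11, 16]) (.far [15, 0, 0, 0, 64]) (.far [0, 3, 0, 0, 11, 16]) (.far [15, 0, 0, 0, 64])) (.far [5, 0, 0, 0, 0, 8]) (.far [0, 0, 0, 1, 0, 4]) (.far [1, 0, 0, 0, 0, 2]) (.far [0, 0, 0, 1, 0, 4])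 (.far [1, 0, 0, 0, 0, 2])) .leaf (.far [0, 0, 0, 0, 0, 1]) .leaf (.far [0, 0, 0, 0, 0, 1]))

/-- A certificate. -/
def p1 : Tr := (.node [4, 0]
(.far [0, 0, 0, 0, 0, 1]) .leaf (.node [4, 5, 1]
(.far [0, 1, 0, 0, 0, 2]) (.far [0, 0, 1, 0, 0, 4]) (.far [0, 5, 0, 0, 0, 8]) (.node [5, 6]
(.far [0, 15, 0, 0, 64]) (.far [3, 0, 0, 0, 11, 16]) (.node [4, 5, 1]
(.far [0, 0, 0, 0, 2, 0, 1]) (.far [0, 0, 0, 0, 2, 0, 1]) (.far [0, 0, 0, 0, 16, 3, 6]) (.far [0, 0, 0, 0, 16, 3, 6]) (.far [0, 0, 0, 0, 2, 0, 1]) (.far [0, 0, 0, 0, 2, 0, 1]) (.far [0, 0, 0, 0, 16, 3, 6]) (.far [0, 0, 0, 0, 16, 3, 6])) (.far [3, 0, 0, 0, 11, 16]) (.far [0, 15, 0, 0, 64]) (.far [3, 0, 0, 0, 11, 16]) (.node [4, 5, 1]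
(.far [0, 0, 0, 0, 2, 0, 1]) (.far [0, 0, 0, 0, 2, 0, 1]) (.far [0, 0, 0, 0, 16, 3, 6]) (.far [0, 0, 0, 0, 16, 3, 6]) (.far [0, 0, 0, 0, 2, 0, 1]) (.far [0, 0, 0, 0, 2, 0, 1]) (.far [0, 0, 0, 0, 16, 3, 6]) (.far [0, 0, 0, 0, 16, 3, 6])) (.far [3, 0, 0, 0, 11, 16])) (.far [0, 1, 0, 0, 0, 2]) (.far [0, 0, 1, 0, 0, 4]) (.far [0, 5, 0, 0, 0, 8]) (.node [4, 5, 0]
(.far [0, 15, 0, 0, 0, 64]) (.far [3, 0, 4]) (.node [5, 6, 1]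
(.far [0, 0, 0, 0, 8, 0, 3]) (.far [0, 0, 0, 0, 8, 0, 3]) (.far [0, 0, 0, 0, 16, 8, 13]) (.far [0, 0, 0, 0, 16, 8, 13]) (.far [0, 0, 0, 0, 8, 0, 3]) (.far [0, 0, 0, 0, 8, 0, 3]) (.far [0, 0, 0, 0, 16, 8, 13]) (.far [0, 0, 0, 0, 16, 8, 13])) (.far [3, 0, 2, 0, 35184372088832]) (.far [0, 15, 0, 0, 0, 64]) (.far [1, 0, 0, 0, 17592186044416]) (.node [5, 1]
(.far [0, 1, 0, 2]) (.node [4, 5, 0]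
(.node [4, 5, 1]
(.far [0, 1, 0, 0, 128, 30]) (.node [4, 5, 0]
(.far [0, 0, 0, 0, 0, 0, 1]) .leaf (.node [4, 5, 1]
(.far [0, 1, 0, 0, 512, 123]) (.far [0, 0, 2, 0, 2048, 501]) (.far [0, 3, 0, 0, 64]) (.node [4, 5, 6]
(.far [0, 1, 0, 0, 1024, 249]) (.far [35, 0, 0, 0, 0, 0, 64]) (.node [4, 5, 1]
(.far [0, 0, 0, 0, 512, 124, 1]) (.far [0, 0, 0, 0, 512, 124, 1]) (.far [0, 0, 0, 0, 512, 111, 3]) (.far [0, 0, 0, 0, 512, 111, 3]) (.far [0, 0, 0, 0, 4096, 1015, 3]) (.far [0, 0, 0, 0, 4096, 1015, 3]) (.far [0, 0, 0, 0, 512, 111, 3]) (.far [0, 0, 0, 0, 512, 111, 3])) (.far [35, 0, 0, 0, 0, 0, 64]) (.far [0, 1, 0, 0, 2048, 511]) (.far [35, 0, 0, 0, 0, 0, 64]) (.far [0, 3, 0, 0, 16384, 4068, 19]) (.far [35, 0, 0, 0, 0, 0, 64])) (.far [0, 1, 0, 0, 1024, 255]) (.far [0, 0, 3,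 0, 8192, 2065]) (.far [0, 3, 0, 0, 64]) (.node [4, 5, 6]
(.far [0, 1, 0, 0, 2048, 514]) (.far [35, 0, 0, 0, 0, 0, 64]) (.far [0, 1, 0, 0, 8192, 2049, 8]) (.far [35, 0, 0, 0, 0, 0, 64]) (.far [0, 1, 0, 0, 4096, 1036]) (.far [35, 0, 0, 0, 0, 0, 64]) (.far [0, 1, 0, 0, 8192, 2057, 7]) (.far [35, 0, 0, 0, 0, 0, 64]))) (.far [1, 0, 1, 0, 0, 2]) (.far [0, 0, 0, 0, 0, 0, 1]) .leaf (.far [0, 11, 0, 0, 16384, 4153]) (.far [1, 0, 1, 0, 0, 2])) (.far [0, 29, 0, 0, 256]) (.node [4, 5, 6, 0]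
(.far [0, 0, 0, 0, 0, 32, 14, 25]) (.far [0, 0, 0, 0, 0, 32, 14, 25]) (.far [0, 0, 0, 0, 0, 32, 14, 25]) (.far [0, 0, 0, 0, 0, 32, 14, 25]) (.far [0, 0, 0, 0, 512, 159, 0, 9]) (.far [0, 0, 0, 0, 512, 159, 0, 9]) (.far [0, 0, 0, 0, 512, 159, 0, 9]) (.far [0, 0, 0, 0, 512, 159, 0, 9])) (.far [0, 0, 0, 0, 512, 133]) (.far [0, 0, 0, 0, 512, 133]) (.far [0, 29, 0, 0, 256]) (.far [3, 0, 0, 0, 1024, 279])) (.far [5, 0, 0, 0, 0, 8]) (.node [4, 5, 6]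
(.far [0, 3, 0, 0, 0, 11, 16]) (.node [5, 0]
(.far [0, 0, 0, 0, 16, 9]) (.far [0, 0, 0, 0, 16, 9]) (.far [0, 0, 0, 0, 16, 9]) (.far [0, 0, 0, 0, 16, 9]) (.far [0, 0, 0, 0, 2, 1]) (.far [0, 0, 0, 0, 2, 1]) (.far [0, 0, 0, 0, 2, 1]) (.far [0, 0, 0, 0, 2, 1])) (.far [0, 3, 0, 0, 0, 11, 16]) (.node [5, 0]
(.far [0, 0, 0, 0, 16, 9]) (.far [0, 0, 0, 0, 16, 9]) (.far [0, 0, 0, 0, 16, 9]) (.far [0, 0, 0, 0, 16, 9]) (.far [0, 0, 0, 0, 2, 1]) (.far [0, 0, 0, 0, 2, 1]) (.far [0, 0, 0, 0, 2, 1]) (.far [0, 0, 0, 0, 2, 1])) (.far [0, 3, 0, 0, 0, 11, 16]) (.far [3, 0, 0, 0, 512, 145]) (.far [0, 3, 0, 0, 0, 11, 16]) (.far [2, 0, 0, 0, 256, 75])) (.far [5, 0, 0, 0, 0, 8]) (.far [0, 0, 0, 0, 32, 9]) (.far [0, 0, 0, 0, 32, 9]) (.far [0, 0, 0, 1, 128, 37]) (.far [1, 0, 0, 0, 128, 39]))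 (.far [0, 1, 0, 2]) (.node [4, 5, 0]
(.node [4, 5, 6]
(.far [0, 2, 0, 0, 0, 5, 8]) (.node [5, 0]
(.far [0, 0, 0, 0, 16, 9]) (.far [0, 0, 0, 0, 16, 9]) (.far [0, 0, 0, 0, 16, 9]) (.far [0, 0, 0, 0, 16, 9]) (.far [0, 0, 0, 0, 2, 1]) (.far [0, 0, 0, 0, 2, 1]) (.far [0, 0, 0, 0, 2, 1]) (.far [0, 0, 0, 0, 2, 1])) (.far [0, 2, 0, 0, 0, 5, 8]) (.node [5, 0]
(.far [0, 0, 0, 0, 16, 9]) (.far [0, 0, 0, 0, 16, 9]) (.far [0, 0, 0, 0, 16, 9]) (.far [0, 0, 0, 0, 16, 9]) (.far [0, 0, 0, 0, 2, 1]) (.far [0, 0, 0, 0, 2, 1]) (.far [0, 0, 0, 0, 2, 1]) (.far [0, 0, 0, 0, 2, 1])) (.far [0, 2, 0, 0, 0, 5, 8]) (.far [13, 0, 0, 0, 1024, 320]) (.far [0, 2, 0, 0, 0, 5, 8]) (.far [21, 0, 0, 0, 1024, 351])) (.far [5, 0, 0, 0, 0, 8]) (.node [4, 5, 6]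
(.far [0, 2, 0, 0, 0, 5, 8]) (.node [5, 0]
(.far [0, 0, 0, 0, 16, 9]) (.far [0, 0, 0, 0, 16, 9]) (.far [0, 0, 0, 0, 16, 9]) (.far [0, 0, 0, 0, 16, 9]) (.far [0, 0, 0, 0, 2, 1]) (.far [0, 0, 0, 0, 2, 1]) (.far [0, 0, 0, 0, 2, 1]) (.far [0, 0, 0, 0, 2, 1])) (.far [0, 2, 0, 0, 0, 5, 8]) (.node [5, 0]
(.far [0, 0, 0, 0, 16, 9]) (.far [0, 0, 0, 0, 16, 9]) (.far [0, 0, 0, 0, 16, 9]) (.far [0, 0, 0, 0, 16, 9]) (.far [0, 0, 0, 0, 2, 1]) (.far [0, 0, 0, 0, 2, 1]) (.far [0, 0, 0, 0, 2, 1]) (.far [0, 0, 0, 0, 2, 1])) (.far [0, 2, 0, 0, 0, 5, 8]) (.far [30, 0, 0, 0, 1024, 387]) (.far [0, 2, 0, 0, 0, 5, 8]) (.far [5, 0, 0, 0, 64, 37])) (.far [5, 0, 0, 0, 0, 8]) (.far [0, 0, 0, 1, 64, 21]) (.far [1, 0, 0, 0, 16, 6]) (.far [0, 0, 0, 5, 64, 32]) (.far [1, 0, 0, 0, 4, 3])) .leaf (.far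 [0, 0, 0, 0, 0, 1]) .leaf (.far [0, 0, 0, 0, 0, 1])) (.far [1, 0, 0, 0, 17592186044416]))) (.far [1, 0, 2]) (.far [0, 0, 0, 0, 0, 1]) .leaf (.node [4, 5, 1]
(.far [0, 1, 0, 0, 0, 8]) (.node [4, 0]
(.far [0, 0, 0, 0, 0, 1]) .leaf (.node [4, 5, 1]
(.far [0, 1, 0, 0, 0, 2]) (.node [5, 0, 2]
(.far [0, 0, 0, 0, 0, 1]) .leaf (.node [4, 1]
(.far [0, 1, 0, 0, 4]) (.far [0, 0, 1, 0, 8]) (.far [0, 1, 0, 0, 4]) (.far [0, 0, 1, 0, 16, 4]) (.far [0, 1, 0, 0, 4]) (.far [0, 0, 1, 0, 8]) (.far [0, 1, 0, 0, 4]) (.far [0, 0, 1, 0, 16, 4])) (.far [1, 0, 0, 0, 4, 0, 3]) (.far [0, 0, 0, 0, 0, 1]) .leaf (.node [4, 1]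
(.far [0, 1, 0, 0, 4]) (.far [0, 0, 1, 0, 8]) (.far [0, 1, 0, 0, 4]) (.far [0, 0, 1, 0, 16, 4]) (.far [0, 1, 0, 0, 4]) (.far [0, 0, 1, 0, 8]) (.far [0, 1, 0, 0, 4]) (.far [0, 0, 1, 0, 16, 4])) (.far [1, 0, 0, 0, 4, 0, 3])) (.far [0, 9, 0, 0, 0, 16]) (.node [4, 6, 0]
(.node [4, 6, 1]
(.far [0, 1, 0, 0, 0, 2]) (.far [0, 0, 3, 0, 0, 8]) (.far [0, 3, 0, 0, 0, 4]) (.far [0, 0, 223, 0, 0, 2048, 1337]) (.far [0, 0, 0, 0, 140737488355328, 3]) (.far [0, 0, 0, 0, 140737488355328, 3]) (.far [0, 0, 0, 0, 281474976710656, 7, 2]) (.far [0, 0, 0, 0, 281474976710656, 7, 2])) (.far [3, 0, 0, 0, 0, 16, 6]) (.node [4, 6, 1]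
(.far [0, 3, 0, 0, 0, 4]) (.far [0, 0, 223, 0, 0, 2048, 1337]) (.far [0, 3, 0, 0, 0, 4]) (.far [0, 0, 223, 0, 0, 2048, 1337]) (.far [0, 0, 0, 0, 140737488355328, 3]) (.far [0, 0, 0, 0, 140737488355328, 3]) (.far [0, 0, 0, 0, 140737488355328, 3]) (.far [0, 0, 0, 0, 140737488355328, 3])) (.far [3, 0, 0, 0, 0, 16, 6]) (.far [0, 0, 0, 0, 281474976710656, 0, 5]) (.far [0, 0, 0, 0, 281474976710656, 0, 5]) (.far [0, 0, 0, 0, 281474976710656, 0, 5]) (.far [0, 0, 0, 0, 281474976710656, 0, 5])) (.far [0, 1, 0, 0, 0, 2]) (.node [4, 5, 0]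
(.far [0, 0, 0, 0, 0, 0, 1]) .leaf (.node [5, 1]
(.far [0, 1, 0, 0, 8]) (.far [0, 0, 1, 0, 8]) (.far [0, 1, 0, 0, 4]) (.node [4, 5]
(.far [0, 0, 0, 0, 32, 7]) (.far [0, 0, 0, 0, 32, 7]) (.far [0, 0, 0, 0, 32, 7]) (.far [0, 0, 0, 0, 32, 7]) (.far [0, 0, 0, 0, 32, 7]) (.far [0, 0, 0, 0, 32, 7]) (.far [0, 0, 0, 0, 32, 7]) (.far [0, 0, 0, 0, 32, 7])) (.far [0, 1, 0, 0, 8]) (.far [0, 0, 1, 0, 8]) (.far [0, 1, 0, 0, 4]) (.node [4, 5]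
(.far [0, 0, 0, 0, 32, 7]) (.far [0, 0, 0, 0, 32, 7]) (.far [0, 0, 0, 0, 32, 7]) (.far [0, 0, 0, 0, 32, 7]) (.far [0, 0, 0, 0, 32, 7]) (.far [0, 0, 0, 0, 32, 7]) (.far [0, 0, 0, 0, 32, 7]) (.far [0, 0, 0, 0, 32, 7]))) (.far [1, 0, 2]) (.far [0, 0, 0, 0, 0, 0, 1]) .leaf (.node [4, 5, 1]
(.far [0, 1, 0, 0, 0, 16]) (.node [4, 5, 0]
(.far [0, 0, 0, 0, 0, 0, 1]) .leaf (.far [0, 3, 0, 0, 0, 128]) (.far [1, 0, 2]) (.far [0, 0, 0, 0, 0, 0, 1]) .leaf (.far [0, 3, 0, 0, 0, 128]) (.far [1, 0, 0, 0, 1125899906842624])) (.far [0, 1, 0, 1, 0, 4]) (.node [4, 5, 0]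
(.node [4, 5, 6]
(.far [0, 1, 0, 0, 0, 32]) (.node [4, 6, 0]
(.far [0, 0, 0, 0, 0, 0, 1]) .leaf (.node [5, 6, 1]
(.far [0, 1, 0, 0, 0, 2]) (.far [0, 0, 1, 0, 0, 4]) (.far [0, 1, 0, 0, 4]) (.node [4, 5, 6]
(.far [0, 1, 0, 0, 0, 4]) (.far [2, 0, 0, 0, 8, 0, 7]) (.far [0, 7, 0, 0, 128, 0, 19]) (.far [2, 0, 0, 0, 8, 0, 7]) (.far [0, 1, 0, 0, 0, 4]) (.far [2, 0, 0, 0, 8, 0, 7]) (.far [0, 7, 0, 0, 128, 0, 19]) (.far [2, 0, 0, 0, 8, 0, 7])) (.far [0, 1, 0, 0, 0, 2]) (.far [0, 0, 1, 0, 0, 4]) (.far [0, 1, 0, 0, 4]) (.node [4, 5, 6]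
(.far [0, 1, 0, 0, 0, 4]) (.far [2, 0, 0, 0, 8, 0, 7]) (.far [0, 7, 0, 0, 128, 0, 19]) (.far [2, 0, 0, 0, 8, 0, 7]) (.far [0, 1, 0, 0, 0, 4]) (.far [2, 0, 0, 0, 8, 0, 7]) (.far [0, 7, 0, 0, 128, 0, 19]) (.far [2, 0, 0, 0, 8, 0, 7]))) (.far [1, 0, 2]) (.far [0, 0, 0, 0, 0, 0, 1]) .leaf (.node [4, 5, 6, 1]
(.far [0, 1, 0, 0, 0, 0, 2]) (.far [0, 0, 1, 0, 0, 0, 4]) (.far [0, 1, 0, 0, 0, 4]) (.node [5, 6, 7]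
(.far [0, 1, 0, 0, 0, 4]) (.far [2, 0, 0, 0, 16, 0, 11]) (.far [0, 7, 0, 0, 128, 0, 19]) (.far [2, 0, 0, 0, 16, 0, 11]) (.far [0, 1, 0, 0, 0, 4]) (.far [2, 0, 0, 0, 16, 0, 11]) (.far [0, 7, 0, 0, 128, 0, 19]) (.far [2, 0, 0, 0, 16, 0, 11])) (.far [0, 1, 0, 0, 0, 0, 2]) (.far [0, 0, 1, 0, 0, 0, 4]) (.far [0, 1, 0, 0, 0, 4]) (.node [4, 5, 6, 7]
(.far [0, 1, 0, 0, 0, 0, 4]) (.far [3, 0, 0, 0, 0, 64, 0, 28]) (.far [0, 7, 0, 0, 0, 128, 0, 19]) (.far [3, 0, 0, 0, 0, 64, 0, 28]) (.far [0, 1, 0, 0, 0, 0, 4]) (.far [3, 0, 0, 0, 9007199254740992]) (.far [0, 7, 0, 0, 0, 128, 0, 19]) (.far [3, 0, 0, 0, 9007199254740992]))) (.far [1, 0, 2])) (.far [0, 9, 0, 0, 0, 0, 16]) (.node [4, 6, 0]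
(.far [0, 0, 0, 0, 36028797018963968, 47, 38]) (.far [0, 0, 0, 0, 36028797018963968, 47, 38]) (.far [0, 0, 0, 0, 36028797018963968, 47, 38]) (.far [0, 0, 0, 0, 36028797018963968, 47, 38]) (.far [0, 0, 0, 0, 562949953421312, 0, 1]) (.far [0, 0, 0, 0, 562949953421312, 0, 1]) (.far [0, 0, 0, 0, 562949953421312, 0, 1]) (.far [0, 0, 0, 0, 562949953421312, 0, 1])) (.far [0, 1, 0, 0, 0, 32]) .leaf (.far [0, 9, 0, 0, 0, 0, 16]) (.node [4, 0]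
(.far [0, 0, 0, 0, 562949953421312, 1]) (.far [0, 0, 0, 0, 562949953421312, 1]) (.far [0, 0, 0, 0, 562949953421312, 1]) (.far [0, 0, 0, 0, 562949953421312, 1]) (.far [0, 0, 0, 0, 562949953421312, 1]) (.far [0, 0, 0, 0, 562949953421312, 1]) (.far [0, 0, 0, 0, 562949953421312, 1]) (.far [0, 0, 0, 0, 562949953421312, 1]))) (.far [1, 0, 0, 0, 281474976710656]) (.node [4, 6]
(.far [0, 9, 0, 0, 0, 16]) (.node [4, 5, 0]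
(.far [0, 0, 0, 0, 4503599627370496, 2, 9]) (.far [0, 0, 0, 0, 4503599627370496, 2, 9]) (.far [0, 0, 0, 0, 4503599627370496, 2, 9]) (.far [0, 0, 0, 0, 4503599627370496, 2, 9]) (.far [0, 0, 0, 0, 562949953421312, 0, 1]) (.far [0, 0, 0, 0, 562949953421312, 0, 1]) (.far [0, 0, 0, 0, 562949953421312, 0, 1]) (.far [0, 0, 0, 0, 562949953421312, 0, 1])) (.far [0, 9, 0, 0, 0, 16]) (.node [4, 5, 0]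
(.far [0, 0, 0, 0, 4503599627370496, 2, 9]) (.far [0, 0, 0, 0, 4503599627370496, 2, 9]) (.far [0, 0, 0, 0, 4503599627370496, 2, 9]) (.far [0, 0, 0, 0, 4503599627370496, 2, 9]) (.far [0, 0, 0, 0, 562949953421312, 0, 1]) (.far [0, 0, 0, 0, 562949953421312, 0, 1]) (.far [0, 0, 0, 0, 562949953421312, 0, 1]) (.far [0, 0, 0, 0, 562949953421312, 0, 1])) (.far [0, 9, 0, 0, 0, 16]) (.node [4, 0]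
(.far [0, 0, 0, 0, 562949953421312, 1]) (.far [0, 0, 0, 0, 562949953421312, 1]) (.far [0, 0, 0, 0, 562949953421312, 1]) (.far [0, 0, 0, 0, 562949953421312, 1]) (.far [0, 0, 0, 0, 562949953421312, 1]) (.far [0, 0, 0, 0, 562949953421312, 1]) (.far [0, 0, 0, 0, 562949953421312, 1]) (.far [0, 0, 0, 0, 562949953421312, 1])) (.far [0, 9, 0, 0, 0, 16]) (.node [4, 0]
(.far [0, 0, 0, 0, 562949953421312, 1]) (.far [0, 0, 0, 0, 562949953421312, 1]) (.far [0, 0, 0, 0, 562949953421312, 1]) (.far [0, 0, 0, 0, 562949953421312, 1]) (.far [0, 0, 0, 0, 562949953421312, 1]) (.far [0, 0, 0, 0, 562949953421312, 1]) (.far [0, 0, 0, 0, 562949953421312, 1]) (.far [0, 0, 0, 0, 562949953421312, 1]))) (.far [1, 0, 0, 0, 281474976710656]) (.far [0, 0, 0, 3, 2251799813685248]) (.far [1, 0, 0,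 0, 562949953421312]) (.far [0, 0, 0, 3, 2251799813685248]) (.far [1, 0, 0, 0, 562949953421312])) .leaf (.far [0, 0, 0, 0, 0, 0, 1]) .leaf (.far [0, 0, 0, 0, 0, 0, 1])) (.far [1, 0, 0, 0, 140737488355328])) (.far [0, 9, 0, 0, 0, 16]) (.node [4, 0]
(.far [0, 0, 0, 0, 70368744177664, 1]) (.far [0, 0, 0, 0, 70368744177664, 1]) (.far [0, 0, 0, 0, 70368744177664, 1]) (.far [0, 0, 0, 0, 70368744177664, 1]) (.far [0, 0, 0, 0, 70368744177664, 1]) (.far [0, 0, 0, 0, 70368744177664, 1]) (.far [0, 0, 0, 0, 70368744177664, 1]) (.far [0, 0, 0, 0, 70368744177664, 1]))) (.far [1, 0, 2]) (.far [0, 0, 0, 0, 0, 1]) .leaf (.far [0, 0, 0, 1, 140737488355328]) (.far [1, 0, 0, 0, 70368744177664])) (.far [0, 1, 0, 1, 0, 2]) (.node [4, 0]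
(.far [0, 0, 0, 0, 17592186044416, 1]) (.far [0, 0, 0, 0, 17592186044416, 1]) (.far [0, 0, 0, 0, 17592186044416, 1]) (.far [0, 0, 0, 0, 17592186044416, 1]) (.far [0, 0, 0, 0, 17592186044416, 1]) (.far [0, 0, 0, 0, 17592186044416, 1]) (.far [0, 0, 0, 0, 17592186044416, 1]) (.far [0, 0, 0, 0, 17592186044416, 1])) .leaf (.far [0, 0, 0, 0, 0, 0, 1]) .leaf (.far [0, 0, 0, 0, 0, 0, 1])) (.far [1, 0, 0, 0, 8796093022208]))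

theorem t_c1 : chk 348842372640 1000000000000
    (lfC 1 0 [42928488, 32924124] [80131356, 61456968] 13035 10000 13039 10000) c1
    (St.add 348842372640 1000000000000 ⟨2, 1, [1, 1], [1, 1], [1, 0], [0, 1], [], []⟩) = true := by
  decide +kernel

theorem t_c0 : chk 348842372640 1000000000000
    (lfC 0 1 [61456968, 80131356] [32924124, 42928488] 10000 13039 10000 13035) c0
    (St.add 348842372640 1000000000000 ⟨2, 0, [1, 1], [1, 1], [1, 0], [0, 1], [], []⟩) = true := by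
  decide +kernel

theorem t_p0 : chk 348842372640 1000000000000
    (lfP 0 [42, 32] [27, 21] 13035 10000 13039 10000) p0
    (St.add 348842372640 1000000000000
      ⟨2, 0, [13035, 10000], [13039, 10000], [1, 0], [0, 1], [[1000, -1545]], []⟩) = true := by
  decide +kernel

theorem t_p1 : chk 348842372640 1000000000000
    (lfP 1 [21, 27] [32, 42] 10000 13039 10000 13035) p1
    (St.add 348842372640 1000000000000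
      ⟨2, 1, [10000, 13039], [10000, 13035], [1, 0], [0, 1], [[-1545, 1000]], []⟩) = true := by
  decide +kernel

end Pool.Agent.Lib.MP_bd7e44_co.W2
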