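import Pool.Agent.Lib.MP_bd7e44_co.W2.Link

/-!
Width two: a poset without an antichain of size three is a union of two chains.
-/

namespace Pool.Agent.Lib.MP_bd7e44_co.W2

open Finset
open scoped Classical

variable {X : Type} [PartialOrder X]

lemma colour (hw : ∀ x y z : X, ¬ x ≤ y → ¬ y ≤ x → ¬ x ≤ z → ¬ z ≤ x → y ≤ z ∨ z ≤ y)
    (S : Finset X) : ∃ c : X → Bool, ∀ u ∈ S, ∀ v ∈ S, c u = c v → u ≤ v ∨ v ≤ u := by
  induction S using Finset.strongInduction with
  | H S ih =>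
    rcases S.eq_empty_or_nonempty with rfl | hS
    · exact ⟨fun _ => true, fun u hu => absurd hu (notMem_empty u)⟩
    obtain ⟨x, hx⟩ := Finset.exists_maximal hS
    obtain ⟨c, hc⟩ := ih (S.erase x) (erase_ssubset hx.1)
    have hI : ∀ u ∈ S, ¬ u ≤ x → ¬ x ≤ u := fun u hu h h' => h (hx.2 hu h')
    rcases (S.filter fun u => ¬ u ≤ x).eq_empty_or_nonempty with he | hI'
    · have : ∀ u ∈ S, u ≤ x := fun u hu => by
        by_contra h
        exact notMem_empty u (he ▸ mem_filter.2 ⟨hu, h⟩)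
      refine ⟨c, fun u hu v hv h => ?_⟩
      by_cases h1 : u = x
      · exact Or.inr (h1 ▸ this v hv)
      · by_cases h2 : v = x
        · exact Or.inl (h2 ▸ this u hu)
        · exact hc u (mem_erase.2 ⟨h1, hu⟩) v (mem_erase.2 ⟨h2, hv⟩) h
    obtain ⟨a, ha⟩ := Finset.exists_minimal hI'
    obtain ⟨a1, a2⟩ := mem_filter.1 ha.1
    have a3 : ∀ u ∈ S, ¬ u ≤ x → a ≤ u := fun u hu h =>
      (hw x a u (hI a a1 a2) a2 (hI u hu h) h).elim id fun h' => ha.2 (mem_filter.2 ⟨hu, h⟩) h'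
    have a4 : a ∈ S.erase x := mem_erase.2 ⟨fun h => a2 h.le, a1⟩
    have key : ∀ u ∈ S, ¬ u ≤ x → ∀ v ∈ S, v ≤ x → v ≠ x → c a = c v → v ≤ u :=
      fun u hu h1 v hv h2 h3 h4 =>
        ((hc a a4 v (mem_erase.2 ⟨h3, hv⟩) h4).resolve_left fun h => a2 (h.trans h2)).trans
          (a3 u hu h1)
    refine ⟨fun u => if u = x then !c a else if u ≤ x then c u else c a, fun u hu v hv h => ?_⟩
    by_cases h1 : u ≤ x <;> by_cases h2 : v ≤ x
    · by_cases h3 : u = x
      · exact Or.inr (h3 ▸ h2)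
      · by_cases h4 : v = x
        · exact Or.inl (h4 ▸ h1)
        · simp only [h1, h2, h3, h4, if_true, if_false] at h
          exact hc u (mem_erase.2 ⟨h3, hu⟩) v (mem_erase.2 ⟨h4, hv⟩) h
    · have h4 : v ≠ x := fun h => h2 h.le
      by_cases h3 : u = x
      · simp [h2, h3, h4] at h
      · simp only [h1, h2, h3, h4, if_true, if_false] at h
        exact Or.inl (key v hv h2 u hu h1 h3 h.symm)
    · have h3 : u ≠ x := fun h => h1 h.le
      by_cases h4 : v = x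
      · simp [h1, h3, h4] at h
      · simp only [h1, h2, h3, h4, if_true, if_false] at h
        exact Or.inr (key u hu h1 v hv h2 h4 h)
    · exact hw x u v (hI u hu h1) h1 (hI v hv h2) h2

lemma enum [Fintype X] (x0 : X) (C : X → Prop) (hC : ∀ u v, C u → C v → u ≤ v ∨ v ≤ u) :
    ∃ (m : ℕ) (a : ℕ → X), (∀ i j, i < j → j < m → a i < a j) ∧ (∀ i < m, C (a i)) ∧
      ∀ x, C x → ∃ i < m, a i = x := by
  obtain ⟨l, hl⟩ : (L (∅ : Finset X)).Nonempty := by
    have := e_pos (∅ : Finset X)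
    rw [← cnt_true, cnt, filter_true] at this
    exact card_pos.1 this
  obtain ⟨h1, -, h3⟩ := mem_L.1 hl
  have h4 : ∀ i < (l.filter fun x => C x).length, C ((l.filter fun x => C x).getD i x0) :=
    fun i hi => by
      rw [List.getD_eq_getElem _ _ hi]
      simpa using (List.mem_filter.1 (List.getElem_mem hi)).2
  refine ⟨(l.filter fun x => C x).length, fun i => (l.filter fun x => C x).getD i x0,
    fun i j hij hj => ?_, h4, fun x hx => ?_⟩
  · have c1 := h4 i (hij.trans hj)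
    have c2 := h4 j hj
    have c3 := List.pairwise_iff_getElem.1 (h3.filter fun x => C x) i j (hij.trans hj) hj hij
    have c4 := List.pairwise_iff_getElem.1 (h1.filter fun x => C x) i j (hij.trans hj) hj hij
    simp only [List.getD_eq_getElem _ _ hj, List.getD_eq_getElem _ _ (hij.trans hj)] at c1 c2 ⊢
    exact (hC _ _ c1 c2).elim (fun h => lt_of_le_of_ne h c4)
      fun h => absurd (lt_of_le_of_ne h c4.symm) c3
  · obtain ⟨i, hi, h⟩ := List.getElem_of_mem
      (List.mem_filter.2 ⟨mem_of_L hl x, by simpa using hx⟩ : x ∈ l.filter fun x => C x)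
    exact ⟨i, hi, by simp only [List.getD_eq_getElem _ _ hi, h]⟩

lemma find_down {P : ℕ → Prop} (h : ∃ i, ¬ P i) (hP : ∀ i, P (i + 1) → P i) :
    ∃ k, ∀ i, i < k ↔ P i := by
  refine ⟨Nat.find h, fun i => ?_⟩
  rw [Nat.lt_find_iff]
  refine ⟨fun h' => not_not.1 (h' i le_rfl), fun h' k hk => not_not.2 ?_⟩
  induction hk with
  | refl => exact h'
  | step _ ih => exact ih (hP _ h')

theorem exists_rep [Fintype X] (x0 : X)
    (hw : ∀ x y z : X, ¬ x ≤ y → ¬ y ≤ x → ¬ x ≤ z → ¬ z ≤ x → y ≤ z ∨ z ≤ y) :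
    ∃ M : Reg, Nonempty (Rep X M) := by
  obtain ⟨c, hc⟩ := colour hw univ
  obtain ⟨m, a, a1, a2, a3⟩ := enum x0 (fun x => c x = true)
    fun u v hu hv => hc u (mem_univ _) v (mem_univ _) (hu.trans hv.symm)
  obtain ⟨n, b, b1, b2, b3⟩ := enum x0 (fun x => c x = false)
    fun u v hu hv => hc u (mem_univ _) v (mem_univ _) (hu.trans hv.symm)
  let P : ℕ → ℕ → Prop := fun t i => i < m ∧ i < t ∧ ∀ j < n, i + j + 1 = t → a i < b j
  let Q : ℕ → ℕ → Prop := fun t i => i < m ∧ i < t ∧ ∀ j < n, i + j + 1 = t → ¬ b j < a i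
  have eP : ∀ t, ∃ i, ¬ P t i := fun t => ⟨m, fun h => lt_irrefl _ h.1⟩
  have eQ : ∀ t, ∃ i, ¬ Q t i := fun t => ⟨m, fun h => lt_irrefl _ h.1⟩
  have P1 : ∀ t i, P t i → P (t + 1) i := fun t i h => ⟨h.1, by have := h.2.1; omega,
    fun j hj e => by
      have := h.2.1
      exact (h.2.2 (j - 1) (by omega) (by omega)).trans (b1 _ _ (by omega) hj)⟩
  have P2 : ∀ t i, P (t + 1) (i + 1) → P t i := fun t i h =>
    ⟨by have := h.1; omega, by have := h.2.1; omega,
      fun j hj e => (a1 i (i + 1) (by omega) h.1).trans (h.2.2 j hj (by omega))⟩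
  have Q1 : ∀ t i, Q t i → Q (t + 1) i := fun t i h => ⟨h.1, by have := h.2.1; omega,
    fun j hj e h' => by
      have := h.2.1
      exact h.2.2 (j - 1) (by omega) (by omega) ((b1 _ _ (by omega) hj).trans h')⟩
  have Q2 : ∀ t i, Q (t + 1) (i + 1) → Q t i := fun t i h =>
    ⟨by have := h.1; omega, by have := h.2.1; omega,
      fun j hj e h' => h.2.2 j hj (by omega) (h'.trans (a1 i (i + 1) (by omega) h.1))⟩
  have dn : ∀ {P : ℕ → ℕ → Prop}, (∀ t i, P t i → i < t) → (∀ t i, P t i → P (t + 1) i) →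
      (∀ t i, P (t + 1) (i + 1) → P t i) → ∀ t i, P t (i + 1) → P t i := by
    intro P h0 h1 h2 t i h
    obtain ⟨u, rfl⟩ : ∃ u, t = u + 1 := ⟨t - 1, by have := h0 _ _ h; omega⟩
    exact h1 _ _ (h2 _ _ h)
  choose l fP using fun t => find_down (eP t) (dn (fun _ _ h => h.2.1) P1 P2 t)
  choose r fQ using fun t => find_down (eQ t) (dn (fun _ _ h => h.2.1) Q1 Q2 t)
  have s1 : ∀ {u v : ℕ}, (∀ i, i < u → i < v) → u ≤ v := fun h => le_of_not_gt fun h' =>
    lt_irrefl _ (h _ h')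
  have s2 : ∀ {u v : ℕ}, (∀ i, i + 1 < u → i < v) → u ≤ v + 1 := fun h => le_of_not_gt fun h' =>
    lt_irrefl _ (h _ h')
  have tP : l (m + n) = m := le_antisymm (s1 fun i h => ((fP _ i).1 h).1)
    (s1 fun i (h : i < m) => (fP (m + n) i).2 ⟨h, by omega, fun j hj e => absurd e (by omega)⟩)
  have tQ : r (m + n) = m := le_antisymm (s1 fun i h => ((fQ _ i).1 h).1)
    (s1 fun i (h : i < m) => (fQ (m + n) i).2 ⟨h, by omega, fun j hj e => absurd e (by omega)⟩)
  refine ⟨⟨m + n, l, r, ?_, fun t => s1 fun i h => ?_,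
    fun t => s1 fun i h => (fP _ i).2 (P1 _ _ ((fP _ i).1 h)),
    fun t => s2 fun i h => (fP _ i).2 (P2 _ _ ((fP _ _).1 h)),
    fun t => s1 fun i h => (fQ _ i).2 (Q1 _ _ ((fQ _ i).1 h)),
    fun t => s2 fun i h => (fQ _ i).2 (Q2 _ _ ((fQ _ _).1 h)), tQ.trans tP.symm⟩,
    ⟨⟨m, n, a, b, rfl, tP, a1, b1, fun x => ?_, fun i hi j hj h => ?_, fun i hi j hj => ?_,
      fun i hi j hj => ?_⟩⟩⟩
  · exact Nat.le_zero.1 (s1 fun i h => ((fQ _ i).1 h).2.1)
  · obtain ⟨h1, h2, h3⟩ := (fP _ i).1 h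
    exact (fQ _ i).2 ⟨h1, h2, fun j hj e => (h3 j hj e).not_gt⟩
  · cases hx : c x
    · exact Or.inr (b3 x hx)
    · exact Or.inl (a3 x hx)
  · have h1 := a2 i hi
    have h2 := b2 j hj
    simp only [h] at h1
    simp [h1] at h2
  · refine Iff.trans ?_ (fP _ i).symm
    exact ⟨fun h => ⟨hi, by omega, fun k _ e => (show j = k by omega) ▸ h⟩,
      fun h => h.2.2 j hj rfl⟩
  · rw [← not_lt]
    refine Iff.trans ?_ (not_congr (fQ _ i).symm)
    refine ⟨fun h h' => h'.2.2 j hj rfl h, fun h => ?_⟩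
    by_contra h'
    exact h ⟨hi, by omega, fun k _ e => (show j = k by omega) ▸ h'⟩

end Pool.Agent.Lib.MP_bd7e44_co.W2
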