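import Pool.Agent.Lib.MP_bd7e44_co.W2.Model

/-!
Width two: the search over regions without a balanced cut, closed by integer Farkas certificates,
and the evaluation of one given region.
-/

namespace Pool.Agent.Lib.MP_bd7e44_co.W2

open Finset

/-- Entry of a list, zero outside. -/
def nth : List ℤ → ℕ → ℤ
  | [], _ => 0
  | a :: _, 0 => a
  | _ :: l, n + 1 => nth l n

/-- Table of `n` values starting at `i`. -/
def tab (h : ℕ → ℤ) : ℕ → ℕ → List ℤ
  | _, 0 => []
  | i, n + 1 => h i :: tab h (i + 1) n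

lemma nth_tab (h : ℕ → ℤ) : ∀ n i j : ℕ, j < n → nth (tab h i n) j = h (i + j)
  | 0, _, _, hj => absurd hj (Nat.not_lt_zero _)
  | _ + 1, _, 0, _ => rfl
  | n + 1, i, j + 1, hj => by
    rw [tab, nth, nth_tab h n (i + 1) j (by omega)]
    congr 1
    omega

/-- A row moved to the next level. -/
def pull (W dl W' : ℕ) (r : List ℤ) : List ℤ :=
  tab (fun j => (if j < W then nth r j else 0) + (if j = 0 then 0 else nth r (j - 1))) dl W'

/-- A row applied to a level. -/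
noncomputable def dot (W : ℕ) (r : List ℤ) (g : ℕ → ℝ) (x : ℕ) : ℝ :=
  ∑ i ∈ range W, (nth r i : ℝ) * g (x + i)

lemma dot_nil (W : ℕ) (g : ℕ → ℝ) (x : ℕ) : dot W [] g x = 0 := by simp [dot, nth]

lemma dot_two (a b : ℤ) (g : ℕ → ℝ) (x : ℕ) : dot 2 [a, b] g x = a * g x + b * g (x + 1) := by
  simp [dot, nth, sum_range_succ]

lemma dot_tab (W : ℕ) (h : ℕ → ℤ) (j : ℕ) (g : ℕ → ℝ) (x : ℕ) :
    dot W (tab h j W) g x = ∑ i ∈ range W, (h (j + i) : ℝ) * g (x + i) :=
  sum_congr rfl fun i hi => by rw [nth_tab _ _ _ _ (mem_range.1 hi)]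

lemma sum_ext (r : ℕ → ℝ) (g : ℕ → ℝ) : ∀ W : ℕ,
    ∑ i ∈ range W, r i * (g i + g (i + 1)) =
      ∑ j ∈ range (W + 1), ((if j < W then r j else 0) + (if j = 0 then 0 else r (j - 1))) * g j := by
  intro W
  simp only [add_mul, mul_add, sum_add_distrib]
  congr 1
  · rw [sum_range_succ, if_neg (lt_irrefl W), zero_mul, add_zero]
    exact sum_congr rfl fun i hi => by rw [if_pos (mem_range.1 hi)]
  · rw [sum_range_succ']
    simp

lemma dot_pull (M : Mod) {t W dl dr : ℕ} (ht : t < M.T) (hW : M.R t + 1 = M.L t + W)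
    (hl : M.L (t + 1) = M.L t + dl) (hr : M.R (t + 1) = M.R t + dr) (r : List ℤ) :
    dot (W + dr - dl) (pull W dl (W + dr - dl) r) (M.G (t + 1)) (M.L (t + 1)) =
      dot W r (M.G t) (M.L t) := by
  have a1 := M.L2 t
  have a2 := M.R2 t
  have a3 := M.LR (t + 1)
  have e1 : dot W r (M.G t) (M.L t) =
      ∑ i ∈ range W, (nth r i : ℝ) * (M.G (t + 1) (M.L t + i) + M.G (t + 1) (M.L t + (i + 1))) :=
    sum_congr rfl fun i hi => by
      have := mem_range.1 hi
      rw [M.Gs t _ ht ⟨by omega, by omega⟩, add_assoc]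
  rw [e1, sum_ext (fun i => (nth r i : ℝ)) (fun i => M.G (t + 1) (M.L t + i)), pull, dot_tab, hl]
  set c : ℕ → ℝ := fun j => ((if j < W then (nth r j : ℝ) else 0) +
    (if j = 0 then 0 else (nth r (j - 1) : ℝ))) * M.G (t + 1) (M.L t + j) with hc
  have e2 : ∑ j ∈ range (W + 1), c j = ∑ j ∈ range (dl + (W + dr - dl)), c j := by
    refine (sum_subset (range_subset_range.2 (by omega)) fun j _ hj => ?_).symm
    have := mt mem_range.2 hj
    simp only [hc]
    rw [M.Gz _ _ fun h => by have := h.2; omega, mul_zero]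
  rw [e2, sum_range_add, sum_eq_zero (s := range dl), zero_add]
  · refine sum_congr rfl fun i _ => ?_
    simp only [hc]
    push_cast
    rw [add_assoc]
  · intro j hj
    have := mem_range.1 hj
    simp only [hc]
    rw [M.Gz _ _ fun h => by have := h.1; omega, mul_zero]

/-- A state of the search. -/
structure St where
  W : ℕ
  k : ℕ
  f1 : List ℤ
  f2 : List ℤ
  m1 : List ℤ
  m2 : List ℤ
  rows : List (List ℤ)
  h : List (ℕ × ℕ)

/-- One step of the two boundaries and of the majority point. -/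
def St.go (s : St) (rows : List (List ℤ)) (dl dr dg : ℕ) : St :=
  ⟨s.W + dr - dl, s.k + dg - dl, pull s.W dl (s.W + dr - dl) s.f1, pull s.W dl (s.W + dr - dl) s.f2,
    pull s.W dl (s.W + dr - dl) s.m1, pull s.W dl (s.W + dr - dl) s.m2,
    rows.map (pull s.W dl (s.W + dr - dl)), (dl, dr) :: s.h⟩

/-- The steps taken since level `s`, latest first. -/
def Hist (M : Reg) (s : ℕ) : List (ℕ × ℕ) → ℕ → Prop
  | [], t => t = s
  | x :: h, t => ∃ u, t = u + 1 ∧ M.L t = M.L u + x.1 ∧ M.R t = M.R u + x.2 ∧ Hist M s h u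

lemma Hist.len {M : Reg} {s : ℕ} : ∀ {h : List (ℕ × ℕ)} {t : ℕ}, Hist M s h t → t = s + h.length
  | [], _, h => h
  | _ :: _, _, ⟨_, h1, _, _, h2⟩ => by
    rw [h1, h2.len, List.length_cons, add_assoc]

/-- The state describes level `t`. -/
structure V0 (M : Mod) (α β c1 c2 : ℝ) (s0 : ℕ) (s : St) (t : ℕ) : Prop where
  ht : t ≤ M.T
  hW : M.R t + 1 = M.L t + s.W
  hF : ∀ i < s.W, M.F t (M.L t + i) = α * nth s.f1 i + β * nth s.f2 i
  h1 : dot s.W s.m1 (M.G t) (M.L t) = c1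
  h2 : dot s.W s.m2 (M.G t) (M.L t) = c2
  hh : Hist M.toReg s0 s.h t

variable {M : Mod} {α β c1 c2 : ℝ} {s0 t : ℕ} {s : St}

lemma V0.go (h : V0 M α β c1 c2 s0 s t) (ht : t < M.T) {dl dr : ℕ}
    (hl : M.L (t + 1) = M.L t + dl) (hr : M.R (t + 1) = M.R t + dr) (rows : List (List ℤ))
    (dg : ℕ) : V0 M α β c1 c2 s0 (s.go rows dl dr dg) (t + 1) := by
  have a1 := M.L2 t
  have a2 := M.R2 t
  have a3 := M.LR (t + 1)
  have a4 := h.hW
  refine ⟨ht, ?_, fun i hi => ?_, (dot_pull M ht a4 hl hr _).trans h.h1,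
    (dot_pull M ht a4 hl hr _).trans h.h2, t, rfl, hl, hr, h.hh⟩
  · simp only [St.go]
    omega
  · simp only [St.go] at hi ⊢
    have hin : M.In (t + 1) (M.L (t + 1) + i) := ⟨by omega, by omega⟩
    rw [pull, pull, nth_tab _ _ _ _ hi, nth_tab _ _ _ _ hi, Reg.F, if_pos hin, hl, add_assoc]
    generalize hj : dl + i = j
    have b1 : M.F t (M.L t + j) = α * ((if j < s.W then nth s.f1 j else 0 : ℤ) : ℝ) +
        β * ((if j < s.W then nth s.f2 j else 0 : ℤ) : ℝ) := by
      split_ifs with hj'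
      · exact h.hF j hj'
      · rw [M.F_z fun h => by have := h.2; omega]
        simp
    have b2 : (if M.L t + j = 0 then 0 else M.F t (M.L t + j - 1)) =
        α * ((if j = 0 then 0 else nth s.f1 (j - 1) : ℤ) : ℝ) +
        β * ((if j = 0 then 0 else nth s.f2 (j - 1) : ℤ) : ℝ) := by
      by_cases hj' : j = 0
      · simp only [hj', if_true, Int.cast_zero, mul_zero, add_zero]
        split_ifs with h0
        · rfl
        · exact M.F_z fun h => by have := h.1; omega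
      · rw [if_neg hj', if_neg hj', if_neg (by omega), ← h.hF (j - 1) (by omega)]
        congr 1
        omega
    rw [b1, b2]
    push_cast
    ring

/-- The row of `a · left + b · right − e · F k · G j'`, cut at `j`. -/
def row (W k j : ℕ) (a b : ℤ) (j' : ℕ) (e : ℤ) (f : List ℤ) : List ℤ :=
  tab (fun i => (if i < j then a else b) * nth f i - (if i = j' then e * nth f k else 0)) 0 W

lemma A_off (M : Mod) (t j : ℕ) :
    M.A t (M.L t + j) = ∑ i ∈ range j, M.F t (M.L t + i) * M.G t (M.L t + i) := by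
  have := M.A_zero (t := t) le_rfl
  unfold Mod.A Reg.S at this ⊢
  rw [sum_range_add, this, zero_add]

lemma cutsum (M : Mod) {t W : ℕ} (ht : t ≤ M.T) (hW : M.R t + 1 = M.L t + W) (j : ℕ) (a b : ℝ) :
    ∑ i ∈ range W, (if i < j then a else b) * (M.F t (M.L t + i) * M.G t (M.L t + i)) =
      a * M.A t (M.L t + j) + b * (M.N - M.A t (M.L t + j)) := by
  rcases le_or_gt j W with h | h
  · obtain ⟨d, rfl⟩ := Nat.exists_eq_add_of_le h
    rw [← M.A_tot (i := M.L t + (j + d)) ht (by omega), A_off, A_off, sum_range_add, sum_range_add,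
      add_sub_cancel_left, mul_sum, mul_sum]
    congr 1
    · exact sum_congr rfl fun i hi => by rw [if_pos (mem_range.1 hi)]
    · exact sum_congr rfl fun i _ => by rw [if_neg (by omega)]
  · rw [M.A_tot (i := M.L t + j) ht (by omega), ← M.A_tot (i := M.L t + W) ht (by omega), sub_self,
      mul_zero, add_zero, A_off, mul_sum]
    exact sum_congr rfl fun i hi => by rw [if_pos ((mem_range.1 hi).trans h)]

lemma V0.row (h : V0 M α β c1 c2 s0 s t) {k j j' : ℕ} (a b : ℤ) {e : ℤ}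
    (he : e = 0 ∨ (k < s.W ∧ j' < s.W)) :
    α * dot s.W (row s.W k j a b j' e s.f1) (M.G t) (M.L t) +
      β * dot s.W (row s.W k j a b j' e s.f2) (M.G t) (M.L t) =
      a * M.A t (M.L t + j) + b * (M.N - M.A t (M.L t + j)) -
        e * M.F t (M.L t + k) * M.G t (M.L t + j') := by
  rw [← cutsum M h.ht h.hW, W2.row, W2.row, dot_tab, dot_tab, mul_sum, mul_sum, ← sum_add_distrib]
  have e1 : (e : ℝ) * M.F t (M.L t + k) * M.G t (M.L t + j') = ∑ i ∈ range s.W,
      (if i = j' then e * (α * nth s.f1 k + β * nth s.f2 k) * M.G t (M.L t + i) else 0) := by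
    rcases he with rfl | ⟨h1, h2⟩
    · simp
    · rw [sum_ite_eq', if_pos (mem_range.2 h2), h.hF k h1]
  rw [e1, ← sum_sub_distrib]
  refine sum_congr rfl fun i hi => ?_
  rw [h.hF i (mem_range.1 hi), zero_add]
  push_cast
  split_ifs <;> ring

/-- Entrywise minimum. -/
def rmin (W : ℕ) (r r' : List ℤ) : List ℤ := tab (fun i => min (nth r i) (nth r' i)) 0 W

lemma dot_rmin {W : ℕ} {r r' : List ℤ} {g : ℕ → ℝ} {x : ℕ} (hg : ∀ y, 0 ≤ g y) (hα : 0 ≤ α)
    (hβ : 0 ≤ β) (hs : 0 < α + β) (h : α * dot W r g x + β * dot W r' g x ≤ 0) :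
    dot W (rmin W r r') g x ≤ 0 := by
  have a1 : dot W (rmin W r r') g x ≤ dot W r g x := by
    rw [rmin, dot_tab]
    refine sum_le_sum fun i _ => mul_le_mul_of_nonneg_right ?_ (hg _)
    rw [zero_add]
    exact_mod_cast min_le_left _ _
  have a2 : dot W (rmin W r r') g x ≤ dot W r' g x := by
    rw [rmin, dot_tab]
    refine sum_le_sum fun i _ => mul_le_mul_of_nonneg_right ?_ (hg _)
    rw [zero_add]
    exact_mod_cast min_le_right _ _
  by_contra hc
  nlinarith [mul_le_mul_of_nonneg_left a1 hα, mul_le_mul_of_nonneg_left a2 hβ]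

/-- The relaxed row. -/
def St.lo (s : St) (j : ℕ) (a b : ℤ) (j' : ℕ) (e : ℤ) : List ℤ :=
  rmin s.W (row s.W s.k j a b j' e s.f1) (row s.W s.k j a b j' e s.f2)

/-- Add the four inequalities of the present level. -/
def St.add (p q : ℤ) (s : St) : St :=
  { s with rows := s.lo s.k (q - p) (-p) 0 0 :: s.lo (s.k + 1) (-p) (q - p) 0 0 ::
      (if s.k = 0 then [] else s.lo (s.k + 1) (q - 2 * p) (-2 * p) (s.k - 1) q) ::
      (if s.k + 1 < s.W then s.lo s.k (-2 * p) (q - 2 * p) (s.k + 1) q else []) :: s.rows }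

/-- All rows of the state are valid at level `t`. -/
def Rows (M : Mod) (s : St) (t : ℕ) : Prop := ∀ r ∈ s.rows, dot s.W r (M.G t) (M.L t) ≤ 0

variable {p q : ℤ} {θ : ℝ}

lemma V0.add (h : V0 M α β c1 c2 s0 s t) : V0 M α β c1 c2 s0 (s.add p q) t :=
  ⟨h.ht, h.hW, h.hF, h.h1, h.h2, h.hh⟩

lemma Rows.add (hU : M.Unb θ) (h0 : 0 ≤ θ) (h1 : θ < 1) (hq : (0 : ℝ) < q) (hp : (p : ℝ) = θ * q)
    (hα : 0 ≤ α) (hβ : 0 ≤ β) (hs : 0 < α + β) (h : V0 M α β c1 c2 s0 s t)
    (hm : M.Maj θ t (M.L t + s.k)) (hr : Rows M s t) : Rows M (s.add p q) t := by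
  obtain ⟨m1, m2, m3⟩ := hm
  have a1 := m1.2
  have a2 := h.hW
  have hG := M.G_nn h.ht
  obtain ⟨d, hd⟩ := Nat.exists_eq_add_of_le h.ht
  have hF := M.F_nn t (M.L t + s.k)
  intro r hr'
  simp only [St.add, List.mem_cons] at hr' ⊢
  rcases hr' with rfl | rfl | rfl | rfl | hr'
  · refine dot_rmin hG hα hβ hs ?_
    rw [h.row _ _ (Or.inl rfl)]
    push_cast
    rw [hp]
    nlinarith
  · refine dot_rmin hG hα hβ hs ?_
    rw [h.row _ _ (Or.inl rfl), ← add_assoc]
    push_cast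
    rw [hp]
    nlinarith
  · split_ifs with hk
    · rw [dot_nil]
    · obtain ⟨x, x1, -, x3⟩ := Mod.slotL hU h0 h1 d t _ hd.symm m1 m2
      have x4 := x3 (M.L t + (s.k - 1)) (by omega) (by omega)
      refine dot_rmin hG hα hβ hs ?_
      rw [h.row _ _ (Or.inr ⟨by omega, by omega⟩), ← add_assoc]
      push_cast
      rw [hp]
      nlinarith [mul_le_mul_of_nonneg_left x4 hF]
  · split_ifs with hk
    · obtain ⟨x, x1, -, x3⟩ := Mod.slotR hU h0 h1 d t _ hd.symm m1 m3
      have x4 := x3 (by omega)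
      refine dot_rmin hG hα hβ hs ?_
      rw [h.row _ _ (Or.inr ⟨by omega, by omega⟩), ← add_assoc]
      push_cast
      rw [hp]
      nlinarith [mul_le_mul_of_nonneg_left x4 hF]
    · rw [dot_nil]
  · exact hr r hr'

/-- Entry `i` of a combination of rows. -/
def comb : List ℕ → List (List ℤ) → ℕ → ℤ
  | a :: l, r :: rs, i => a * nth r i + comb l rs i
  | _, _, _ => 0

/-- A test for all indices below a bound. -/
def allLt (P : ℕ → Bool) : ℕ → Bool
  | 0 => true
  | n + 1 => P n && allLt P n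

lemma allLt_spec {P : ℕ → Bool} : ∀ {n : ℕ}, allLt P n = true → ∀ i < n, P i = true
  | 0, _, _, hi => absurd hi (Nat.not_lt_zero _)
  | n + 1, h, i, hi => by
    rw [allLt, Bool.and_eq_true] at h
    rcases Nat.lt_succ_iff_lt_or_eq.1 hi with h' | rfl
    · exact allLt_spec h.2 i h'
    · exact h.1

lemma comb_le {W : ℕ} {g : ℕ → ℝ} {x : ℕ} : ∀ (l : List ℕ) (rs : List (List ℤ)),
    (∀ r ∈ rs, dot W r g x ≤ 0) → ∑ i ∈ range W, (comb l rs i : ℝ) * g (x + i) ≤ 0
  | [], _, _ => by simp [comb]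
  | _ :: _, [], _ => by simp [comb]
  | a :: l, r :: rs, h => by
    have h1 := comb_le l rs fun r hr => h r (List.mem_cons_of_mem _ hr)
    have h2 := mul_nonpos_of_nonneg_of_nonpos (Nat.cast_nonneg (α := ℝ) a) (h r List.mem_cons_self)
    simp only [comb, Int.cast_add, Int.cast_mul, Int.cast_natCast, add_mul, sum_add_distrib,
      mul_assoc, ← mul_sum]
    rw [dot] at h2
    linarith

/-- Certificates. -/
inductive Tr where
  | far (l : List ℕ) : Tr
  | leaf : Tr
  | node (keep : List ℕ) (a b c d e f g h : Tr) : Tr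

/-- The majority point would leave the level. -/
def St.out (s : St) (dl dr dg : ℕ) : Bool := Nat.blt (s.k + dg) dl || Nat.ble (s.W + dr) (s.k + dg)

/-- The rows that are kept. -/
def St.sel (s : St) (keep : List ℕ) : List (List ℤ) := keep.map fun j => s.rows.getD j []

/-- The checker. -/
def chk (p q : ℤ) (lf : St → Bool) : Tr → St → Bool
  | .far l, s => allLt (fun i => decide (0 < comb l s.rows i)) s.W
  | .leaf, s => lf s
  | .node keep a b c d e f g h, s => Nat.ble 2 s.W &&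
    (s.out 0 0 0 || chk p q lf a ((s.go (s.sel keep) 0 0 0).add p q)) &&
    (s.out 0 0 1 || chk p q lf b ((s.go (s.sel keep) 0 0 1).add p q)) &&
    (s.out 0 1 0 || chk p q lf c ((s.go (s.sel keep) 0 1 0).add p q)) &&
    (s.out 0 1 1 || chk p q lf d ((s.go (s.sel keep) 0 1 1).add p q)) &&
    (s.out 1 0 0 || chk p q lf e ((s.go (s.sel keep) 1 0 0).add p q)) &&
    (s.out 1 0 1 || chk p q lf f ((s.go (s.sel keep) 1 0 1).add p q)) &&
    (s.out 1 1 0 || chk p q lf g ((s.go (s.sel keep) 1 1 0).add p q)) &&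
    (s.out 1 1 1 || chk p q lf h ((s.go (s.sel keep) 1 1 1).add p q))

lemma next_ok (hU : M.Unb θ) (h0 : 0 ≤ θ) (h1 : θ < 1) (hq : (0 : ℝ) < q) (hp : (p : ℝ) = θ * q)
    (hα : 0 ≤ α) (hβ : 0 ≤ β) (hs : 0 < α + β) (h : V0 M α β c1 c2 s0 s t)
    (hm : M.Maj θ t (M.L t + s.k)) (hr : Rows M s t) (hW : 2 ≤ s.W) (keep : List ℕ) :
    ∃ dl ≤ 1, ∃ dr ≤ 1, ∃ dg ≤ 1, s.out dl dr dg = false ∧
      V0 M α β c1 c2 s0 ((s.go (s.sel keep) dl dr dg).add p q) (t + 1) ∧
      M.Maj θ (t + 1) (M.L (t + 1) + ((s.go (s.sel keep) dl dr dg).add p q).k) ∧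
      Rows M ((s.go (s.sel keep) dl dr dg).add p q) (t + 1) := by
  have a1 := h.hW
  have ht : t < M.T := by
    refine lt_of_le_of_ne h.ht ?_
    rintro rfl
    have := M.RT
    omega
  have a2 := M.L2 t
  have a3 := M.R2 t
  obtain ⟨dl, hl⟩ := Nat.exists_eq_add_of_le (M.L1 t)
  obtain ⟨dr, hr'⟩ := Nat.exists_eq_add_of_le (M.R1 t)
  obtain ⟨dg, hg, hm'⟩ : ∃ dg ≤ 1, M.Maj θ (t + 1) (M.L t + s.k + dg) := by
    rcases Mod.maj_next hU h1 ht hm with h | h
    · exact ⟨0, by omega, h⟩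
    · exact ⟨1, by omega, h⟩
  have b1 := hm'.1.1
  have b2 := hm'.1.2
  have hv := h.go ht hl hr' (s.sel keep) dg
  have hm'' : M.Maj θ (t + 1) (M.L (t + 1) + (s.go (s.sel keep) dl dr dg).k) := by
    convert hm' using 1
    simp only [St.go]
    omega
  refine ⟨dl, by omega, dr, by omega, dg, hg, ?_, hv.add, hm'',
    Rows.add hU h0 h1 hq hp hα hβ hs hv hm'' fun r hr'' => ?_⟩
  · rw [← Bool.not_eq_true, St.out, Bool.or_eq_true, Nat.blt_eq, Nat.ble_eq]
    omega
  · simp only [St.go, St.sel, List.mem_map] at hr'' ⊢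
    obtain ⟨_, ⟨j, -, rfl⟩, rfl⟩ := hr''
    rw [dot_pull M ht a1 hl hr']
    rcases lt_or_ge j s.rows.length with hj | hj
    · rw [List.getD_eq_getElem _ _ hj]
      exact hr _ (List.getElem_mem hj)
    · rw [List.getD_eq_default _ _ hj, dot_nil]

theorem chk_sound (hU : M.Unb θ) (h0 : 0 ≤ θ) (h1 : θ < 1) (hq : (0 : ℝ) < q)
    (hp : (p : ℝ) = θ * q) (hα : 0 ≤ α) (hβ : 0 ≤ β) (hs : 0 < α + β) (lf : St → Bool) (tr : Tr) :
    ∀ (s : St) (t : ℕ), chk p q lf tr s = true → V0 M α β c1 c2 s0 s t →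
      M.Maj θ t (M.L t + s.k) → Rows M s t →
      ∃ s' t', lf s' = true ∧ V0 M α β c1 c2 s0 s' t' ∧ M.Maj θ t' (M.L t' + s'.k) := by
  induction tr with
  | far l =>
    intro s t hc h hm hr
    have a1 := comb_le l s.rows hr
    have a2 := h.hW
    have a3 := M.LR t
    refine absurd a1 (not_le.2 (sum_pos (fun i hi => mul_pos ?_ ?_) ⟨0, mem_range.2 (by omega)⟩))
    · exact_mod_cast of_decide_eq_true (allLt_spec hc i (mem_range.1 hi))
    · have := mem_range.1 hi
      exact M.Gp _ _ h.ht ⟨by omega, by omega⟩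
  | leaf => exact fun s t hc h hm _ => ⟨s, t, hc, h, hm⟩
  | node keep a b c d e f g h ia ib ic id ie jf ig ih =>
    intro s t hc hv hm hr
    simp only [chk, Bool.and_eq_true, Bool.or_eq_true, Nat.ble_eq] at hc
    obtain ⟨⟨⟨⟨⟨⟨⟨⟨k0, k1⟩, k2⟩, k3⟩, k4⟩, k5⟩, k6⟩, k7⟩, k8⟩ := hc
    obtain ⟨dl, hl, dr, hr', dg, hg, o, x1, x2, x3⟩ :=
      next_ok hU h0 h1 hq hp hα hβ hs hv hm hr k0 keep
    interval_cases dl <;> interval_cases dr <;> interval_cases dg
    · exact ia _ _ (k1.resolve_left (by simp [o])) x1 x2 x3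
    · exact ib _ _ (k2.resolve_left (by simp [o])) x1 x2 x3
    · exact ic _ _ (k3.resolve_left (by simp [o])) x1 x2 x3
    · exact id _ _ (k4.resolve_left (by simp [o])) x1 x2 x3
    · exact ie _ _ (k5.resolve_left (by simp [o])) x1 x2 x3
    · exact jf _ _ (k6.resolve_left (by simp [o])) x1 x2 x3
    · exact ig _ _ (k7.resolve_left (by simp [o])) x1 x2 x3
    · exact ih _ _ (k8.resolve_left (by simp [o])) x1 x2 x3

/-- Record the inequalities that make the present level unbalanced. -/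
def St.addUp (p q : ℤ) (s : St) : St :=
  { s with
    rows := row s.W 0 s.k (q - p) (-p) 0 0 s.f1 :: row s.W 0 s.k (q - p) (-p) 0 0 s.f2 ::
      row s.W 0 (s.k + 1) (-p) (q - p) 0 0 s.f1 :: row s.W 0 (s.k + 1) (-p) (q - p) 0 0 s.f2 ::
      s.rows }

/-- Follow a given word of steps. -/
def run (p q : ℤ) : List (ℕ × ℕ × ℕ) → St → St
  | [], s => s
  | x :: w, s => run p q w ((s.go s.rows x.1 x.2.1 x.2.2).addUp p q)

/-- The region follows the word from level `t` on. -/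
def Mt (M : Reg) : List (ℕ × ℕ × ℕ) → ℕ → Prop
  | [], _ => True
  | x :: w, t => M.L (t + 1) = M.L t + x.1 ∧ M.R (t + 1) = M.R t + x.2.1 ∧ Mt M w (t + 1)

lemma Mt.append {M : Reg} {v : List (ℕ × ℕ × ℕ)} : ∀ {u : List (ℕ × ℕ × ℕ)} {t : ℕ},
    Mt M (u ++ v) t → Mt M u t ∧ Mt M v (t + u.length)
  | [], _, h => ⟨trivial, h⟩
  | x :: u, t, ⟨h1, h2, h3⟩ => by
    obtain ⟨h4, h5⟩ := Mt.append h3
    refine ⟨⟨h1, h2, h4⟩, ?_⟩
    rwa [List.length_cons, ← add_assoc, add_right_comm]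

theorem run_sound (hq : (0 : ℝ) < q) (hp : (p : ℝ) = θ * q) (hα : 0 ≤ α) (hβ : 0 ≤ β) :
    ∀ (w : List (ℕ × ℕ × ℕ)) (s : St) (t : ℕ), V0 M α β c1 c2 s0 s t → Mt M.toReg w t →
      t + w.length ≤ M.T → V0 M α β c1 c2 s0 (run p q w s) (t + w.length) ∧
        (Rows M (run p q w s) (t + w.length) →
          Rows M s t ∧ ∀ u, t < u → u ≤ t + w.length → M.UnbAt θ u)
  | [], s, t, h, _, _ => ⟨h, fun hr => ⟨hr, fun u h1 h2 => absurd h2 (by simpa using h1)⟩⟩
  | x :: w, s, t, h, ⟨m1, m2, m3⟩, hT => by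
    rw [List.length_cons] at hT ⊢
    have ht : t < M.T := by omega
    have hv := h.go ht m1 m2 s.rows x.2.2
    obtain ⟨i1, i2⟩ := run_sound hq hp hα hβ w ((s.go s.rows x.1 x.2.1 x.2.2).addUp p q) (t + 1)
      ⟨hv.ht, hv.hW, hv.hF, hv.h1, hv.h2, hv.hh⟩ m3 (by omega)
    rw [show t + (w.length + 1) = t + 1 + w.length by omega]
    refine ⟨i1, fun hr => ?_⟩
    obtain ⟨j1, j2⟩ := i2 hr
    simp only [Rows, St.addUp, List.forall_mem_cons] at j1
    obtain ⟨r1, r2, r3, r4, r5⟩ := j1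
    refine ⟨fun r hr' => ?_, fun u h1 h2 => ?_⟩
    · rw [← dot_pull M ht h.hW m1 m2]
      exact r5 _ (List.mem_map_of_mem hr')
    · rcases Nat.lt_succ_iff_lt_or_eq.1 (Nat.succ_lt_succ h1) with h3 | rfl
      · exact j2 u h3 h2
      · have e1 := hv.row (k := 0) (j := (s.go s.rows x.1 x.2.1 x.2.2).k) (j' := 0) (q - p) (-p)
          (Or.inl rfl)
        have e2 := hv.row (k := 0) (j := (s.go s.rows x.1 x.2.1 x.2.2).k + 1) (j' := 0) (-p) (q - p)
          (Or.inl rfl)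
        have n1 := mul_nonpos_of_nonneg_of_nonpos hα r1
        have n2 := mul_nonpos_of_nonneg_of_nonpos hβ r2
        have n3 := mul_nonpos_of_nonneg_of_nonpos hα r3
        have n4 := mul_nonpos_of_nonneg_of_nonpos hβ r4
        push_cast at e1 e2
        rw [hp] at e1 e2
        refine Mod.unbAt_of (g := M.L (t + 1) + (s.go s.rows x.1 x.2.1 x.2.2).k) hv.ht ?_ ?_
        · nlinarith
        · rw [add_assoc]
          nlinarith

end Pool.Agent.Lib.MP_bd7e44_co.W2
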