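import Pool.Agent.Lib.MP_bd7e44_co.W2.Low

/-!
Width two: a family of self-dual regions whose most balanced cut tends to the constant.
-/

namespace Pool.Agent.Lib.MP_bd7e44_co.W2

section Sym

variable {M : Mod} (hs : ∀ t s, t + s = M.T → M.L s + M.R t = M.L M.T)
include hs

lemma F_sym : ∀ t s x y : ℕ, t + s = M.T → x + y = M.L M.T → M.F t x = M.G s y
  | 0, s, x, y, h1, h2 => by
    obtain rfl : s = M.T := by omega
    rw [Reg.F]
    split_ifs with h
    · rw [show y = M.L M.T by omega, M.GT]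
    · exact (M.Gz _ _ fun h' => by have := h'.1; omega).symm
  | t + 1, s, x, y, h1, h2 => by
    have a1 := hs (t + 1) s h1
    have a2 := hs s (t + 1) (by omega)
    have a3 := hs (s + 1) t (by omega)
    rw [Reg.F]
    by_cases h : M.In (t + 1) x
    · have b1 := h.1
      have b2 := h.2
      rw [if_pos h, M.Gs s y (by omega) ⟨by omega, by omega⟩, F_sym t (s + 1) x y (by omega) h2]
      split_ifs with h0
      · rw [M.Gz (s + 1) (y + 1) fun h' => by have := h'.2; omega]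
      · rw [F_sym t (s + 1) (x - 1) (y + 1) (by omega) (by omega)]
    · rw [if_neg h]
      exact (M.Gz _ _ fun h' => h ⟨by have := h'.2; omega, by have := h'.1; omega⟩).symm

lemma A_sym {t s : ℕ} (h : t + s = M.T) : ∀ j i : ℕ, i + j = M.L M.T + 1 →
    M.A s j + M.A t i = M.N
  | 0, i, h1 => by
    have := hs t s h
    rw [M.A_zero (Nat.zero_le _), zero_add, M.A_tot (by omega) (by omega)]
  | j + 1, i, h1 => by
    have := A_sym h j (i + 1) (by omega)
    rw [M.A_succ] at this ⊢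
    rw [F_sym hs s t j i (by omega) (by omega), ← F_sym hs t s i j h (by omega)]
    linarith

lemma unb_sym {θ : ℝ} (h0 : 0 ≤ θ) {t s : ℕ} (h : t + s = M.T) (hu : M.UnbAt θ t) :
    M.UnbAt θ s := fun j => by
  rcases le_or_gt j (M.L M.T + 1) with hj | hj
  · obtain ⟨i, hi⟩ := Nat.exists_eq_add_of_le hj
    have := A_sym hs h j i (by omega)
    rcases hu i with h | h
    · right
      linarith
    · left
      linarith
  · have := hs s t (by omega)
    right
    rw [M.A_tot (by omega) (by omega)]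
    nlinarith [M.N_pos]

end Sym

/-- The phase of a level: a cap of 28 steps, then period 8. -/
def ph (t : ℕ) : ℕ := if t < 28 then t else 28 + (t - 28) % 8

/-- The next phase. -/
def nx (p : ℕ) : ℕ := if p = 35 then 28 else p + 1

/-- Steps of the left boundary. -/
def dL (p : ℕ) : ℕ := [0, 1, 0, 1, 0, 1, 0, 1, 0, 0, 1, 1, 0, 0, 1, 1, 0, 0, 0, 1, 1, 1, 0, 0, 1, 0,
  1, 1, 0, 1, 0, 1, 0, 0, 1, 1].getD p 0

/-- Widths of the levels. -/
def wd (p : ℕ) : ℕ := [0, 1, 1, 2, 1, 1, 1, 2, 1, 1, 2, 2, 1, 1, 2, 2, 1, 2, 2, 2, 2, 2, 2, 2, 2, 1,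
  2, 2, 1, 1, 1, 2, 1, 1, 2, 2].getD p 0

lemma ph_succ (t : ℕ) : ph (t + 1) = nx (ph t) := by
  unfold ph nx
  split_ifs <;> omega

lemma ph_lt (t : ℕ) : ph t < 36 := by
  unfold ph
  split_ifs <;> omega

lemma tabs : ∀ p < 36, dL p ≤ 1 ∧ wd p ≤ dL p + wd (nx p) ∧ dL p + wd (nx p) ≤ wd p + 1 := by
  decide

/-- The left boundary of the one-sided infinite region. -/
def l0 : ℕ → ℕ
  | 0 => 0
  | t + 1 => l0 t + dL (ph t)

/-- The right boundary of the one-sided infinite region. -/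
def r0 (t : ℕ) : ℕ := l0 t + wd (ph t)

lemma lr_step (t : ℕ) : l0 t ≤ l0 (t + 1) ∧ l0 (t + 1) ≤ l0 t + 1 ∧ r0 t ≤ r0 (t + 1) ∧
    r0 (t + 1) ≤ r0 t + 1 := by
  have := tabs _ (ph_lt t)
  simp only [r0, l0, ph_succ]
  omega

lemma r0_mono : Monotone r0 := monotone_nat_of_le_succ fun t => (lr_step t).2.2.1

lemma lr_le (t : ℕ) : l0 t ≤ r0 t := Nat.le_add_right _ _

/-- The first `h` steps of the infinite region, followed by their reflection. -/
def dbl (h : ℕ) : Reg where
  T := 2 * h + 1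
  L t := if t ≤ h then l0 t else l0 h + r0 h - r0 (2 * h + 1 - t)
  R t := if t ≤ h then r0 t else l0 h + r0 h - l0 (2 * h + 1 - t)
  R0 := by simp [r0, l0, ph, wd]
  LR t := by
    have := lr_le t
    have := lr_le (2 * h + 1 - t)
    split_ifs <;> omega
  L1 t := by
    have := lr_step t
    have := r0_mono (show 2 * h + 1 - (t + 1) ≤ 2 * h + 1 - t by omega)
    split_ifs with h1 h2 h2
    · omega
    · obtain rfl : t = h := by omega
      rw [show 2 * t + 1 - (t + 1) = t by omega]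
      omega
    · omega
    · omega
  L2 t := by
    have := lr_step t
    have := lr_step (2 * h + 1 - (t + 1))
    split_ifs with h1 h2 h2
    · omega
    · omega
    · obtain rfl : t = h := by omega
      rw [show 2 * t + 1 - (t + 1) = t by omega]
      omega
    · rcases le_or_gt t (2 * h) with h3 | h3
      · rw [show 2 * h + 1 - t = 2 * h + 1 - (t + 1) + 1 by omega]
        omega
      · rw [show 2 * h + 1 - t = 2 * h + 1 - (t + 1) by omega]
        omega
  R1 t := by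
    have := lr_step t
    have := lr_step (2 * h + 1 - (t + 1))
    split_ifs with h1 h2 h2
    · omega
    · obtain rfl : t = h := by omega
      rw [show 2 * t + 1 - (t + 1) = t by omega]
      omega
    · omega
    · rcases le_or_gt t (2 * h) with h3 | h3
      · rw [show 2 * h + 1 - t = 2 * h + 1 - (t + 1) + 1 by omega]
        omega
      · rw [show 2 * h + 1 - t = 2 * h + 1 - (t + 1) by omega]
  R2 t := by
    have := lr_step t
    have := lr_step (2 * h + 1 - (t + 1))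
    split_ifs with h1 h2 h2
    · omega
    · omega
    · obtain rfl : t = h := by omega
      rw [show 2 * t + 1 - (t + 1) = t by omega]
      omega
    · rcases le_or_gt t (2 * h) with h3 | h3
      · rw [show 2 * h + 1 - t = 2 * h + 1 - (t + 1) + 1 by omega]
        omega
      · rw [show 2 * h + 1 - t = 2 * h + 1 - (t + 1) by omega]
        omega
  RT := by
    rw [if_neg (by omega), if_neg (by omega), Nat.sub_self]
    simp [r0, l0, ph, wd]

lemma dbl_L {h t : ℕ} (ht : t ≤ h) : (dbl h).L t = l0 t := if_pos ht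

lemma dbl_R {h t : ℕ} (ht : t ≤ h) : (dbl h).R t = r0 t := if_pos ht

lemma dbl_top (h : ℕ) : (dbl h).L (dbl h).T = l0 h + r0 h := by
  simp only [dbl]
  rw [if_neg (by omega), Nat.sub_self]
  simp [r0, l0, ph, wd]

lemma dbl_sym (h t s : ℕ) (e : t + s = (dbl h).T) :
    (dbl h).L s + (dbl h).R t = (dbl h).L (dbl h).T := by
  rw [dbl_top]
  simp only [dbl] at e ⊢
  split_ifs with h1 h2 h2
  · omega
  · have := lr_le s
    have := r0_mono h1
    rw [show 2 * h + 1 - t = s by omega]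
    omega
  · have := r0_mono h2
    rw [show 2 * h + 1 - s = t by omega]
    omega
  · omega

/-- The word agrees with the tables from phase `p` on. -/
def okw : List (ℕ × ℕ × ℕ) → ℕ → Bool
  | [], _ => true
  | x :: w, p => decide (x.1 = dL p ∧ dL p + wd (nx p) = wd p + x.2.1) && okw w (nx p)

lemma mt_of {h : ℕ} : ∀ (w : List (ℕ × ℕ × ℕ)) (t : ℕ), okw w (ph t) = true → t + w.length ≤ h →
    Mt (dbl h) w t
  | [], _, _, _ => trivial
  | x :: w, t, h1, h2 => by
    rw [okw, Bool.and_eq_true, decide_eq_true_eq] at h1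
    rw [List.length_cons] at h2
    refine ⟨?_, ?_, mt_of w (t + 1) (ph_succ t ▸ h1.2) (by omega)⟩
    · rw [dbl_L (by omega), dbl_L (by omega), l0, h1.1.1]
    · rw [dbl_R (by omega), dbl_R (by omega), r0, r0, l0, ph_succ]
      omega

/-- The period. -/
def per : List (ℕ × ℕ × ℕ) :=
  [(0, 0, 1), (1, 1, 0), (0, 1, 1), (1, 0, 0), (0, 0, 1), (0, 1, 0), (1, 1, 1), (1, 0, 0)]

/-- The cap without its first step, followed by one period. -/
def cap : List (ℕ × ℕ × ℕ) :=
  [(1, 1, 0), (0, 1, 1), (1, 0, 0), (0, 0, 1), (1, 1, 0), (0, 1, 1), (1, 0, 0), (0, 0, 1), (0, 1, 0),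
    (1, 1, 1), (1, 0, 0), (0, 0, 1), (0, 1, 0), (1, 1, 1), (1, 0, 0), (0, 1, 1), (0, 0, 0),
    (0, 0, 1), (1, 1, 0), (1, 1, 1), (1, 1, 0), (0, 0, 1), (0, 0, 0), (1, 0, 1), (0, 1, 0),
    (1, 1, 1), (1, 0, 0), (0, 0, 1), (1, 1, 0), (0, 1, 1), (1, 0, 0), (0, 0, 1), (0, 1, 0),
    (1, 1, 1), (1, 0, 0)]

/-- All rows are at most zero on two rays. -/
def upOk (x1 y1 x2 y2 : ℤ) (s : St) : Bool :=
  s.rows.all fun r => decide (nth r 0 * x1 + nth r 1 * y1 ≤ 0 ∧ nth r 0 * x2 + nth r 1 * y2 ≤ 0)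

/-- The pair of values at a level of width two lies between two rays. -/
def Cn (M : Mod) (g : ℕ → ℕ → ℝ) (x1 y1 x2 y2 : ℤ) (t : ℕ) : Prop :=
  x1 * g t (M.L t + 1) ≤ y1 * g t (M.L t) ∧ y2 * g t (M.L t) ≤ x2 * g t (M.L t + 1)

variable {M : Mod} {t : ℕ}

lemma rows_of {x1 y1 x2 y2 : ℤ} {s : St} (h : upOk x1 y1 x2 y2 s = true) (hW : s.W = 2)
    (hD : x1 * y2 < x2 * y1) (hc : Cn M M.G x1 y1 x2 y2 t) : Rows M s t := fun r hr => by
  obtain ⟨h1, h2⟩ := of_decide_eq_true (List.all_eq_true.1 h r hr)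
  have hD' : (0 : ℝ) < x2 * y1 - x1 * y2 := by exact_mod_cast sub_pos.2 hD
  have a1 : (nth r 0 : ℝ) * x1 + nth r 1 * y1 ≤ 0 := by exact_mod_cast h1
  have a2 : (nth r 0 : ℝ) * x2 + nth r 1 * y2 ≤ 0 := by exact_mod_cast h2
  rw [hW, dot, Finset.sum_range_succ, Finset.sum_range_one, add_zero]
  refine le_of_mul_le_mul_left ?_ hD'
  nlinarith [mul_nonpos_of_nonneg_of_nonpos (sub_nonneg.2 hc.1) a2,
    mul_nonpos_of_nonneg_of_nonpos (sub_nonneg.2 hc.2) a1]

/-- A rational number just below the constant. -/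
noncomputable def tl : ℝ := 34884 / 100000

lemma blk {α β c1 c2 : ℝ} {s : St} {w : List (ℕ × ℕ × ℕ)} {n1 n2 n3 n4 : ℤ}
    (hl : lfP 0 [n1, n2] [n3, n4] 13035 10000 13039 10000 (run 34884 100000 w s) = true)
    (h : V0 M α β c1 c2 t s t) (hα : 0 ≤ α) (hβ : 0 ≤ β) (hm : Mt M.toReg w t) {u : ℕ}
    (hu : t + w.length = u) (hT : u ≤ M.T) :
    M.R u = M.L u + 1 ∧ Cn M M.F 13035 10000 13039 10000 u ∧
      c1 = n1 * M.G u (M.L u) + n2 * M.G u (M.L u + 1) ∧
      c2 = n3 * M.G u (M.L u) + n4 * M.G u (M.L u + 1) ∧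
      ∀ x1 y1 x2 y2 : ℤ, upOk x1 y1 x2 y2 (run 34884 100000 w s) = true → x1 * y2 < x2 * y1 →
        Cn M M.G x1 y1 x2 y2 u → Rows M s t ∧ ∀ v, t < v → v ≤ u → M.UnbAt tl v := by
  subst hu
  obtain ⟨a1, -, -, a4, a5, a6, a7⟩ := of_decide_eq_true hl
  obtain ⟨b1, b2⟩ := run_sound (p := 34884) (q := 100000) (θ := tl) (by norm_num)
    (by norm_num [tl]) hα hβ w s t h hm hT
  have d1 := b1.h1
  have d2 := b1.h2
  have d3 := b1.hW
  rw [a1, a4, dot_two] at d1
  rw [a1, a5, dot_two] at d2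
  exact ⟨by omega, of_cone b1 hα hβ a1 a6 a7, d1.symm, d2.symm,
    fun x1 y1 x2 y2 e1 e2 e3 => b2 (rows_of e1 a1 e2 e3)⟩

/-- The state at the start of a period. -/
def sP : St :=
  ⟨2, 0, [13035, 10000], [13039, 10000], [1, 0], [0, 1], [[-10000, 15449], [10000, -15459]], []⟩

/-- The state after the first step. -/
def sC : St := ⟨2, 1, [1, 1], [1, 1], [1, 0], [0, 1], [], []⟩

lemma u_p : lfP 0 [42, 32] [27, 21] 13035 10000 13039 10000 (run 34884 100000 per sP) = true ∧
    upOk 15449 10000 15459 10000 (run 34884 100000 per sP) = true ∧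
    upOk 23039 13039 23035 13035 (run 34884 100000 per sP) = true := by decide +kernel

lemma u_c : lfP 0 [42928488, 32924124] [80131356, 61456968] 13035 10000 13039 10000
      (run 34884 100000 cap sC) = true ∧
    upOk 15449 10000 15459 10000 (run 34884 100000 cap sC) = true := by decide +kernel

lemma per_blk (hR : M.R t = M.L t + 1) (hF : Cn M M.F 13035 10000 13039 10000 t)
    (hm : Mt M.toReg per t) (hT : t + 8 ≤ M.T) :
    M.R (t + 8) = M.L (t + 8) + 1 ∧ Cn M M.F 13035 10000 13039 10000 (t + 8) ∧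
      M.G t (M.L t) = 42 * M.G (t + 8) (M.L (t + 8)) + 32 * M.G (t + 8) (M.L (t + 8) + 1) ∧
      M.G t (M.L t + 1) = 27 * M.G (t + 8) (M.L (t + 8)) + 21 * M.G (t + 8) (M.L (t + 8) + 1) ∧
      (Cn M M.G 15449 10000 15459 10000 (t + 8) ∨ Cn M M.G 23039 13039 23035 13035 (t + 8) →
        Cn M M.G 15449 10000 15459 10000 t ∧ ∀ v, t < v → v ≤ t + 8 → M.UnbAt tl v) := by
  obtain ⟨α, β, a1, a2, -, a4⟩ := cone_V0 (by omega) hR hF.1 hF.2 (by norm_num)
  obtain ⟨b1, b2, b3, b4, b5⟩ := blk u_p.1 (a4 _ _) a1 a2 hm rfl hT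
  refine ⟨b1, b2, by exact_mod_cast b3, by exact_mod_cast b4, fun h => ?_⟩
  obtain ⟨c1, c2⟩ := h.elim (b5 _ _ _ _ u_p.2.1 (by norm_num)) (b5 _ _ _ _ u_p.2.2 (by norm_num))
  have d1 := c1 [-10000, 15449] (by simp [sP])
  have d2 := c1 [10000, -15459] (by simp [sP])
  simp only [sP, dot_two] at d1 d2
  push_cast at d1 d2
  exact ⟨⟨by push_cast; linarith, by push_cast; linarith⟩, c2⟩

/-- The distance of the backward ratio from its limit is at most `η`. -/
def Qc (M : Mod) (η : ℝ) (t : ℕ) : Prop :=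
  18 * M.G t (M.L t) - (7 + Real.sqrt 433) * M.G t (M.L t + 1) ≤ η * M.G t (M.L t + 1)

lemma per_pow : ∀ (k t : ℕ), M.R t = M.L t + 1 → Cn M M.F 13035 10000 13039 10000 t →
    (∀ j < k, Mt M.toReg per (t + 8 * j)) → t + 8 * k ≤ M.T →
    M.R (t + 8 * k) = M.L (t + 8 * k) + 1 ∧ Cn M M.F 13035 10000 13039 10000 (t + 8 * k) ∧
      (Cn M M.G 15449 10000 15459 10000 (t + 8 * k) → Cn M M.G 15449 10000 15459 10000 t ∧
        Qc M ((1 / 2) ^ k) t ∧ ∀ v, t < v → v ≤ t + 8 * k → M.UnbAt tl v)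
  | 0, t, h1, h2, _, h4 => ⟨h1, h2, fun h => ⟨h, by
      have a1 := h.2
      have a2 := M.G_nn h4 (M.L t + 1)
      simp only [Qc, mul_zero, add_zero] at a1 a2 ⊢
      push_cast at a1
      nlinarith [s_lo], fun v _ _ => by omega⟩⟩
  | k + 1, t, h1, h2, h3, h4 => by
    obtain ⟨a1, a2, a3, a4, a5⟩ := per_blk h1 h2 (h3 0 (by omega)) (by omega)
    obtain ⟨b1, b2, b3⟩ := per_pow k (t + 8) a1 a2
      (fun j hj => by convert h3 (j + 1) (by omega) using 1; omega) (by omega)
    rw [show t + 8 * (k + 1) = t + 8 + 8 * k by omega]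
    refine ⟨b1, b2, fun h => ?_⟩
    obtain ⟨c1, c2, c3⟩ := b3 h
    obtain ⟨d1, d2⟩ := a5 (Or.inl c1)
    refine ⟨d1, ?_, fun v e1 e2 => (le_or_gt v (t + 8)).elim (d2 v e1) fun e3 => c3 v e3 e2⟩
    have g0 := M.G_nn (t := t + 8) (by omega) (M.L (t + 8))
    have g1 := M.G_nn (t := t + 8) (by omega) (M.L (t + 8) + 1)
    unfold Qc at c2 ⊢
    rw [a3, a4, pow_succ]
    have hη : (0 : ℝ) ≤ (1 / 2) ^ k := by positivity
    generalize ((1 : ℝ) / 2) ^ k = η at *
    generalize M.G (t + 8) (M.L (t + 8)) = x at *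
    generalize M.G (t + 8) (M.L (t + 8) + 1) = y at *
    have e : 18 * (42 * x + 32 * y) - (7 + Real.sqrt 433) * (27 * x + 21 * y) =
        (63 - 3 * Real.sqrt 433) / 2 * (18 * x - (7 + Real.sqrt 433) * y) := by
      linear_combination (-3 / 2 * y) * s_sq
    have m0 : 0 ≤ (63 - 3 * Real.sqrt 433) / 2 := by linarith [s_hi]
    have m1 : (63 - 3 * Real.sqrt 433) / 2 ≤ 1 := by linarith [s_lo]
    rw [e]
    nlinarith [mul_le_mul_of_nonneg_left c2 m0, mul_le_mul_of_nonneg_right m1 (mul_nonneg hη g1),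
      mul_nonneg hη g0, mul_nonneg hη g1]

theorem sharp (k : ℕ) (hM : M.toReg = dbl (44 + 8 * k)) : M.Unb (bs + (1 / 2) ^ k) := by
  have hT : M.T = 2 * (44 + 8 * k) + 1 := by rw [hM]; rfl
  have hs : ∀ t s, t + s = M.T → M.L s + M.R t = M.L M.T := by
    rw [hM]
    exact dbl_sym _
  have hη : (0 : ℝ) < (1 / 2) ^ k := by positivity
  have hb := le_bs
  have L1 : M.L 1 = 0 := by rw [hM, dbl_L (by omega)]; rfl
  have R1 : M.R 1 = 1 := by rw [hM, dbl_R (by omega)]; rfl
  have f0 : M.F 1 0 = 1 := by rw [M.F_zero (t := 0) ⟨L1.le, Nat.zero_le _⟩]; simp [Reg.F]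
  have f1 : M.F 1 1 = 1 := by
    rw [M.F_succ (t := 0) (x := 0) ⟨L1.le.trans zero_le_one, R1.ge⟩]; simp [Reg.F]
  have hv : V0 M 1 0 (M.G 1 0) (M.G 1 1) 1 sC 1 := by
    refine ⟨by omega, by simp [L1, R1, sC], fun i hi => ?_, by simp [sC, dot_two, L1],
      by simp [sC, dot_two, L1], rfl⟩
    have : i < 2 := hi
    interval_cases i
    · simp [sC, nth, L1, f0]
    · simp [sC, nth, L1, f1]
  have mp : ∀ j ≤ k, Mt M.toReg per (36 + 8 * j) := fun j hj => by
    rw [hM]
    refine mt_of _ _ ?_ (by simp only [per, List.length]; omega)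
    rw [show ph (36 + 8 * j) = 28 by unfold ph; split_ifs <;> omega]
    decide
  obtain ⟨a1, a2, a3, a4, a5⟩ := blk (u := 36) u_c.1 hv zero_le_one le_rfl
    (by rw [hM]; exact mt_of _ _ (by decide) (by simp only [cap, List.length]; omega)) rfl (by omega)
  obtain ⟨b1, b2, b3⟩ := per_pow k 36 a1 a2 (fun j hj => mp j hj.le) (by omega)
  obtain ⟨c1, c2, -, -, c5⟩ := per_blk b1 b2 (mp k le_rfl) (by omega)
  rw [show 36 + 8 * k + 8 = 44 + 8 * k by omega] at c1 c2 c5
  generalize hh : 44 + 8 * k = h at *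
  have s1 := hs h (h + 1) (by omega)
  have s2 := hs (h + 1) h (by omega)
  have s3 : M.L M.T = M.L h + M.R h := by rw [hM, dbl_top, dbl_L le_rfl, dbl_R le_rfl]
  have g0 : M.G h (M.L h) = M.F h (M.L h + 1) + M.F h (M.L h) := by
    rw [M.Gs h _ (by omega) ⟨le_rfl, by omega⟩, F_sym hs h (h + 1) _ (M.L h) (by omega) (by omega),
      F_sym hs h (h + 1) _ (M.L h + 1) (by omega) (by omega)]
  have g1 : M.G h (M.L h + 1) = M.F h (M.L h) := by
    rw [M.Gs h _ (by omega) ⟨by omega, by omega⟩,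
      F_sym hs h (h + 1) _ (M.L h + 1) (by omega) (by omega),
      M.Gz (h + 1) (M.L h + 1 + 1) fun h' => by have := h'.2; omega, add_zero]
  obtain ⟨d1, d2⟩ := c5 (Or.inr (by
    obtain ⟨e1, e2⟩ := c2
    rw [Cn, g0, g1]
    push_cast at e1 e2 ⊢
    constructor <;> linarith))
  obtain ⟨e1, e2, e3⟩ := b3 d1
  obtain ⟨-, e4⟩ := a5 _ _ _ _ u_c.2 (by norm_num) e1
  have hN := M.N_pos
  have up : ∀ v, M.UnbAt tl v → M.UnbAt (bs + (1 / 2) ^ k) v := fun v hv i => by
    have : tl ≤ bs + (1 / 2) ^ k := by unfold tl; linarith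
    rcases hv i with h | h
    · left
      nlinarith
    · right
      nlinarith
  have half : ∀ v ≤ h, M.UnbAt (bs + (1 / 2) ^ k) v := fun v hv => by
    rcases (by omega : v = 0 ∨ v = 1 ∨ (1 < v ∧ v ≤ 36) ∨ (36 < v ∧ v ≤ 36 + 8 * k) ∨
      36 + 8 * k < v) with rfl | rfl | h' | h' | h'
    · obtain ⟨-, m1, m2⟩ := Mod.maj_cut (M := M) (θ := bs + (1 / 2) ^ k) (t := 0) (by linarith)
        (by omega) (M.R0.trans M.L0.symm)
      exact Mod.unbAt_of (by omega) m1 m2
    · have eA : M.A 1 1 = M.G 1 0 := by rw [M.A_succ, M.A_zero (by omega), f0, zero_add, one_mul]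
      have eN : M.N = M.G 1 0 + M.G 1 1 := by
        rw [← M.A_tot (t := 1) (i := 2) (by omega) (by omega), M.A_succ, eA, f1, one_mul]
      refine Mod.unbAt_of (g := 1) (by omega) ?_ ?_
      · have g0 := M.G_nn (t := 36) (by omega) (M.L 36)
        have g1 := M.G_nn (t := 36) (by omega) (M.L 36 + 1)
        rw [eA, eN, a3, a4]
        unfold Qc at e2
        generalize ((1 : ℝ) / 2) ^ k = η at *
        generalize M.G 36 (M.L 36) = x at *
        generalize M.G 36 (M.L 36 + 1) = y at *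
        push_cast
        have e : 42928488 * x + 32924124 * y -
            bs * (42928488 * x + 32924124 * y + (80131356 * x + 61456968 * y)) =
            (10613911545 * Real.sqrt 433 - 220824026145) / 15765665144 *
              (18 * x - (7 + Real.sqrt 433) * y) := by
          unfold bs
          linear_combination (10613911545 / 15765665144 * y) * s_sq
        have m0 : 0 ≤ (10613911545 * Real.sqrt 433 - 220824026145) / 15765665144 := by
          linarith [s_lo]
        have m1 : (10613911545 * Real.sqrt 433 - 220824026145) / 15765665144 ≤ 1 := by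
          linarith [s_hi]
        nlinarith [mul_le_mul_of_nonneg_left e2 m0,
          mul_le_mul_of_nonneg_right m1 (mul_nonneg hη.le g1), mul_nonneg hη.le g0,
          mul_nonneg hη.le g1]
      · rw [M.A_tot (by omega) (by omega)]
        nlinarith
    · exact up v (e4 v h'.1 h'.2)
    · exact up v (e3 v h'.1 h'.2)
    · exact up v (d2 v h' hv)
  intro v hv
  rcases le_or_gt v h with h' | h'
  · exact half v h'
  · exact unb_sym hs (by linarith) (t := M.T - v) (by omega) (half _ (by omega))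

end Pool.Agent.Lib.MP_bd7e44_co.W2
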