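import Pool.Agent.Lib.MP_bd7e44_co.W2.Chains
import Pool.Agent.Lib.MP_bd7e44_co.W2.Sharp

/-!
Width two: the poset of a region; from regions to posets.
-/

namespace Pool.Agent.Lib.MP_bd7e44_co.W2

open Finset
open scoped Classical

/-- The two chains of a region. -/
def PX (M : Reg) : Type := Fin (M.L M.T) ⊕ Fin (M.T - M.L M.T)

instance (M : Reg) : Fintype (PX M) := inferInstanceAs (Fintype (_ ⊕ _))

/-- The order of the poset of a region. -/
def ple (M : Reg) : PX M → PX M → Prop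
  | .inl i, .inl k => i.1 ≤ k.1
  | .inr j, .inr k => j.1 ≤ k.1
  | .inl i, .inr j => i.1 < M.L (i.1 + j.1 + 1)
  | .inr j, .inl i => M.R (i.1 + j.1 + 1) ≤ i.1

lemma Reg.cmp (M : Reg) (s t : ℕ) : (s ≤ t ∧ M.L s ≤ M.L t ∧ M.L t + s ≤ M.L s + t ∧
    M.R s ≤ M.R t ∧ M.R t + s ≤ M.R s + t ∧ M.L t ≤ M.R t) ∨ (t ≤ s ∧ M.L t ≤ M.L s ∧
    M.L s + t ≤ M.L t + s ∧ M.R t ≤ M.R s ∧ M.R s + t ≤ M.R t + s ∧ M.L s ≤ M.R s) :=
  (le_total s t).imp
    (fun h => ⟨h, (M.L_mono h).1, (M.L_mono h).2, (M.R_mono h).1, (M.R_mono h).2, M.LR _⟩)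
    fun h => ⟨h, (M.L_mono h).1, (M.L_mono h).2, (M.R_mono h).1, (M.R_mono h).2, M.LR _⟩

instance (M : Reg) : PartialOrder (PX M) where
  le := ple M
  le_refl := by rintro (i | i) <;> exact le_refl i.1
  le_trans := by
    rintro (i | i) (j | j) (k | k) <;> simp only [ple] <;> intro h1 h2
    · omega
    · have := M.cmp (i.1 + k.1 + 1) (j.1 + k.1 + 1)
      omega
    · have := M.cmp (i.1 + j.1 + 1) (k.1 + j.1 + 1)
      omega
    · have := M.cmp (i.1 + j.1 + 1) (i.1 + k.1 + 1)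
      omega
    · have := M.cmp (j.1 + i.1 + 1) (k.1 + i.1 + 1)
      omega
    · have := M.cmp (j.1 + i.1 + 1) (j.1 + k.1 + 1)
      omega
    · have := M.cmp (k.1 + i.1 + 1) (k.1 + j.1 + 1)
      omega
    · omega
  le_antisymm := by
    rintro (i | i) (j | j) <;> simp only [ple] <;> intro h1 h2
    · exact congrArg Sum.inl (Fin.ext (le_antisymm h1 h2))
    · have := M.LR (i.1 + j.1 + 1)
      omega
    · have := M.LR (j.1 + i.1 + 1)
      omega
    · exact congrArg Sum.inr (Fin.ext (le_antisymm h1 h2))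

/-- An element of the first chain. -/
def pa (M : Reg) (i : Fin (M.L M.T)) : PX M := .inl i

/-- An element of the second chain. -/
def pb (M : Reg) (j : Fin (M.T - M.L M.T)) : PX M := .inr j

/-- The poset of a region is represented by the region. -/
noncomputable def repPX (M : Reg) (x0 : PX M) : Rep (PX M) M where
  m := M.L M.T
  n := M.T - M.L M.T
  a i := if h : i < M.L M.T then pa M ⟨i, h⟩ else x0
  b j := if h : j < M.T - M.L M.T then pb M ⟨j, h⟩ else x0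
  hT := by
    have := M.L_mono (Nat.zero_le M.T)
    have := M.L0
    omega
  hm := rfl
  ha i j h1 h2 := by
    rw [dif_pos h2, dif_pos (h1.trans h2)]
    exact ⟨h1.le, h1.not_ge⟩
  hb i j h1 h2 := by
    rw [dif_pos h2, dif_pos (h1.trans h2)]
    exact ⟨h1.le, h1.not_ge⟩
  cov := by
    rintro (i | i)
    · exact Or.inl ⟨i.1, i.2, dif_pos i.2⟩
    · exact Or.inr ⟨i.1, i.2, dif_pos i.2⟩
  ne i h1 j h2 := by
    rw [dif_pos h1, dif_pos h2]
    exact Sum.inl_ne_inr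
  ab i h1 j h2 := by
    rw [dif_pos h1, dif_pos h2]
    exact ⟨fun h => h.1, fun h => ⟨h, not_le.2 (h.trans_le (M.LR _))⟩⟩
  ba i h1 j h2 := by
    rw [dif_pos h1, dif_pos h2]
    exact ⟨fun h => h.1, fun h => ⟨h, not_lt.2 ((M.LR _).trans h)⟩⟩

lemma mem_pre' {X : Type} {x y : X} :
    ∀ l : List X, y ∈ l → (y ∈ pre x l ↔ l.idxOf y < l.idxOf x)
  | [], h => by simp at h
  | w :: l, h => by
    by_cases hx : w = x
    · simp [pre, hx]
    · by_cases hy : w = y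
      · subst hy
        simp [pre, hx, List.idxOf_cons_ne _ hx]
      · have := mem_pre' (x := x) l ((List.mem_cons.1 h).resolve_left (Ne.symm hy))
        simp [pre, hx, Ne.symm hy, List.idxOf_cons_ne _ hx, List.idxOf_cons_ne _ hy, this]

variable {X : Type} [Fintype X] [PartialOrder X]

lemma ncard_eq' (P : (X ≃ Fin (Fintype.card X)) → Prop) (Q : List X → Prop)
    (h : ∀ f, P f ↔ Q (List.ofFn f.symm)) :
    {f : X ≃ Fin (Fintype.card X) | StrictMono f ∧ P f}.ncard = cnt ∅ Q := by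
  rw [cnt, ← Set.ncard_coe_finset, ← Set.ncard_image_of_injective _
    (f := fun f : X ≃ Fin (Fintype.card X) => List.ofFn f.symm)
    fun f f' hf => Equiv.symm_bijective.1 (Equiv.coe_fn_injective (List.ofFn_injective hf))]
  congr 1
  have key : ∀ f : X ≃ Fin (Fintype.card X), List.ofFn f.symm ∈ L (∅ : Finset X) ↔ StrictMono f := by
    intro f
    rw [mem_L, List.pairwise_ofFn]
    constructor
    · rintro ⟨-, -, h3⟩ x y hxy
      by_contra hc
      have : f y < f x := lt_of_le_of_ne (not_lt.1 hc) fun he => hxy.ne' (f.injective he)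
      simpa [hxy] using h3 this
    · intro hf
      refine ⟨List.nodup_ofFn.2 f.symm.injective,
        fun x => iff_of_true (List.mem_ofFn.2 ⟨f x, by simp⟩) (notMem_empty x), fun i j hij hc => ?_⟩
      simpa [hij.not_gt] using hf hc
  ext l
  simp only [Set.mem_image, Set.mem_ofPred_eq, coe_filter]
  constructor
  · rintro ⟨f, ⟨h1, h2⟩, rfl⟩
    exact ⟨(key f).2 h1, (h f).1 h2⟩
  · rintro ⟨h1, h2⟩
    have hn := (mem_L.1 h1).1
    have hlen : l.length = Fintype.card X := by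
      rw [← List.toFinset_card_of_nodup hn, ← card_univ]
      congr 1
      exact eq_univ_of_forall fun x => List.mem_toFinset.2 (mem_of_L h1 x)
    let φ : Fin (Fintype.card X) → X := fun i => l[i.1]'(i.2.trans_eq hlen.symm)
    have e1 : List.ofFn φ = l := List.ext_getElem (by simp [hlen]) fun i _ _ => by simp [φ]
    have hφ : Function.Bijective φ :=
      ⟨List.nodup_ofFn.1 (e1 ▸ hn), fun x => List.mem_ofFn.1 (e1 ▸ mem_of_L h1 x)⟩
    have e2 : List.ofFn (Equiv.ofBijective φ hφ).symm.symm = l := e1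
    exact ⟨(Equiv.ofBijective φ hφ).symm, ⟨(key _).1 (e2 ▸ h1), (h _).2 (e2 ▸ h2)⟩, e2⟩

lemma ncard_e' : {f : X ≃ Fin (Fintype.card X) | StrictMono f}.ncard = e (∅ : Finset X) := by
  rw [← cnt_true, ← ncard_eq' (fun _ => True) _ fun _ => Iff.rfl]
  simp

lemma ncard_g' (x y : X) :
    {f : X ≃ Fin (Fintype.card X) | StrictMono f ∧ f y < f x}.ncard = g y x ∅ := by
  refine ncard_eq' _ _ fun f => ?_
  have : ∀ x, (List.ofFn f.symm).idxOf x = f x := fun x => by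
    have := (List.nodup_ofFn.2 f.symm.injective).idxOf_getElem (f x) (by simp)
    simpa using this
  rw [mem_pre' _ (List.mem_ofFn.2 ⟨f y, by simp⟩), this, this]
  rfl

/-- No pair is balanced better than `θ`. -/
def NoB (X : Type) [Fintype X] [PartialOrder X] (θ : ℝ) : Prop :=
  ∀ x y : X, x ≠ y → (g y x ∅ : ℝ) ≤ θ * e (∅ : Finset X) ∨ (1 - θ) * e (∅ : Finset X) ≤ g y x ∅

namespace Rep

variable {M : Reg} (P : Rep X M)

omit [Fintype X] in
lemma cmp_a {i k : ℕ} (hi : i < P.m) (hk : k < P.m) : P.a i ≤ P.a k ∨ P.a k ≤ P.a i := by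
  rcases lt_trichotomy i k with h | rfl | h
  · exact Or.inl (P.ha _ _ h hk).le
  · exact Or.inl le_rfl
  · exact Or.inr (P.ha _ _ h hi).le

omit [Fintype X] in
lemma cmp_b {i k : ℕ} (hi : i < P.n) (hk : k < P.n) : P.b i ≤ P.b k ∨ P.b k ≤ P.b i := by
  rcases lt_trichotomy i k with h | rfl | h
  · exact Or.inl (P.hb _ _ h hk).le
  · exact Or.inl le_rfl
  · exact Or.inr (P.hb _ _ h hi).le

omit [Fintype X] in
lemma cell_lt {i j : ℕ} (h : M.Cell i j) : i < P.m ∧ j < P.n := by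
  have := P.bnd h.1 (x := i) ⟨h.2.1, h.2.2.le⟩
  have := P.bnd h.1 (x := i + 1) ⟨h.2.1.trans (Nat.le_succ i), h.2.2⟩
  omega

omit [Fintype X] in
lemma cell_iff {i j : ℕ} (hi : i < P.m) (hj : j < P.n) :
    (¬ P.a i ≤ P.b j ∧ ¬ P.b j ≤ P.a i) ↔ M.Cell i j := by
  have := P.hT
  rw [(P.ne i hi j hj).le_iff_lt, (P.ne i hi j hj).symm.le_iff_lt, P.ab i hi j hj, P.ba i hi j hj,
    Reg.Cell]
  omega

omit [Fintype X] in
lemma deg_a {i : ℕ} (hi : i < P.m) :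
    {z | ¬ P.a i ≤ z ∧ ¬ z ≤ P.a i}.ncard = {j | M.Cell i j}.ncard := by
  rw [← Set.InjOn.ncard_image (f := P.b) (s := {j | M.Cell i j}) fun j hj k hk h =>
    (lt_iff_of P.hb (P.cell_lt hj).2 (P.cell_lt hk).2).2.1 h]
  congr 1
  ext z
  constructor
  · intro h
    rcases P.cov z with ⟨k, hk, rfl⟩ | ⟨k, hk, rfl⟩
    · exact absurd (P.cmp_a hi hk) (not_or.2 h)
    · exact ⟨k, (P.cell_iff hi hk).1 h, rfl⟩
  · rintro ⟨k, hk, rfl⟩
    exact (P.cell_iff hi (P.cell_lt hk).2).2 hk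

omit [Fintype X] in
lemma deg_b {j : ℕ} (hj : j < P.n) :
    {z | ¬ P.b j ≤ z ∧ ¬ z ≤ P.b j}.ncard = {i | M.Cell i j}.ncard := by
  rw [← Set.InjOn.ncard_image (f := P.a) (s := {i | M.Cell i j}) fun j hj k hk h =>
    (lt_iff_of P.ha (P.cell_lt hj).1 (P.cell_lt hk).1).2.1 h]
  congr 1
  ext z
  constructor
  · intro h
    rcases P.cov z with ⟨k, hk, rfl⟩ | ⟨k, hk, rfl⟩
    · exact ⟨k, (P.cell_iff hk hj).1 h.symm, rfl⟩
    · exact absurd (P.cmp_b hj hk) (not_or.2 h)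
  · rintro ⟨k, hk, rfl⟩
    exact ((P.cell_iff (P.cell_lt hk).1 hj).2 hk).symm

omit [Fintype X] in
include P in
lemma width (s : Finset X) (hs : IsAntichain (· ≤ ·) (s : Set X)) : s.card ≤ 2 := by
  by_contra h
  obtain ⟨x, hx, y, hy, z, hz, h1, h2, h3⟩ := two_lt_card.1 (not_le.1 h)
  have key : ∀ u ∈ s, ∀ v ∈ s, u ≠ v → ¬ (u ≤ v ∨ v ≤ u) := fun u hu v hv h =>
    not_or.2 ⟨hs hu hv h, hs hv hu h.symm⟩
  rcases P.cov x with ⟨i, hi, rfl⟩ | ⟨i, hi, rfl⟩ <;>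
    rcases P.cov y with ⟨j, hj, rfl⟩ | ⟨j, hj, rfl⟩
  · exact key _ hx _ hy h1 (P.cmp_a hi hj)
  · rcases P.cov z with ⟨k, hk, rfl⟩ | ⟨k, hk, rfl⟩
    · exact key _ hx _ hz h2 (P.cmp_a hi hk)
    · exact key _ hy _ hz h3 (P.cmp_b hj hk)
  · rcases P.cov z with ⟨k, hk, rfl⟩ | ⟨k, hk, rfl⟩
    · exact key _ hy _ hz h3 (P.cmp_a hj hk)
    · exact key _ hx _ hz h2 (P.cmp_b hi hk)
  · exact key _ hx _ hy h1 (P.cmp_b hi hj)

lemma unb_of {θ : ℝ} (h0 : 0 ≤ θ) (h : NoB X θ) : P.mod.Unb θ := fun t ht i => by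
  have hN := P.mod.N_pos
  rcases le_or_gt i (M.L t) with h1 | h1
  · left
    rw [P.mod.A_zero h1]
    positivity
  rcases le_or_gt i (M.R t) with h2 | h2
  · obtain ⟨k, rfl⟩ : ∃ k, i = k + 1 := ⟨i - 1, by omega⟩
    have := (P.bnd ht ⟨h1.le, h2⟩).2.1
    obtain ⟨j, rfl⟩ : ∃ j, t = k + j + 1 := ⟨t - (k + 1), by omega⟩
    obtain ⟨c1, c2⟩ := P.cell_lt (i := k) (j := j) ⟨ht, by omega, h2⟩
    rw [← P.prob c1 c2, P.mod_N]
    exact h _ _ (P.ne k c1 j c2)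
  · right
    rw [P.mod.A_tot ht h2]
    nlinarith

lemma nob_of {θ : ℝ} (h0 : 0 ≤ θ) (h : P.mod.Unb θ) : NoB X θ := by
  have hN : (0 : ℝ) ≤ θ * e (∅ : Finset X) := by positivity
  have sym : ∀ x y : X, x ≠ y → ((g y x ∅ : ℝ) ≤ θ * e (∅ : Finset X) ∨
      (1 - θ) * e (∅ : Finset X) ≤ g y x ∅) → (g x y ∅ : ℝ) ≤ θ * e (∅ : Finset X) ∨
      (1 - θ) * e (∅ : Finset X) ≤ g x y ∅ := fun x y hxy h => by
    have : (g y x ∅ : ℝ) + g x y ∅ = e (∅ : Finset X) := by exact_mod_cast g_total hxy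
    rcases h with h | h
    · right
      linarith
    · left
      linarith
  have cm : ∀ x y : X, x ≠ y → (x ≤ y ∨ y ≤ x) → (g y x ∅ : ℝ) ≤ θ * e (∅ : Finset X) ∨
      (1 - θ) * e (∅ : Finset X) ≤ g y x ∅ := fun x y hxy h => by
    rcases h with h | h
    · left
      rwa [g_lt (lt_of_le_of_ne h hxy), Nat.cast_zero]
    · refine sym _ _ hxy.symm (Or.inl ?_)
      rwa [g_lt (lt_of_le_of_ne h hxy.symm), Nat.cast_zero]
  have ab : ∀ i < P.m, ∀ j < P.n, (g (P.b j) (P.a i) ∅ : ℝ) ≤ θ * e (∅ : Finset X) ∨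
      (1 - θ) * e (∅ : Finset X) ≤ g (P.b j) (P.a i) ∅ := fun i hi j hj => by
    rw [P.prob hi hj, ← P.mod_N]
    exact h _ (show i + j + 1 ≤ M.T by have := P.hT; omega) _
  intro x y hxy
  rcases P.cov x with ⟨i, hi, rfl⟩ | ⟨i, hi, rfl⟩ <;>
    rcases P.cov y with ⟨j, hj, rfl⟩ | ⟨j, hj, rfl⟩
  · exact cm _ _ hxy (P.cmp_a hi hj)
  · exact ab i hi j hj
  · exact sym _ _ hxy.symm (ab j hj i hi)
  · exact cm _ _ hxy (P.cmp_b hi hj)

end Rep

theorem lower (hw : ∀ s : Finset X, IsAntichain (· ≤ ·) (s : Set X) → s.card ≤ 2) (h : NoB X bs)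
    {a b : X} (h1 : ¬ a ≤ b) (h2 : ¬ b ≤ a) :
    {z | ¬ a ≤ z ∧ ¬ z ≤ a}.ncard + {z | ¬ b ≤ z ∧ ¬ z ≤ b}.ncard = 3 := by
  obtain ⟨M, ⟨P⟩⟩ := exists_rep a fun x y z a1 a2 a3 a4 => by
    by_contra hc
    obtain ⟨a5, a6⟩ := not_or.1 hc
    have := hw {x, y, z} (by
      intro u hu v hv huv
      simp only [coe_insert, coe_singleton, Set.mem_insert_iff, Set.mem_singleton_iff] at hu hv
      rcases hu with rfl | rfl | rfl <;> rcases hv with rfl | rfl | rfl <;>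
        first | exact absurd rfl huv | assumption)
    rw [card_eq_three.2 ⟨x, y, z, fun h => a1 h.le, fun h => a3 h.le, fun h => a5 h.le, rfl⟩] at this
    omega
  have hU := P.unb_of (le_trans (by norm_num) le_bs) h
  rcases P.cov a with ⟨i, hi, rfl⟩ | ⟨i, hi, rfl⟩ <;>
    rcases P.cov b with ⟨j, hj, rfl⟩ | ⟨j, hj, rfl⟩
  · exact absurd (P.cmp_a hi hj) (not_or.2 ⟨h1, h2⟩)
  · rw [P.deg_a hi, P.deg_b hj]
    exact low hU ((P.cell_iff hi hj).1 ⟨h1, h2⟩)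
  · rw [P.deg_a hj, P.deg_b hi, add_comm]
    exact low hU ((P.cell_iff hj hi).1 ⟨h2, h1⟩)
  · exact absurd (P.cmp_b hi hj) (not_or.2 ⟨h1, h2⟩)

theorem upper (k : ℕ) : ∃ (X : Type) (_ : Fintype X) (_ : PartialOrder X),
    (∀ s : Finset X, IsAntichain (· ≤ ·) (s : Set X) → s.card ≤ 2) ∧
    (∃ a b : X, ¬ a ≤ b ∧ ¬ b ≤ a ∧
      {z | ¬ a ≤ z ∧ ¬ z ≤ a}.ncard + {z | ¬ b ≤ z ∧ ¬ z ≤ b}.ncard ≠ 3) ∧
    NoB X (bs + (1 / 2) ^ k) := by
  have hT : (dbl (44 + 8 * k)).T = 2 * (44 + 8 * k) + 1 := rfl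
  have c0 : (dbl (44 + 8 * k)).Cell 0 0 :=
    ⟨by omega, by rw [dbl_L (by omega)]; decide, by rw [dbl_R (by omega)]; decide⟩
  have c1 : (dbl (44 + 8 * k)).Cell 1 0 :=
    ⟨by omega, by rw [dbl_L (by omega)]; decide, by rw [dbl_R (by omega)]; decide⟩
  have c2 : (dbl (44 + 8 * k)).Cell 2 0 :=
    ⟨by omega, by rw [dbl_L (by omega)]; decide, by rw [dbl_R (by omega)]; decide⟩
  have hp : 0 < (dbl (44 + 8 * k)).L (dbl (44 + 8 * k)).T :=
    c0.2.2.trans_le (((dbl _).R_mono c0.1).1.trans (dbl _).RT.le)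
  let P := repPX (dbl (44 + 8 * k)) (.inl ⟨0, hp⟩)
  obtain ⟨a1, a2⟩ := P.cell_lt c0
  obtain ⟨a3, a4⟩ := (P.cell_iff a1 a2).2 c0
  refine ⟨PX (dbl (44 + 8 * k)), inferInstance, inferInstance, P.width, ⟨_, _, a3, a4, ?_⟩,
    P.nob_of (by have := le_bs; positivity) (sharp k rfl)⟩
  rw [P.deg_a a1, P.deg_b a2]
  have b1 : ({0} : Set ℕ).ncard ≤ {j | (dbl (44 + 8 * k)).Cell 0 j}.ncard :=
    Set.ncard_le_ncard (by simpa using c0)
      ((Set.finite_lt_nat P.n).subset fun j hj => (P.cell_lt hj).2)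
  have b2 : ({0, 1, 2} : Set ℕ).ncard ≤ {i | (dbl (44 + 8 * k)).Cell i 0}.ncard :=
    Set.ncard_le_ncard (by
      rintro i (rfl | rfl | rfl)
      exacts [c0, c1, c2])
      ((Set.finite_lt_nat P.m).subset fun j hj => (P.cell_lt (i := j) (j := 0) hj).1)
  rw [Set.ncard_singleton] at b1
  rw [Set.ncard_eq_three.2 ⟨0, 1, 2, by decide, by decide, by decide, rfl⟩] at b2
  omega

end Pool.Agent.Lib.MP_bd7e44_co.W2
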