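import Mathlib

/-!
Width two: lattice paths in a region between two staircases; forward and backward path counts;
the majority point of a level and the two slot inequalities.
-/

namespace Pool.Agent.Lib.MP_bd7e44_co.W2

open Finset

/-- A region: at level `t` the positions from `L t` to `R t`. -/
structure Reg where
  T : ℕ
  L : ℕ → ℕ
  R : ℕ → ℕ
  R0 : R 0 = 0
  LR : ∀ t, L t ≤ R t
  L1 : ∀ t, L t ≤ L (t + 1)
  L2 : ∀ t, L (t + 1) ≤ L t + 1
  R1 : ∀ t, R t ≤ R (t + 1)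
  R2 : ∀ t, R (t + 1) ≤ R t + 1
  RT : R T = L T

namespace Reg

variable (M : Reg)

/-- Membership in the region. -/
def In (t x : ℕ) : Prop := M.L t ≤ x ∧ x ≤ M.R t

instance (t x : ℕ) : Decidable (M.In t x) := inferInstanceAs (Decidable (_ ∧ _))

lemma L0 : M.L 0 = 0 := by
  have := M.LR 0
  have := M.R0
  omega

lemma L_le (t : ℕ) : ∀ d, M.L t ≤ M.L (t + d) ∧ M.L (t + d) ≤ M.L t + d
  | 0 => by simp
  | d + 1 => by
    have := L_le t d
    have := M.L1 (t + d)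
    have := M.L2 (t + d)
    rw [← add_assoc]
    omega

lemma R_le (t : ℕ) : ∀ d, M.R t ≤ M.R (t + d) ∧ M.R (t + d) ≤ M.R t + d
  | 0 => by simp
  | d + 1 => by
    have := R_le t d
    have := M.R1 (t + d)
    have := M.R2 (t + d)
    rw [← add_assoc]
    omega

lemma L_mono {s t : ℕ} (h : s ≤ t) : M.L s ≤ M.L t ∧ M.L t + s ≤ M.L s + t := by
  obtain ⟨d, rfl⟩ := Nat.exists_eq_add_of_le h
  have := M.L_le s d
  omega

lemma R_mono {s t : ℕ} (h : s ≤ t) : M.R s ≤ M.R t ∧ M.R t + s ≤ M.R s + t := by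
  obtain ⟨d, rfl⟩ := Nat.exists_eq_add_of_le h
  have := M.R_le s d
  omega

/-- Forward path counts. -/
noncomputable def F : ℕ → ℕ → ℝ
  | 0, x => if x = 0 then 1 else 0
  | t + 1, x => if M.In (t + 1) x then F t x + (if x = 0 then 0 else F t (x - 1)) else 0

lemma F_z : ∀ {t x : ℕ}, ¬ M.In t x → M.F t x = 0
  | 0, x, h => by
    have : x ≠ 0 := by
      rintro rfl
      exact h ⟨M.L0.le, Nat.zero_le _⟩
    simp [F, this]
  | t + 1, x, h => by simp [F, h]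

lemma F_nn : ∀ t x : ℕ, 0 ≤ M.F t x
  | 0, x => by
    unfold F
    split_ifs <;> norm_num
  | t + 1, x => by
    have := F_nn t x
    have := F_nn t (x - 1)
    unfold F
    split_ifs <;> linarith

lemma F_zero {t : ℕ} (h : M.In (t + 1) 0) : M.F (t + 1) 0 = M.F t 0 := by simp [F, h]

lemma F_succ {t x : ℕ} (h : M.In (t + 1) (x + 1)) :
    M.F (t + 1) (x + 1) = M.F t (x + 1) + M.F t x := by simp [F, h]

lemma F_p : ∀ {t x : ℕ}, M.In t x → 0 < M.F t x
  | 0, x, h => by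
    have : x = 0 := by
      have := h.2
      have := M.R0
      omega
    simp [F, this]
  | t + 1, x, h => by
    have h1 := M.L1 t
    have h2 := M.R2 t
    have h3 := M.LR t
    have h4 := h.1
    have h5 := h.2
    by_cases hx : x ≤ M.R t
    · have := F_p (t := t) (x := x) ⟨by omega, hx⟩
      cases x with
      | zero => rwa [M.F_zero h]
      | succ x =>
        rw [M.F_succ h]
        linarith [M.F_nn t x]
    · obtain ⟨y, rfl⟩ : ∃ y, x = y + 1 := ⟨x - 1, by omega⟩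
      have := F_p (t := t) (x := y) ⟨by omega, by omega⟩
      rw [M.F_succ h]
      linarith [M.F_nn t (y + 1)]

/-- Weighted partial sums along a level. -/
noncomputable def S (φ : ℕ → ℝ) (t i : ℕ) : ℝ := ∑ x ∈ range i, M.F t x * φ x

lemma S_succ (φ : ℕ → ℝ) (t i : ℕ) : M.S φ t (i + 1) = M.S φ t i + M.F t i * φ i :=
  sum_range_succ _ _

lemma F_mul {φ φ' : ℕ → ℝ} {t : ℕ} (h1 : ∀ x, M.In t x → φ x = φ' x + φ' (x + 1)) (x : ℕ) :
    M.F t x * φ x = M.F t x * (φ' x + φ' (x + 1)) := by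
  by_cases h : M.In t x
  · rw [h1 x h]
  · simp [M.F_z h]

lemma S_step {φ φ' : ℕ → ℝ} {t : ℕ} (h1 : ∀ x, M.In t x → φ x = φ' x + φ' (x + 1))
    (h2 : ∀ x, ¬ M.In (t + 1) x → φ' x = 0) :
    ∀ i, M.S φ' (t + 1) (i + 1) = M.S φ t i + M.F t i * φ' i
  | 0 => by
    by_cases h : M.In (t + 1) 0
    · simp [S, M.F_zero h]
    · simp [S, h2 0 h]
  | i + 1 => by
    rw [S_succ, S_step h1 h2 i, S_succ, M.F_mul h1]
    by_cases h : M.In (t + 1) (i + 1)
    · rw [M.F_succ h]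
      ring
    · rw [h2 _ h]
      ring

lemma S_step' {φ φ' : ℕ → ℝ} {t : ℕ} (h1 : ∀ x, M.In t x → φ x = φ' x + φ' (x + 1))
    (h2 : ∀ x, ¬ M.In (t + 1) x → φ' x = 0) (i : ℕ) :
    M.S φ t (i + 1) = M.S φ' (t + 1) (i + 1) + M.F t i * φ' (i + 1) := by
  rw [M.S_step h1 h2, S_succ, M.F_mul h1]
  ring

lemma S_tot (φ : ℕ → ℕ → ℝ) : ∀ t : ℕ,
    (∀ s < t, ∀ x, M.In s x → φ s x = φ (s + 1) x + φ (s + 1) (x + 1)) →
    (∀ s ≤ t, ∀ x, ¬ M.In s x → φ s x = 0) → ∀ i, M.R t < i → M.S (φ t) t i = φ 0 0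
  | 0, _, _, i, hi => by
    rw [S, sum_eq_single 0]
    · simp [F]
    · intro x _ hx
      simp [F, hx]
    · intro h
      exact absurd (mem_range.2 (by omega)) h
  | t + 1, h1, h2, i, hi => by
    obtain ⟨j, rfl⟩ : ∃ j, i = j + 1 := ⟨i - 1, by omega⟩
    have a1 := M.S_step' (h1 t (by omega)) (h2 (t + 1) le_rfl) j
    have a2 := S_tot φ t (fun s hs => h1 s (by omega)) (fun s hs => h2 s (by omega)) (j + 1)
      (by have := M.R1 t; omega)
    rw [h2 (t + 1) le_rfl (j + 1) (fun h => by have := h.2; omega)] at a1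
    linarith

end Reg

/-- A region with its backward path counts. -/
structure Mod extends Reg where
  G : ℕ → ℕ → ℝ
  Gp : ∀ t x, t ≤ T → toReg.In t x → 0 < G t x
  Gz : ∀ t x, ¬ toReg.In t x → G t x = 0
  Gs : ∀ t x, t < T → toReg.In t x → G t x = G (t + 1) x + G (t + 1) (x + 1)
  GT : G T (L T) = 1

namespace Mod

variable (M : Mod)

/-- The number of paths left of position `i` at level `t`. -/
noncomputable def A (t i : ℕ) : ℝ := M.S (M.G t) t i

/-- The number of all paths. -/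
noncomputable def N : ℝ := M.G 0 0

lemma N_pos : 0 < M.N := M.Gp 0 0 (Nat.zero_le _) ⟨M.L0.le, Nat.zero_le _⟩

lemma G_nn {t : ℕ} (ht : t ≤ M.T) (x : ℕ) : 0 ≤ M.G t x := by
  by_cases h : M.In t x
  · exact (M.Gp t x ht h).le
  · exact (M.Gz t x h).ge

lemma A_succ (t i : ℕ) : M.A t (i + 1) = M.A t i + M.F t i * M.G t i := M.S_succ _ _ _

lemma A_tot {t i : ℕ} (ht : t ≤ M.T) (hi : M.R t < i) : M.A t i = M.N :=
  M.S_tot M.G t (fun s hs x => M.Gs s x (by omega)) (fun s _ x => M.Gz s x) i hi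

lemma A_zero {t i : ℕ} (hi : i ≤ M.L t) : M.A t i = 0 := by
  refine sum_eq_zero (s := range i) fun x hx => ?_
  rw [M.F_z (t := t) (x := x) fun h => by have := h.1; have := mem_range.1 hx; omega, zero_mul]

lemma A_mono {t : ℕ} (ht : t ≤ M.T) : Monotone (M.A t) :=
  monotone_nat_of_le_succ fun i => by
    rw [A_succ]
    linarith [mul_nonneg (M.F_nn t i) (M.G_nn ht i)]

lemma A_nn {t : ℕ} (ht : t ≤ M.T) (i : ℕ) : 0 ≤ M.A t i :=
  (M.A_zero (Nat.zero_le _)).ge.trans (M.A_mono ht (Nat.zero_le i))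

lemma A_le {t : ℕ} (ht : t ≤ M.T) (i : ℕ) : M.A t i ≤ M.N :=
  (M.A_mono ht (le_max_left i (M.R t + 1))).trans (M.A_tot ht (by omega)).le

lemma I1 {t : ℕ} (ht : t < M.T) (i : ℕ) :
    M.A (t + 1) (i + 1) = M.A t i + M.F t i * M.G (t + 1) i :=
  M.S_step (fun x => M.Gs t x ht) (M.Gz _) i

lemma I2 {t : ℕ} (ht : t < M.T) (i : ℕ) :
    M.A t (i + 1) = M.A (t + 1) (i + 1) + M.F t i * M.G (t + 1) (i + 1) :=
  M.S_step' (fun x => M.Gs t x ht) (M.Gz _) i

/-- Level `t` has no balanced cut. -/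
def UnbAt (θ : ℝ) (t : ℕ) : Prop := ∀ i, M.A t i ≤ θ * M.N ∨ (1 - θ) * M.N ≤ M.A t i

/-- No level has a balanced cut. -/
def Unb (θ : ℝ) : Prop := ∀ t ≤ M.T, M.UnbAt θ t

/-- `g` is the majority point of level `t`. -/
def Maj (θ : ℝ) (t g : ℕ) : Prop :=
  M.In t g ∧ M.A t g ≤ θ * M.N ∧ (1 - θ) * M.N ≤ M.A t (g + 1)

variable {M} {θ : ℝ}

lemma Unb.mono {θ' : ℝ} (h : M.Unb θ) (hθ : θ ≤ θ') : M.Unb θ' := fun t ht i => by
  have := M.N_pos
  rcases h t ht i with h | h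
  · left
    nlinarith
  · right
    nlinarith

lemma unbAt_of {t g : ℕ} (ht : t ≤ M.T) (h1 : M.A t g ≤ θ * M.N)
    (h2 : (1 - θ) * M.N ≤ M.A t (g + 1)) : M.UnbAt θ t := fun i => by
  rcases le_or_gt i g with h | h
  · exact Or.inl ((M.A_mono ht h).trans h1)
  · exact Or.inr (h2.trans (M.A_mono ht h))

lemma maj_cut (h0 : 0 ≤ θ) {t : ℕ} (ht : t ≤ M.T) (h : M.R t = M.L t) : M.Maj θ t (M.L t) := by
  have := M.N_pos
  refine ⟨⟨le_rfl, h.ge⟩, ?_, ?_⟩
  · rw [M.A_zero le_rfl]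
    positivity
  · rw [M.A_tot ht (by omega)]
    nlinarith

lemma in_of_le (h1 : θ < 1) {t g : ℕ} (ht : t ≤ M.T) (h : M.A t g ≤ θ * M.N) : g ≤ M.R t := by
  by_contra hc
  rw [M.A_tot ht (by omega)] at h
  nlinarith [M.N_pos]

lemma in_of_ge (h1 : θ < 1) {t g : ℕ} (h : (1 - θ) * M.N ≤ M.A t (g + 1)) : M.L t ≤ g := by
  by_contra hc
  rw [M.A_zero (by omega)] at h
  nlinarith [M.N_pos]

lemma maj_next (hU : M.Unb θ) (h1 : θ < 1) {t g : ℕ} (ht : t < M.T) (h : M.Maj θ t g) :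
    M.Maj θ (t + 1) g ∨ M.Maj θ (t + 1) (g + 1) := by
  obtain ⟨⟨a1, a2⟩, a3, a4⟩ := h
  rcases hU (t + 1) ht (g + 1) with h | h
  · refine Or.inr ⟨⟨by have := M.L2 t; omega, in_of_le h1 ht h⟩, h, ?_⟩
    rw [M.I1 ht]
    linarith [mul_nonneg (M.F_nn t (g + 1)) (M.G_nn ht (g + 1))]
  · refine Or.inl ⟨⟨in_of_ge h1 h, by have := M.R1 t; omega⟩, ?_, h⟩
    cases g with
    | zero =>
      rw [M.A_zero (Nat.zero_le _)] at a3 ⊢
      exact a3
    | succ g =>
      rw [M.I2 ht] at a3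
      linarith [mul_nonneg (M.F_nn t g) (M.G_nn ht (g + 1))]

lemma slotL (hU : M.Unb θ) (h0 : 0 ≤ θ) (h1 : θ < 1) : ∀ (d t g : ℕ), t + d = M.T → M.In t g →
    M.A t g ≤ θ * M.N → ∃ h, (1 - 2 * θ) * M.N ≤ M.F t g * h + (M.N - M.A t (g + 1)) ∧
      h ≤ M.G t g ∧ ∀ g', g = g' + 1 → M.L t ≤ g' → h ≤ M.G t g'
  | 0, t, g, hd, hg, _ => by
    obtain rfl : t = M.T := hd
    have a1 := hg.1
    have a2 := hg.2
    have a3 := M.RT
    refine ⟨M.G M.T g, ?_, le_rfl, fun g' _ _ => by omega⟩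
    have b1 := M.A_succ M.T g
    rw [M.A_zero (i := g) (by omega)] at b1
    nlinarith [M.N_pos]
  | d + 1, t, g, hd, hg, ha => by
    have ht : t < M.T := by omega
    have s1 := M.Gs t g ht hg
    have n1 := M.G_nn ht g
    have n2 := M.G_nn ht (g + 1)
    have l2 := M.L2 t
    have a1 := hg.1
    have a2 := hg.2
    rcases hU (t + 1) ht (g + 1) with h | h
    · have hin : M.In (t + 1) (g + 1) := ⟨by omega, in_of_le h1 ht h⟩
      obtain ⟨k, k1, k2, k3⟩ := slotL hU h0 h1 d (t + 1) (g + 1) (by omega) hin h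
      refine ⟨k, ?_, by linarith, ?_⟩
      · rw [M.F_succ hin, M.I1 ht] at k1
        nlinarith [mul_le_mul_of_nonneg_left k2 (M.F_nn t (g + 1))]
      · rintro g' rfl hg'
        have := k3 _ rfl (by omega)
        rw [M.Gs t g' ht ⟨hg', by omega⟩]
        linarith [M.G_nn ht g']
    · refine ⟨M.G (t + 1) g, ?_, by linarith, ?_⟩
      · rw [M.I1 ht] at h
        linarith [M.A_le ht.le (g + 1)]
      · rintro g' rfl hg'
        rw [M.Gs t g' ht ⟨hg', by omega⟩]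
        linarith [M.G_nn ht g']

lemma slotR (hU : M.Unb θ) (h0 : 0 ≤ θ) (h1 : θ < 1) : ∀ (d t g : ℕ), t + d = M.T → M.In t g →
    (1 - θ) * M.N ≤ M.A t (g + 1) → ∃ h, (1 - 2 * θ) * M.N ≤ M.F t g * h + M.A t g ∧
      h ≤ M.G t g ∧ (g + 1 ≤ M.R t → h ≤ M.G t (g + 1))
  | 0, t, g, hd, hg, _ => by
    obtain rfl : t = M.T := hd
    have a1 := hg.1
    have a2 := hg.2
    have a3 := M.RT
    refine ⟨M.G M.T g, ?_, le_rfl, fun _ => by omega⟩
    have b1 := M.A_succ M.T g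
    rw [M.A_tot (i := g + 1) le_rfl (by omega)] at b1
    nlinarith [M.N_pos]
  | d + 1, t, g, hd, hg, ha => by
    have ht : t < M.T := by omega
    have s1 := M.Gs t g ht hg
    have n1 := M.G_nn ht g
    have n2 := M.G_nn ht (g + 1)
    have n3 := M.G_nn ht (g + 1 + 1)
    have r1 := M.R1 t
    have a1 := hg.1
    have a2 := hg.2
    rcases hU (t + 1) ht (g + 1) with h | h
    · refine ⟨M.G (t + 1) (g + 1), ?_, by linarith, fun hg' => ?_⟩
      · rw [M.I2 ht] at ha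
        linarith [M.A_nn ht.le g]
      · rw [M.Gs t (g + 1) ht ⟨by omega, hg'⟩]
        linarith
    · have hin : M.In (t + 1) g := ⟨in_of_ge h1 h, by omega⟩
      obtain ⟨k, k1, k2, k3⟩ := slotR hU h0 h1 d (t + 1) g (by omega) hin h
      refine ⟨k, ?_, by linarith, fun hg' => ?_⟩
      · cases g with
        | zero =>
          rw [M.F_zero hin, M.A_zero (Nat.zero_le _)] at k1
          rwa [M.A_zero (Nat.zero_le _)]
        | succ g =>
          rw [M.F_succ hin] at k1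
          rw [M.I2 ht]
          nlinarith [mul_le_mul_of_nonneg_left k2 (M.F_nn t g)]
      · have := k3 (by omega)
        rw [M.Gs t (g + 1) ht ⟨by omega, hg'⟩]
        linarith

end Mod

end Pool.Agent.Lib.MP_bd7e44_co.W2
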