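import Pool.Agent.Lib.MP_bd7e44_co.Lists
import Pool.Agent.Lib.MP_bd7e44_co.W2.Model

/-!
Width two: a poset that is a union of two chains and its region of down-sets.
-/

namespace Pool.Agent.Lib.MP_bd7e44_co.W2

open Finset
open scoped Classical

/-- The poset is the union of two chains whose relative order is given by the region. -/
structure Rep (X : Type) [PartialOrder X] (M : Reg) where
  m : ℕ
  n : ℕ
  a : ℕ → X
  b : ℕ → X
  hT : M.T = m + n
  hm : M.L M.T = m
  ha : ∀ i j, i < j → j < m → a i < a j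
  hb : ∀ i j, i < j → j < n → b i < b j
  cov : ∀ x, (∃ i < m, a i = x) ∨ ∃ j < n, b j = x
  ne : ∀ i < m, ∀ j < n, a i ≠ b j
  ab : ∀ i < m, ∀ j < n, a i < b j ↔ i < M.L (i + j + 1)
  ba : ∀ i < m, ∀ j < n, b j < a i ↔ M.R (i + j + 1) ≤ i

lemma lt_iff_of {X : Type} [PartialOrder X] {a : ℕ → X} {m : ℕ}
    (ha : ∀ i j, i < j → j < m → a i < a j) {i j : ℕ} (hi : i < m) (hj : j < m) :
    (a i < a j ↔ i < j) ∧ (a i = a j ↔ i = j) := by
  rcases lt_trichotomy i j with h | rfl | h
  · exact ⟨iff_of_true (ha i j h hj) h, iff_of_false (ha i j h hj).ne h.ne⟩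
  · simp
  · exact ⟨iff_of_false (ha j i h hi).not_gt h.not_gt, iff_of_false (ha j i h hi).ne' h.ne'⟩

namespace Rep

variable {X : Type} [PartialOrder X] {M : Reg} (P : Rep X M)

/-- The first `i` elements of one chain and the first `j` of the other. -/
noncomputable def D (i j : ℕ) : Finset X := (range i).image P.a ∪ (range j).image P.b

lemma mem_a {k i j : ℕ} (hk : k < P.m) (hi : i ≤ P.m) (hj : j ≤ P.n) : P.a k ∈ P.D i j ↔ k < i := by
  simp only [D, mem_union, mem_image, mem_range]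
  constructor
  · rintro (⟨l, h1, h2⟩ | ⟨l, h1, h2⟩)
    · rwa [← (lt_iff_of P.ha (by omega) hk).2.1 h2]
    · exact absurd h2.symm (P.ne k hk l (by omega))
  · exact fun h => Or.inl ⟨k, h, rfl⟩

lemma mem_b {k i j : ℕ} (hk : k < P.n) (hi : i ≤ P.m) (hj : j ≤ P.n) : P.b k ∈ P.D i j ↔ k < j := by
  simp only [D, mem_union, mem_image, mem_range]
  constructor
  · rintro (⟨l, h1, h2⟩ | ⟨l, h1, h2⟩)
    · exact absurd h2 (P.ne l (by omega) k hk)
    · rwa [← (lt_iff_of P.hb (by omega) hk).2.1 h2]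
  · exact fun h => Or.inr ⟨k, h, rfl⟩

lemma ins_a (i j : ℕ) : insert (P.a i) (P.D i j) = P.D (i + 1) j := by
  rw [D, D, range_add_one, image_insert, insert_union]

lemma ins_b (i j : ℕ) : insert (P.b j) (P.D i j) = P.D i (j + 1) := by
  rw [D, D, range_add_one, image_insert, union_insert]

lemma bnd {t x : ℕ} (ht : t ≤ M.T) (h : M.In t x) : x ≤ P.m ∧ x ≤ t ∧ t ≤ x + P.n := by
  have := M.L_mono ht
  have := M.R_mono ht
  have := M.R_mono (Nat.zero_le t)
  have := M.R0
  have := M.RT
  have := P.hT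
  have := P.hm
  have := h.1
  have := h.2
  omega

lemma ad_iff {i j : ℕ} (ht : i + j < M.T) (h : M.In (i + j) i) (z : X) :
    Ad (P.D i j) z ↔
      (M.In (i + j + 1) (i + 1) ∧ z = P.a i) ∨ (M.In (i + j + 1) i ∧ z = P.b j) := by
  obtain ⟨b1, -, b2⟩ := P.bnd ht.le h
  have b3 : j ≤ P.n := by omega
  have l2 := M.L2 (i + j)
  have r1 := M.R1 (i + j)
  have l3 := M.L_mono (Nat.succ_le_of_lt ht)
  have r3 := M.R_mono (Nat.succ_le_of_lt ht)
  have := M.RT
  have := P.hT
  have := P.hm
  obtain ⟨h1, h2⟩ := h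
  simp only [Nat.succ_eq_add_one] at l3 r3
  constructor
  · rintro ⟨h3, h4⟩
    rcases P.cov z with ⟨k, hk, rfl⟩ | ⟨k, hk, rfl⟩
    · rw [P.mem_a hk b1 b3] at h3
      obtain rfl : k = i := by
        by_contra hc
        have := (P.mem_a (by omega) b1 b3).1 (h4 _ (P.ha i k (by omega) hk))
        omega
      refine Or.inl ⟨⟨by omega, ?_⟩, rfl⟩
      by_contra hc
      have hj : j < P.n := by omega
      have := (P.mem_b hj b1 b3).1 (h4 _ ((P.ba k hk j hj).2 (by omega)))
      omega
    · rw [P.mem_b hk b1 b3] at h3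
      obtain rfl : k = j := by
        by_contra hc
        have := (P.mem_b (by omega) b1 b3).1 (h4 _ (P.hb j k (by omega) hk))
        omega
      refine Or.inr ⟨⟨?_, by omega⟩, rfl⟩
      by_contra hc
      have hi : i < P.m := by omega
      have := (P.mem_a hi b1 b3).1 (h4 _ ((P.ab i hi k hk).2 (by omega)))
      omega
  · rintro (⟨⟨h3, h4⟩, rfl⟩ | ⟨⟨h3, h4⟩, rfl⟩)
    · have hi : i < P.m := by omega
      refine ⟨by rw [P.mem_a hi b1 b3]; omega, fun w hw => ?_⟩
      rcases P.cov w with ⟨k, hk, rfl⟩ | ⟨k, hk, rfl⟩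
      · exact (P.mem_a hk b1 b3).2 ((lt_iff_of P.ha hk hi).1.1 hw)
      · rw [P.ba i hi k hk] at hw
        rw [P.mem_b hk b1 b3]
        by_contra hc
        have := M.R_mono (show i + j + 1 ≤ i + k + 1 by omega)
        omega
    · have hj : j < P.n := by omega
      refine ⟨by rw [P.mem_b hj b1 b3]; omega, fun w hw => ?_⟩
      rcases P.cov w with ⟨k, hk, rfl⟩ | ⟨k, hk, rfl⟩
      · rw [P.ab k hk j hj] at hw
        rw [P.mem_a hk b1 b3]
        by_contra hc
        have := M.L_mono (show i + j + 1 ≤ k + j + 1 by omega)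
        omega
      · exact (P.mem_b hk b1 b3).2 ((lt_iff_of P.hb hk hj).1.1 hw)

variable [Fintype X]

lemma D_top : P.D P.m P.n = univ := eq_univ_of_forall fun x => by
  rcases P.cov x with ⟨k, hk, rfl⟩ | ⟨k, hk, rfl⟩
  · exact (P.mem_a hk le_rfl le_rfl).2 hk
  · exact (P.mem_b hk le_rfl le_rfl).2 hk

lemma D_ne {i j : ℕ} (ht : i + j < M.T) (h : M.In (i + j) i) : P.D i j ≠ univ := fun hu => by
  obtain ⟨b1, -, b2⟩ := P.bnd ht.le h
  have := P.hT
  by_cases hi : i < P.m
  · exact lt_irrefl _ ((P.mem_a hi b1 (j := j) (by omega)).1 (hu ▸ mem_univ _))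
  · exact lt_irrefl _ ((P.mem_b (k := j) (by omega) b1 (by omega)).1 (hu ▸ mem_univ _))

lemma sum_ad {i j : ℕ} (ht : i + j < M.T) (h : M.In (i + j) i) (ψ : X → ℕ) :
    (∑ z, if Ad (P.D i j) z then ψ z else 0) =
      (if M.In (i + j + 1) i then ψ (P.b j) else 0) +
        if M.In (i + j + 1) (i + 1) then ψ (P.a i) else 0 := by
  have e : ∀ z, (if Ad (P.D i j) z then ψ z else 0) =
      (if z = P.b j then (if M.In (i + j + 1) i then ψ z else 0) else 0) +
        if z = P.a i then (if M.In (i + j + 1) (i + 1) then ψ z else 0) else 0 := fun z => by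
    rw [P.ad_iff ht h]
    by_cases c1 : M.In (i + j + 1) (i + 1) <;> by_cases c2 : M.In (i + j + 1) i
    · have n1 := P.ne i (by have := P.bnd ht c1; omega) j (by have := P.bnd ht c2; omega)
      by_cases c3 : z = P.a i
      · simp [c1, c2, c3, n1]
      · simp [c1, c2, c3]
    · simp [c1, c2]
    · simp [c1, c2]
    · simp [c1, c2]
  simp only [e, sum_add_distrib, sum_ite_eq', mem_univ, if_true]

/-- The model of the poset. -/
noncomputable def mod : Mod where
  toReg := M
  G t x := if M.In t x then (e (P.D x (t - x)) : ℝ) else 0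
  Gp t x _ h := by
    rw [if_pos h]
    exact_mod_cast e_pos _
  Gz t x h := if_neg h
  Gs t x ht h := by
    obtain ⟨j, rfl⟩ := Nat.exists_eq_add_of_le (P.bnd ht.le h).2.1
    rw [if_pos h, Nat.add_sub_cancel_left, e_step (P.D_ne ht h), P.sum_ad ht h, P.ins_a, P.ins_b,
      show x + j + 1 - x = j + 1 by omega, show x + j + 1 - (x + 1) = j by omega]
    push_cast
    rfl
  GT := by
    rw [if_pos ⟨le_rfl, M.RT.ge⟩, P.hm, P.hT, Nat.add_sub_cancel_left, P.D_top, e_univ,
      Nat.cast_one]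

lemma mod_N : P.mod.N = e (∅ : Finset X) := by
  simp only [Mod.N, mod]
  rw [if_pos ⟨M.L0.le, Nat.zero_le _⟩]
  simp [D]

lemma prob {i j : ℕ} (hi : i < P.m) (hj : j < P.n) :
    (g (P.b j) (P.a i) ∅ : ℝ) = P.mod.A (i + j + 1) (i + 1) := by
  have hT := P.hT
  let φ : ℕ → ℕ → ℝ := fun s x => if M.In s x then (if i < x then 0 else if j < s - x then
    (e (P.D x (s - x)) : ℝ) else (g (P.b j) (P.a i) (P.D x (s - x)) : ℝ)) else 0
  have h1 : ∀ s < i + j + 1, ∀ x, M.In s x → φ s x = φ (s + 1) x + φ (s + 1) (x + 1) := by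
    intro s hs x h
    have ht : s < M.T := by omega
    obtain ⟨y, rfl⟩ := Nat.exists_eq_add_of_le (P.bnd ht.le h).2.1
    simp only [φ]
    rw [if_pos h, Nat.add_sub_cancel_left, show x + y + 1 - x = y + 1 by omega,
      show x + y + 1 - (x + 1) = y by omega]
    by_cases c1 : i < x
    · simp [c1, Nat.lt_succ_of_lt c1]
    · by_cases c2 : j < y
      · rw [if_neg c1, if_neg c1, if_pos c2, if_pos c2, if_pos (Nat.lt_succ_of_lt c2),
          if_neg (show ¬ i < x + 1 by omega), e_step (P.D_ne ht h), P.sum_ad ht h, P.ins_a, P.ins_b]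
        push_cast
        rfl
      · rw [if_neg c1, if_neg c1, if_neg c2, if_neg c2, g, cnt_step (P.D_ne ht h), P.sum_ad ht h,
          P.ins_a, P.ins_b]
        push_cast
        have n1 := P.ne i hi y (by omega)
        have n2 := P.ne x (by omega) j hj
        congr 2
        · by_cases c3 : y = j
          · subst c3
            simp [pre, n1.symm, cnt_true]
          · have n3 : P.b j ≠ P.b y := fun h => c3 ((lt_iff_of P.hb hj (by omega)).2.1 h).symm
            simp [pre, n1.symm, n3, g, show ¬ j < y + 1 by omega]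
        · by_cases c3 : x = i
          · subst c3
            simp [pre, cnt_false]
          · have n3 : P.a x ≠ P.a i := fun h => c3 ((lt_iff_of P.ha (by omega) hi).2.1 h)
            simp [pre, n2.symm, n3, g, show ¬ i < x + 1 by omega]
  have h2 := M.S_tot φ (i + j + 1) h1 (fun s _ x h => if_neg h) (M.R (i + j + 1) + 1 + (i + 1))
    (by omega)
  have h3 : φ 0 0 = g (P.b j) (P.a i) ∅ := by
    simp only [φ]
    rw [if_pos ⟨M.L0.le, Nat.zero_le _⟩]
    simp [D]
  rw [← h3, ← h2, Mod.A, Reg.S, Reg.S, add_comm _ (i + 1), sum_range_add,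
    sum_eq_zero (s := range (M.R _ + 1)), add_zero]
  · refine sum_congr rfl fun x hx => ?_
    have := mem_range.1 hx
    simp only [φ, mod]
    rw [if_neg (show ¬ i < x by omega), if_pos (show j < i + j + 1 - x by omega)]
  · intro x _
    simp only [φ]
    rw [if_pos (show i < i + 1 + x by omega), ite_self, mul_zero]

end Rep

end Pool.Agent.Lib.MP_bd7e44_co.W2
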