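import Pool.Agent.Lib.MP_bd7e44_co.W2.Cert

/-!
Width two: a region without a cut balanced better than the constant consists of single points and
three-element components.
-/

namespace Pool.Agent.Lib.MP_bd7e44_co.W2

/-- The constant. -/
noncomputable def bs : ℝ := (10999528681 - 3105 * Real.sqrt 433) / 31531330288

/-- A rational number just above the constant. -/
noncomputable def th : ℝ := 348842372640 / 1000000000000

lemma s_sq : Real.sqrt 433 * Real.sqrt 433 = 433 := Real.mul_self_sqrt (by norm_num)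

lemma s_lo : 20.80865 < Real.sqrt 433 := (Real.lt_sqrt (by norm_num)).2 (by norm_num)

lemma s_hi : Real.sqrt 433 < 20.80866 := (Real.sqrt_lt' (by norm_num)).2 (by norm_num)

lemma bs_le : bs ≤ th := by
  unfold bs th
  linarith [s_lo]

lemma le_bs : 0.348842 ≤ bs := by
  unfold bs
  linarith [s_hi]

variable {M : Mod} {t : ℕ}

lemma cone_V0 {x1 y1 x2 y2 : ℤ} (ht : t ≤ M.T) (hR : M.R t = M.L t + 1)
    (h1 : x1 * M.F t (M.L t + 1) ≤ y1 * M.F t (M.L t))
    (h2 : y2 * M.F t (M.L t) ≤ x2 * M.F t (M.L t + 1)) (hD : x1 * y2 < x2 * y1) :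
    ∃ α β : ℝ, 0 ≤ α ∧ 0 ≤ β ∧ 0 < α + β ∧ ∀ k rows, V0 M α β (M.G t (M.L t)) (M.G t (M.L t + 1)) t
      ⟨2, k, [x1, y1], [x2, y2], [1, 0], [0, 1], rows, []⟩ t := by
  have hD' : (0 : ℝ) < x2 * y1 - x1 * y2 := by exact_mod_cast sub_pos.2 hD
  have hp := M.F_p (t := t) (x := M.L t) ⟨le_rfl, by omega⟩
  set a := (x2 * M.F t (M.L t + 1) - y2 * M.F t (M.L t)) / (x2 * y1 - x1 * y2) with ha
  set b := (y1 * M.F t (M.L t) - x1 * M.F t (M.L t + 1)) / (x2 * y1 - x1 * y2) with hb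
  have a0 : 0 ≤ a := div_nonneg (by linarith) hD'.le
  have b0 : 0 ≤ b := div_nonneg (by linarith) hD'.le
  have e0 : M.F t (M.L t) = a * x1 + b * x2 := by
    rw [ha, hb, div_mul_eq_mul_div, div_mul_eq_mul_div, ← add_div, eq_div_iff hD'.ne']
    ring
  have e1 : M.F t (M.L t + 1) = a * y1 + b * y2 := by
    rw [ha, hb, div_mul_eq_mul_div, div_mul_eq_mul_div, ← add_div, eq_div_iff hD'.ne']
    ring
  refine ⟨a, b, a0, b0, ?_, fun k rows => ⟨ht, by simp only [hR], fun i hi => ?_, ?_, ?_, rfl⟩⟩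
  · by_contra hc
    rw [show a = 0 by linarith, show b = 0 by linarith] at e0
    linarith
  · have : i < 2 := hi
    interval_cases i
    · exact e0
    · exact e1
  · simp [dot_two]
  · simp [dot_two]

lemma of_cone {α β c1 c2 : ℝ} {s0 : ℕ} {s : St} {x1 y1 x2 y2 : ℤ} (h : V0 M α β c1 c2 s0 s t)
    (hα : 0 ≤ α) (hβ : 0 ≤ β) (hW : s.W = 2) (h1 : InC x1 y1 x2 y2 s.f1)
    (h2 : InC x1 y1 x2 y2 s.f2) : x1 * M.F t (M.L t + 1) ≤ y1 * M.F t (M.L t) ∧
      y2 * M.F t (M.L t) ≤ x2 * M.F t (M.L t + 1) := by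
  have e0 := h.hF 0 (by omega)
  have e1 := h.hF 1 (by omega)
  rw [add_zero] at e0
  have a1 : (x1 : ℝ) * nth s.f1 1 ≤ y1 * nth s.f1 0 := by exact_mod_cast h1.1
  have a2 : (y2 : ℝ) * nth s.f1 0 ≤ x2 * nth s.f1 1 := by exact_mod_cast h1.2
  have a3 : (x1 : ℝ) * nth s.f2 1 ≤ y1 * nth s.f2 0 := by exact_mod_cast h2.1
  have a4 : (y2 : ℝ) * nth s.f2 0 ≤ x2 * nth s.f2 1 := by exact_mod_cast h2.2
  rw [e0, e1]
  constructor
  · nlinarith [mul_le_mul_of_nonneg_left a1 hα, mul_le_mul_of_nonneg_left a3 hβ]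
  · nlinarith [mul_le_mul_of_nonneg_left a2 hα, mul_le_mul_of_nonneg_left a4 hβ]

/-- The invariant at the end of a period. -/
def Inv (M : Mod) (k : ℕ) (x1 y1 x2 y2 : ℤ) (u v : ℝ) (t : ℕ) : Prop :=
  t ≤ M.T ∧ M.R t = M.L t + 1 ∧ M.Maj th t (M.L t + k) ∧
    (x1 * M.F t (M.L t + 1) ≤ y1 * M.F t (M.L t) ∧ y2 * M.F t (M.L t) ≤ x2 * M.F t (M.L t + 1)) ∧
    u * M.G t (M.L t) + v * M.G t (M.L t + 1) ≤ 0

lemma of_lfP {α β c1 c2 u v u' v' κ : ℝ} {s0 k : ℕ} {s : St} {x1 y1 x2 y2 n1 n2 n3 n4 : ℤ}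
    (hl : lfP k [n1, n2] [n3, n4] x1 y1 x2 y2 s = true) (h : V0 M α β c1 c2 s0 s t)
    (hm : M.Maj th t (M.L t + s.k)) (hα : 0 ≤ α) (hβ : 0 ≤ β) (hc : u * c1 + v * c2 ≤ 0)
    (hκ : 0 < κ) (e1 : u * n1 + v * n3 = κ * u') (e2 : u * n2 + v * n4 = κ * v') :
    s0 < t ∧ Inv M k x1 y1 x2 y2 u' v' t := by
  obtain ⟨a1, a2, a3, a4, a5, a6, a7⟩ := of_decide_eq_true hl
  have b1 := h.h1
  have b2 := h.h2
  have b3 := h.hW
  have b4 := h.hh.len
  have b5 := List.length_pos_iff.2 a3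
  rw [a1, a4, dot_two] at b1
  rw [a1, a5, dot_two] at b2
  refine ⟨by omega, h.ht, by omega, a2 ▸ hm, of_cone h hα hβ a1 a6 a7, ?_⟩
  refine le_of_mul_le_mul_left ?_ hκ
  rw [← b1, ← b2] at hc
  linear_combination hc - M.G t (M.L t) * e1 - M.G t (M.L t + 1) * e2

lemma th_0 : 0 ≤ th := by norm_num [th]

lemma th_1 : th < 1 := by norm_num [th]

lemma th_q : (0 : ℝ) < (1000000000000 : ℤ) := by norm_num

lemma th_p : ((348842372640 : ℤ) : ℝ) = th * (1000000000000 : ℤ) := by norm_num [th]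

lemma dead {k : ℕ} {x1 y1 x2 y2 n1 n2 n3 n4 a b : ℤ} {u v μ c : ℝ} {tr : Tr} (hU : M.Unb th)
    (hc : chk 348842372640 1000000000000 (lfP k [n1, n2] [n3, n4] x1 y1 x2 y2) tr
      (St.add 348842372640 1000000000000
        ⟨2, k, [x1, y1], [x2, y2], [1, 0], [0, 1], [[a, b]], []⟩) = true)
    (hD : x1 * y2 < x2 * y1) (c0 : 0 ≤ c) (ha : a ≤ c * u) (hb : b ≤ c * v) (hμ : 0 < μ)
    (e1 : u * n1 + v * n3 = μ * u) (e2 : u * n2 + v * n4 = μ * v) :
    ∀ n t : ℕ, M.T < t + n → ¬ Inv M k x1 y1 x2 y2 u v t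
  | 0, t, hn, h => by
    have := h.1
    omega
  | n + 1, t, hn, ⟨h1, h2, h3, ⟨h4, h5⟩, h6⟩ => by
    obtain ⟨α, β, a1, a2, a3, a4⟩ := cone_V0 h1 h2 h4 h5 hD
    have hv := a4 k [[a, b]]
    have hr : Rows M ⟨2, k, [x1, y1], [x2, y2], [1, 0], [0, 1], [[a, b]], []⟩ t := by
      intro r hr
      obtain rfl := List.mem_singleton.1 hr
      rw [dot_two]
      nlinarith [mul_le_mul_of_nonneg_right ha (M.G_nn h1 (M.L t)),
        mul_le_mul_of_nonneg_right hb (M.G_nn h1 (M.L t + 1)), mul_nonpos_of_nonneg_of_nonpos c0 h6]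
    obtain ⟨s', t', b1, b2, b3⟩ := chk_sound hU th_0 th_1 th_q th_p a1 a2 a3 _ _ _ _ hc hv.add h3
      (hr.add hU th_0 th_1 th_q th_p a1 a2 a3 hv h3)
    obtain ⟨b4, b5⟩ := of_lfP b1 b2 b3 a1 a2 h6 hμ e1 e2
    exact dead hU hc hD c0 ha hb hμ e1 e2 n t' (by omega) b5

lemma dead0 (hU : M.Unb th) : ¬ Inv M 0 13035 10000 13039 10000 18 (-(7 + Real.sqrt 433)) t :=
  dead (μ := (63 - 3 * Real.sqrt 433) / 2) (c := 1000 / 18) hU t_p0 (by norm_num) (by norm_num)
    (by norm_num) (by push_cast; linarith [s_hi]) (by linarith [s_hi]) (by push_cast; ring)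
    (by push_cast; linear_combination (-3 / 2) * s_sq) (M.T + 1) t (by omega)

lemma dead1 (hU : M.Unb th) : ¬ Inv M 1 10000 13039 10000 13035 (-(7 + Real.sqrt 433)) 18 t :=
  dead (μ := (63 - 3 * Real.sqrt 433) / 2) (c := 1000 / 18) hU t_p1 (by norm_num) (by norm_num)
    (by push_cast; linarith [s_hi]) (by norm_num) (by linarith [s_hi])
    (by push_cast; linear_combination (-3 / 2) * s_sq) (by push_cast; ring) (M.T + 1) t (by omega)

/-- After a cut that is not followed by a cut comes a three-element component. -/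
lemma comp (hU : M.Unb bs) (ht : t + 1 ≤ M.T) (hc : M.R t = M.L t)
    (hn : M.R (t + 1) ≠ M.L (t + 1)) : ∃ d, M.L (t + 1) = M.L t ∧ M.R (t + 1) = M.L t + 1 ∧
      M.L (t + 2) = M.L t + d ∧ M.R (t + 2) = M.L t + 1 + d ∧ M.L (t + 3) = M.L t + d + 1 ∧
      M.R (t + 3) = M.L t + d + 1 ∧ t + 3 ≤ M.T := by
  have hU' := hU.mono bs_le
  have l1 := M.L1 t
  have l2 := M.R2 t
  have l3 := M.LR (t + 1)
  have hL : M.L (t + 1) = M.L t := by omega
  have hR : M.R (t + 1) = M.L t + 1 := by omega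
  have hp := M.F_p (t := t) (x := M.L t) ⟨le_rfl, hc.ge⟩
  have f0 : M.F (t + 1) (M.L (t + 1)) = M.F t (M.L t) := by
    rw [Reg.F, if_pos ⟨le_rfl, l3⟩, hL]
    split_ifs
    · rw [add_zero]
    · rw [M.F_z (x := M.L t - 1) fun h => by have := h.1; omega, add_zero]
  have f1 : M.F (t + 1) (M.L (t + 1) + 1) = M.F t (M.L t) := by
    rw [M.F_succ ⟨by omega, by omega⟩, hL, M.F_z fun h => by have := h.2; omega, zero_add]
  have hv : ∀ k, V0 M (M.F t (M.L t)) 0 (M.G (t + 1) (M.L (t + 1))) (M.G (t + 1) (M.L (t + 1) + 1))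
      (t + 1) ⟨2, k, [1, 1], [1, 1], [1, 0], [0, 1], [], []⟩ (t + 1) := fun k => by
    refine ⟨ht, by simp only [hL, hR], fun i hi => ?_, by simp [dot_two], by simp [dot_two], rfl⟩
    have : i < 2 := hi
    interval_cases i
    · simpa [nth] using f0
    · simpa [nth] using f1
  have hr : ∀ k, Rows M ⟨2, k, [1, 1], [1, 1], [1, 0], [0, 1], [], []⟩ (t + 1) :=
    fun k r hr => absurd hr List.not_mem_nil
  have eA : M.A (t + 1) (M.L (t + 1) + 1) = M.F t (M.L t) * M.G (t + 1) (M.L (t + 1)) := by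
    rw [M.A_succ, M.A_zero le_rfl, f0, zero_add]
  have eN : M.N = M.F t (M.L t) * (M.G (t + 1) (M.L (t + 1)) + M.G (t + 1) (M.L (t + 1) + 1)) := by
    rw [← M.A_tot (i := M.L (t + 1) + 1 + 1) ht (by omega), M.A_succ, eA, f1, mul_add]
  have hN := M.N_pos
  have hb := bs_le
  have hth : th < 1 / 2 := by norm_num [th]
  have fin : ∀ (d : ℕ) (s : St) (u : ℕ), V0 M (M.F t (M.L t)) 0 (M.G (t + 1) (M.L (t + 1)))
      (M.G (t + 1) (M.L (t + 1) + 1)) (t + 1) s u → s.W = 1 ∧ s.h = [(1, 0), (d, d)] →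
      ∃ d, M.L (t + 1) = M.L t ∧ M.R (t + 1) = M.L t + 1 ∧
      M.L (t + 2) = M.L t + d ∧ M.R (t + 2) = M.L t + 1 + d ∧ M.L (t + 3) = M.L t + d + 1 ∧
      M.R (t + 3) = M.L t + d + 1 ∧ t + 3 ≤ M.T := by
    rintro d s u h ⟨h1, h2⟩
    have a1 := h.hh
    have a2 := h.ht
    rw [h2] at a1
    obtain ⟨_, rfl, a3, a4, _, rfl, a5, a6, rfl⟩ := a1
    simp only [add_assoc, Nat.reduceAdd] at a2 a3 a4 a5 a6
    exact ⟨d, hL, hR, by omega, by omega, by omega, by omega, a2⟩
  rcases Mod.maj_next hU' th_1 ht (Mod.maj_cut th_0 (by omega) hc) with hm | hm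
  · rw [← hL] at hm
    obtain ⟨s', t', b1, b2, b3⟩ := chk_sound hU' th_0 th_1 th_q th_p hp.le le_rfl (by linarith) _ _
      _ _ t_c0 (hv 0).add hm ((hr 0).add hU' th_0 th_1 th_q th_p hp.le le_rfl (by linarith) (hv 0) hm)
    rcases Bool.or_eq_true_iff.1 b1 with b1 | b1
    · exact fin _ _ _ b2 (of_decide_eq_true b1)
    · have c1 : (1 - bs) * M.N ≤ M.A (t + 1) (M.L (t + 1) + 1) :=
        (hU _ ht _).resolve_left fun h => by nlinarith [hm.2.2]
      rw [eA, eN] at c1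
      refine absurd (of_lfP (u := -bs) (v := 1 - bs)
        (κ := (10613911545 * Real.sqrt 433 - 220824026145) / 15765665144) b1 b2 b3 hp.le le_rfl
        (by nlinarith) (by linarith [s_lo]) ?_ ?_).2 (dead1 hU')
      · push_cast
        unfold bs
        linear_combination (10613911545 / 15765665144) * s_sq
      · push_cast
        unfold bs
        ring
  · rw [← hL] at hm
    obtain ⟨s', t', b1, b2, b3⟩ := chk_sound hU' th_0 th_1 th_q th_p hp.le le_rfl (by linarith) _ _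
      _ _ t_c1 (hv 1).add hm ((hr 1).add hU' th_0 th_1 th_q th_p hp.le le_rfl (by linarith) (hv 1) hm)
    rcases Bool.or_eq_true_iff.1 b1 with b1 | b1
    · exact fin _ _ _ b2 (of_decide_eq_true b1)
    · have c1 : M.A (t + 1) (M.L (t + 1) + 1) ≤ bs * M.N :=
        (hU _ ht _).resolve_right fun h => by nlinarith [hm.2.1]
      rw [eA, eN] at c1
      refine absurd (of_lfP (u := 1 - bs) (v := -bs)
        (κ := (10613911545 * Real.sqrt 433 - 220824026145) / 15765665144) b1 b2 b3 hp.le le_rfl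
        (by nlinarith) (by linarith [s_lo]) ?_ ?_).2 (dead0 hU')
      · push_cast
        unfold bs
        ring
      · push_cast
        unfold bs
        linear_combination (10613911545 / 15765665144) * s_sq

/-- The unit square at `(i, j)` lies in the region. -/
def Reg.Cell (M : Reg) (i j : ℕ) : Prop :=
  i + j + 1 ≤ M.T ∧ M.L (i + j + 1) ≤ i ∧ i < M.R (i + j + 1)

theorem low (hU : M.Unb bs) {i j : ℕ} (h : M.Cell i j) :
    {j' | M.Cell i j'}.ncard + {i' | M.Cell i' j}.ncard = 3 := by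
  classical
  obtain ⟨h1, h2, h3⟩ := h
  have g1 : M.R (Nat.findGreatest (fun t => M.R t = M.L t) (i + j)) = M.L _ :=
    Nat.findGreatest_spec (P := fun t => M.R t = M.L t) (Nat.zero_le _) (M.R0.trans M.L0.symm)
  have g2 := Nat.findGreatest_le (P := fun t => M.R t = M.L t) (i + j)
  have g3 := fun k => Nat.findGreatest_is_greatest (P := fun t => M.R t = M.L t) (n := i + j) (k := k)
  generalize Nat.findGreatest (fun t => M.R t = M.L t) (i + j) = t at g1 g2 g3
  have g4 : ∀ k, t < k → k ≤ i + j + 1 → M.R k ≠ M.L k := fun k k1 k2 => by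
    rcases Nat.lt_succ_iff_lt_or_eq.1 (Nat.lt_succ_of_le k2) with k3 | rfl
    · exact g3 k k1 (by omega)
    · omega
  obtain ⟨d, a1, a2, a3, a4, a5, a6, a7⟩ := comp hU (by omega) g1 (g4 _ (by omega) (by omega))
  have d1 : d ≤ 1 := by
    have : M.L (t + 2) ≤ M.L (t + 1) + 1 := M.L2 (t + 1)
    omega
  have g5 : i + j + 1 < t + 3 := by
    by_contra hc
    exact g4 (t + 3) (by omega) (by omega) (by omega)
  have ct := (M.L_mono (Nat.zero_le t)).2
  rw [M.L0] at ct
  have key : ∀ x y, M.Cell x y ↔ (x + y + 1 ≤ t ∧ M.Cell x y ∧ x < M.L t ∧ y + M.L t < t) ∨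
      (x = M.L t ∧ x + y = t) ∨ (x = M.L t + d ∧ x + y = t + 1) ∨
      (M.Cell x y ∧ M.L t + d < x ∧ t + 1 < y + M.L t + d) := fun x y => by
    constructor
    · rintro ⟨c1, c2, c3⟩
      rcases le_or_gt (x + y + 1) t with c4 | c4
      · have := M.L_mono c4
        have := M.R_mono c4
        exact Or.inl ⟨c4, ⟨c1, c2, c3⟩, by omega, by omega⟩
      · rcases lt_or_ge (x + y + 1) (t + 3) with c5 | c5
        · rcases (by omega : x + y + 1 = t + 1 ∨ x + y + 1 = t + 2) with c6 | c6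
          · rw [c6] at c2 c3
            omega
          · rw [c6] at c2 c3
            omega
        · have := M.L_mono c5
          have := M.R_mono c5
          exact Or.inr (Or.inr (Or.inr ⟨⟨c1, c2, c3⟩, by omega, by omega⟩))
    · rintro (c | c | c | c)
      · exact c.2.1
      · rw [Reg.Cell, show x + y + 1 = t + 1 by omega]
        omega
      · rw [Reg.Cell, show x + y + 1 = t + 2 by omega]
        omega
      · exact c.1
  have k0 := (key i j).1 ⟨h1, h2, h3⟩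
  rcases (by omega : d = 0 ∨ d = 1) with rfl | rfl
  · have e1 : {j' | M.Cell i j'} = {t - M.L t, t - M.L t + 1} := by
      ext y
      rw [Set.mem_ofPred_eq, key, Set.mem_insert_iff, Set.mem_singleton_iff]
      constructor
      · rintro (c | c | c | c) <;> omega
      · rintro (c | c)
        · exact Or.inr (Or.inl (by omega))
        · exact Or.inr (Or.inr (Or.inl (by omega)))
    have e2 : {i' | M.Cell i' j} = {M.L t} := by
      ext x
      rw [Set.mem_ofPred_eq, key, Set.mem_singleton_iff]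
      constructor
      · rintro (c | c | c | c) <;> omega
      · rintro rfl
        omega
    rw [e1, e2, Set.ncard_pair (by omega), Set.ncard_singleton]
  · have e1 : {j' | M.Cell i j'} = {t - M.L t} := by
      ext y
      rw [Set.mem_ofPred_eq, key, Set.mem_singleton_iff]
      constructor
      · rintro (c | c | c | c) <;> omega
      · rintro rfl
        omega
    have e2 : {i' | M.Cell i' j} = {M.L t, M.L t + 1} := by
      ext x
      rw [Set.mem_ofPred_eq, key, Set.mem_insert_iff, Set.mem_singleton_iff]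
      constructor
      · rintro (c | c | c | c) <;> omega
      · rintro (c | c)
        · exact Or.inr (Or.inl (by omega))
        · exact Or.inr (Or.inr (Or.inl (by omega)))
    rw [e1, e2, Set.ncard_pair (by omega), Set.ncard_singleton]

end Pool.Agent.Lib.MP_bd7e44_co.W2
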